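import Pool.Agent.Work.MP_495a89_nm.Interface

/-!
# Block CO of MP_495a89_nm: few primes have a collision in their tree
-/

set_option autoImplicit false

namespace Pool.Agent.Work.MP_495a89_nm

open Finset

namespace COaux

lemma sum_biUnion_le {ι : Type*} (s : Finset ι) (t : ι → Finset ℕ) (f : ℕ → ℝ)
    (hf : ∀ a, 0 ≤ f a) : ∑ a ∈ s.biUnion t, f a ≤ ∑ i ∈ s, ∑ a ∈ t i, f a := by
  classical
  induction s using Finset.induction_on with
  | empty => simp
  | insert i s hi ih =>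
    rw [Finset.biUnion_insert, Finset.sum_insert hi]
    have h1 := Finset.sum_union_inter (s₁ := t i) (s₂ := s.biUnion t) (f := f)
    have h2 : 0 ≤ ∑ a ∈ t i ∩ s.biUnion t, f a := Finset.sum_nonneg fun a _ => hf a
    linarith

/-- the integers up to `x` which are `-1` modulo `k` -/
def M (x k : ℕ) : Finset ℕ := (Icc 1 x).filter fun q => k ∣ q + 1

lemma card_M (x k : ℕ) (hx : 1 ≤ x) (hk : 1 ≤ k) : ((M x k).card : ℝ) ≤ 2 * x / k := by
  have h1 : (M x k).card ≤ ((Ioc 0 (x + 1)).filter fun m => k ∣ m).card := by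
    apply Finset.card_le_card_of_injOn (fun q => q + 1)
    · intro q hq
      simp only [M, Finset.coe_filter, Finset.mem_Icc, Set.mem_setOf_eq] at hq
      simp only [Finset.coe_filter, Finset.mem_Ioc, Set.mem_setOf_eq]
      exact ⟨⟨by omega, by omega⟩, hq.2⟩
    · intro a _ b _ h
      simpa using h
  rw [Nat.Ioc_filter_dvd_card_eq_div] at h1
  have h2 : (((x + 1) / k : ℕ) : ℝ) ≤ ((x + 1 : ℕ) : ℝ) / k := Nat.cast_div_le
  have h3 : ((M x k).card : ℝ) ≤ (((x + 1) / k : ℕ) : ℝ) := by exact_mod_cast h1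
  have hk' : (0 : ℝ) < k := by exact_mod_cast hk
  have hx' : (1 : ℝ) ≤ x := by exact_mod_cast hx
  refine (h3.trans h2).trans ?_
  apply div_le_div_of_nonneg_right _ hk'.le
  push_cast
  linarith

lemma harm (x : ℕ) : ∑ j ∈ Icc 1 x, 1 / (j : ℝ) ≤ 1 + Real.log x := by
  have h := harmonic_le_one_add_log x
  rw [harmonic_eq_sum_Icc] at h
  push_cast at h
  simpa [one_div] using h

lemma sum_M (x k : ℕ) (hk : 2 ≤ k) :
    ∑ q ∈ M x k, 1 / (q : ℝ) ≤ 2 * (1 + Real.log x) / k := by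
  have hk' : (0 : ℝ) < k := by exact_mod_cast (by omega : 0 < k)
  have h1 : ∑ q ∈ M x k, 1 / (q : ℝ) ≤ ∑ q ∈ M x k, 2 / k * (1 / (((q + 1) / k : ℕ) : ℝ)) := by
    apply Finset.sum_le_sum
    intro q hq
    simp only [M, Finset.mem_filter, Finset.mem_Icc] at hq
    obtain ⟨⟨hq1, hq2⟩, j, hj⟩ := hq
    have hjpos : 0 < j := by
      rcases Nat.eq_zero_or_pos j with h | h
      · subst h; omega
      · exact h
    rw [hj, Nat.mul_div_cancel_left j (by omega : 0 < k)]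
    have hj' : (0 : ℝ) < j := by exact_mod_cast hjpos
    have hq' : (1 : ℝ) ≤ q := by exact_mod_cast hq1
    have hjr : (q : ℝ) + 1 = k * j := by exact_mod_cast hj
    rw [div_mul_div_comm, mul_one, div_le_div_iff₀ (by linarith) (by positivity), one_mul]
    linarith
  have h2 : ∑ q ∈ M x k, 2 / k * (1 / (((q + 1) / k : ℕ) : ℝ))
      = ∑ j ∈ (M x k).image (fun q => (q + 1) / k), 2 / k * (1 / (j : ℝ)) := by
    rw [Finset.sum_image]
    intro a ha b hb h
    simp only [M, Finset.coe_filter, Finset.mem_Icc, Set.mem_setOf_eq] at ha hb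
    obtain ⟨_, i, hi⟩ := ha
    obtain ⟨_, j, hj⟩ := hb
    simp only [hi, hj, Nat.mul_div_cancel_left _ (by omega : 0 < k)] at h
    subst h
    omega
  have h3 : ∑ j ∈ (M x k).image (fun q => (q + 1) / k), 2 / k * (1 / (j : ℝ))
      ≤ ∑ j ∈ Icc 1 x, 2 / k * (1 / (j : ℝ)) := by
    apply Finset.sum_le_sum_of_subset_of_nonneg
    · intro j hj
      rw [Finset.mem_image] at hj
      obtain ⟨q, hq, rfl⟩ := hj
      simp only [M, Finset.mem_filter, Finset.mem_Icc] at hq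
      obtain ⟨⟨hq1, hq2⟩, j, hj⟩ := hq
      rw [hj, Nat.mul_div_cancel_left j (by omega : 0 < k), Finset.mem_Icc]
      have hjpos : 0 < j := by
        rcases Nat.eq_zero_or_pos j with h | h
        · subst h; omega
        · exact h
      refine ⟨hjpos, ?_⟩
      nlinarith
    · intro j _ _
      positivity
  have h4 : ∑ j ∈ Icc 1 x, 2 / k * (1 / (j : ℝ)) ≤ 2 / k * (1 + Real.log x) := by
    rw [← Finset.mul_sum]
    exact mul_le_mul_of_nonneg_left (harm x) (by positivity)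
  calc ∑ q ∈ M x k, 1 / (q : ℝ) ≤ 2 / k * (1 + Real.log x) := by
        rw [h2] at h1; linarith
    _ = 2 * (1 + Real.log x) / k := by ring

lemma mem_ch {z p r : ℕ} : r ∈ ch z p ↔ r.Prime ∧ r ∣ p + 1 ∧ z < r := by
  simp only [ch, Finset.mem_filter, Nat.mem_primeFactors]
  constructor
  · rintro ⟨⟨h1, h2, _⟩, h4⟩
    exact ⟨h1, h2, h4⟩
  · rintro ⟨h1, h2, h3⟩
    exact ⟨⟨h1, h2, by omega⟩, h3⟩

lemma ch_le {z q p : ℕ} (hz : 3 ≤ z) (hq : q.Prime) (h : p ∈ ch z q) : p ≤ q := by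
  obtain ⟨hp, hd, hzp⟩ := mem_ch.1 h
  have h1 : p ≤ q + 1 := Nat.le_of_dvd (by omega) hd
  by_contra hc
  have h2 : p = q + 1 := by omega
  have h3 : q % 2 = 1 := by
    rcases hq.eq_two_or_odd with h | h
    · omega
    · exact h
  rcases hp.eq_two_or_odd with h | h
  · omega
  · omega

lemma desc_bounds {z : ℕ} (hz : 3 ≤ z) (L : ℕ) : ∀ u r : ℕ, u.Prime → z < u → r ∈ Desc z L u →
    r.Prime ∧ z < r ∧ r ≤ u := by
  induction L with
  | zero =>
    intro u r hu hzu hr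
    simp only [Desc, Finset.mem_singleton] at hr
    subst hr
    exact ⟨hu, hzu, le_refl _⟩
  | succ L ih =>
    intro u r hu hzu hr
    simp only [Desc, Finset.mem_insert, Finset.mem_biUnion] at hr
    rcases hr with rfl | ⟨p, hp, hr⟩
    · exact ⟨hu, hzu, le_refl _⟩
    · have hple := ch_le hz hu hp
      obtain ⟨hp1, hp2, hp3⟩ := mem_ch.1 hp
      obtain ⟨h1, h2, h3⟩ := ih p r hp1 hp3 hr
      exact ⟨h1, h2, h3.trans hple⟩

/-- the primes up to `x` above `r` -/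
def U (x z L r : ℕ) : Finset ℕ := (Icc 1 x).filter (fun u => u.Prime ∧ r ∈ Desc z L u)

lemma prime_coprime {z Q : ℕ} (hQ : ∀ p : ℕ, p.Prime → p ∣ Q → p ≤ z) {u : ℕ} (hu : u.Prime)
    (hzu : z < u) : Nat.Coprime Q u := by
  have : ¬ u ∣ Q := fun h => by
    have := hQ u hu h
    omega
  exact ((Nat.Prime.coprime_iff_not_dvd hu).2 this).symm

open Classical in
lemma bad_subset {x z L Q : ℕ} (hz : 3 ≤ z) (hQ : ∀ p : ℕ, p.Prime → p ∣ Q → p ≤ z) :
    (PA x Q).filter (fun q => bad z L q) ⊆ (Ioc z x).biUnion (fun r =>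
      (U x z L r).biUnion (fun u => (U x z L r).biUnion (fun v => M x (Q * (u * v))))) := by
  intro q hq
  simp only [Finset.mem_filter, PA, Finset.mem_Icc] at hq
  obtain ⟨⟨⟨hq1, hq2⟩, hqp, hQd⟩, u, hu, v, hv, huv, r, hru, hrv⟩ := hq
  obtain ⟨hu1, hu2, hu3⟩ := mem_ch.1 hu
  obtain ⟨hv1, hv2, hv3⟩ := mem_ch.1 hv
  have hcop : Nat.Coprime u v := (Nat.coprime_primes hu1 hv1).2 huv
  have hd : u * v ∣ q + 1 := hcop.mul_dvd_of_dvd_of_dvd hu2 hv2
  have hle : u * v ≤ q + 1 := Nat.le_of_dvd (by omega) hd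
  have hux : u ≤ x := by nlinarith
  have hvx : v ≤ x := by nlinarith
  obtain ⟨_, hr2, hr3⟩ := desc_bounds hz L u r hu1 hu3 hru
  have hQc : Nat.Coprime Q (u * v) :=
    Nat.Coprime.mul_right (prime_coprime hQ hu1 hu3) (prime_coprime hQ hv1 hv3)
  have hQd' : Q * (u * v) ∣ q + 1 := hQc.mul_dvd_of_dvd_of_dvd hQd hd
  simp only [Finset.mem_biUnion]
  refine ⟨r, Finset.mem_Ioc.2 ⟨hr2, hr3.trans hux⟩, u, ?_, v, ?_, ?_⟩
  · simp only [U, Finset.mem_filter, Finset.mem_Icc]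
    exact ⟨⟨hu1.one_lt.le, hux⟩, hu1, hru⟩
  · simp only [U, Finset.mem_filter, Finset.mem_Icc]
    exact ⟨⟨hv1.one_lt.le, hvx⟩, hv1, hrv⟩
  · simp only [M, Finset.mem_filter, Finset.mem_Icc]
    exact ⟨⟨hq1, hq2⟩, hQd'⟩

open Classical in
lemma bad_sum {x z L Q : ℕ} (hz : 3 ≤ z) (hQ : ∀ p : ℕ, p.Prime → p ∣ Q → p ≤ z) (w : ℕ → ℝ)
    (hw : ∀ a, 0 ≤ w a) :
    ∑ q ∈ (PA x Q).filter (fun q => bad z L q), w q ≤ ∑ r ∈ Ioc z x, ∑ u ∈ U x z L r,
      ∑ v ∈ U x z L r, ∑ q ∈ M x (Q * (u * v)), w q := by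
  refine (Finset.sum_le_sum_of_subset_of_nonneg (bad_subset hz hQ) (fun a _ _ => hw a)).trans ?_
  refine (sum_biUnion_le _ _ _ hw).trans ?_
  apply Finset.sum_le_sum
  intro r _
  refine (sum_biUnion_le _ _ _ hw).trans ?_
  apply Finset.sum_le_sum
  intro u _
  exact sum_biUnion_le _ _ _ hw

/-- the triple sum -/
lemma triple (hHB : Stmt_HB) {x z L : ℕ} (hx : 1 ≤ x) (hz : 3 ≤ z) (c : ℝ) (hc : 0 ≤ c) :
    ∑ r ∈ Ioc z x, ∑ u ∈ U x z L r, ∑ v ∈ U x z L r, c / ((u : ℝ) * v)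
      ≤ c * (3 * (1 + Real.log x)) ^ (2 * L) / z := by
  have hlam : 0 ≤ 1 + Real.log x := by
    have : (1 : ℝ) ≤ x := by exact_mod_cast hx
    have := Real.log_nonneg this
    linarith
  have hz' : (0 : ℝ) < z := by exact_mod_cast (by omega : 0 < z)
  have h1 : ∀ r ∈ Ioc z x, ∑ u ∈ U x z L r, ∑ v ∈ U x z L r, c / ((u : ℝ) * v)
      ≤ c * (3 * (1 + Real.log x)) ^ (2 * L) * ((r : ℝ) ^ 2)⁻¹ := by
    intro r hr
    have hr' := Finset.mem_Ioc.1 hr
    have h2 : ∑ u ∈ U x z L r, ∑ v ∈ U x z L r, c / ((u : ℝ) * v)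
        = c * (∑ u ∈ U x z L r, 1 / (u : ℝ)) ^ 2 := by
      rw [sq, Finset.sum_mul_sum, Finset.mul_sum]
      apply Finset.sum_congr rfl
      intro u _
      rw [Finset.mul_sum]
      apply Finset.sum_congr rfl
      intro v _
      rw [div_mul_div_comm, mul_one, mul_one_div]
    rw [h2, mul_assoc]
    apply mul_le_mul_of_nonneg_left _ hc
    have h3 := hHB L x z r hx hz hr'.1
    have h4 : 0 ≤ ∑ u ∈ U x z L r, 1 / (u : ℝ) := Finset.sum_nonneg fun a _ => by positivity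
    calc (∑ u ∈ U x z L r, 1 / (u : ℝ)) ^ 2 ≤ ((3 * (1 + Real.log x)) ^ L / r) ^ 2 :=
          pow_le_pow_left₀ h4 h3 2
      _ = (3 * (1 + Real.log x)) ^ (2 * L) * ((r : ℝ) ^ 2)⁻¹ := by
          rw [div_pow, ← pow_mul, mul_comm L 2, div_eq_mul_inv]
  refine (Finset.sum_le_sum h1).trans ?_
  rw [← Finset.mul_sum, mul_div_assoc, div_eq_mul_inv, ← mul_assoc]
  apply mul_le_mul_of_nonneg_left _ (by positivity)
  rcases le_total z x with h | h
  · have h5 := sum_Ioc_inv_sq_le_sub (α := ℝ) (by omega : z ≠ 0) h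
    have h6 : (0 : ℝ) ≤ (x : ℝ)⁻¹ := by positivity
    linarith
  · rw [Finset.Ioc_eq_empty (by omega)]
    simp only [Finset.sum_empty]
    positivity

open Classical in
/-- case `p = q` -/
lemma caseA (hHB : Stmt_HB) {x z L Q : ℕ} (hx : 1 ≤ x) (hz : 3 ≤ z) (hQ1 : 1 ≤ Q)
    (hQ : ∀ p : ℕ, p.Prime → p ∣ Q → p ≤ z) :
    (((PA x Q).filter (fun q => bad z L q)).card : ℝ)
      ≤ 2 * x / Q * (3 * (1 + Real.log x)) ^ (2 * L) / z := by
  have h := bad_sum (x := x) (L := L) hz hQ (fun _ => (1 : ℝ)) (fun _ => zero_le_one)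
  have h0 : ∑ q ∈ (PA x Q).filter (fun q => bad z L q), (1 : ℝ)
      = (((PA x Q).filter (fun q => bad z L q)).card : ℝ) := by simp
  rw [h0] at h
  refine h.trans ?_
  have hQ' : (0 : ℝ) < Q := by exact_mod_cast hQ1
  refine le_trans ?_ (triple hHB (L := L) hx hz (2 * x / Q) (by positivity))
  apply Finset.sum_le_sum
  intro r _
  apply Finset.sum_le_sum
  intro u hu
  apply Finset.sum_le_sum
  intro v hv
  simp only [U, Finset.mem_filter, Finset.mem_Icc] at hu hv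
  have h1 : ∑ q ∈ M x (Q * (u * v)), (1 : ℝ) = ((M x (Q * (u * v))).card : ℝ) := by simp
  rw [h1]
  have hpos : 1 ≤ Q * (u * v) := Nat.mul_pos hQ1 (Nat.mul_pos hu.1.1 hv.1.1)
  refine (card_M x _ hx hpos).trans (le_of_eq ?_)
  push_cast
  rw [div_div]

open Classical in
/-- the harmonic sum over the bad primes -/
lemma sumBad (hHB : Stmt_HB) {x z L : ℕ} (hx : 1 ≤ x) (hz : 3 ≤ z) :
    ∑ p ∈ (PA x 1).filter (fun q => bad z L q), 1 / (p : ℝ)
      ≤ 2 * (1 + Real.log x) * (3 * (1 + Real.log x)) ^ (2 * L) / z := by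
  have hlam : 0 ≤ 1 + Real.log x := by
    have : (1 : ℝ) ≤ x := by exact_mod_cast hx
    have := Real.log_nonneg this
    linarith
  have hQ : ∀ p : ℕ, p.Prime → p ∣ 1 → p ≤ z := by
    intro p hp h
    rw [Nat.dvd_one] at h
    omega
  have h := bad_sum (x := x) (L := L) hz hQ (fun p => 1 / (p : ℝ)) (fun _ => by positivity)
  refine h.trans ?_
  refine le_trans ?_ (triple hHB (L := L) hx hz (2 * (1 + Real.log x)) (by positivity))
  apply Finset.sum_le_sum
  intro r _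
  apply Finset.sum_le_sum
  intro u hu
  apply Finset.sum_le_sum
  intro v hv
  simp only [U, Finset.mem_filter, Finset.mem_Icc] at hu hv
  have h2 : 2 ≤ 1 * (u * v) := by
    have h3 := hu.2.1.two_le
    have h4 := hv.2.1.two_le
    nlinarith
  refine (sum_M x _ h2).trans (le_of_eq ?_)
  push_cast
  rw [one_mul]

open Classical in
/-- case `p ≠ q` -/
lemma caseB (hHB : Stmt_HB) {x z L Q : ℕ} (hx : 1 ≤ x) (hz : 3 ≤ z) (hQ1 : 1 ≤ Q)
    (hQ : ∀ p : ℕ, p.Prime → p ∣ Q → p ≤ z) (S : Finset ℕ)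
    (hS : ∀ q ∈ S, q ∈ PA x Q ∧ ∃ p' ∈ ch z q, ∃ p ∈ Desc z L p', bad z (L + 1) p) :
    (S.card : ℝ) ≤ 2 * x / Q * (3 * (1 + Real.log x)) ^ L *
      (2 * (1 + Real.log x) * (3 * (1 + Real.log x)) ^ (2 * (L + 1)) / z) := by
  have hlam : 0 ≤ 1 + Real.log x := by
    have : (1 : ℝ) ≤ x := by exact_mod_cast hx
    have := Real.log_nonneg this
    linarith
  have hQ' : (0 : ℝ) < Q := by exact_mod_cast hQ1
  set T := ((PA x 1).filter (fun q => bad z (L + 1) q)).filter (fun p => z < p) with hT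
  have hsub : S ⊆ T.biUnion (fun p => (U x z L p).biUnion (fun p' => M x (Q * p'))) := by
    intro q hq
    obtain ⟨hq0, p', hp', p, hp, hbad⟩ := hS q hq
    simp only [PA, Finset.mem_filter, Finset.mem_Icc] at hq0
    obtain ⟨⟨hq1, hq2⟩, hqp, hQd⟩ := hq0
    have hle := ch_le hz hqp hp'
    obtain ⟨hp1, hp2, hp3⟩ := mem_ch.1 hp'
    obtain ⟨h1, h2, h3⟩ := desc_bounds hz L p' p hp1 hp3 hp
    simp only [Finset.mem_biUnion]
    refine ⟨p, ?_, p', ?_, ?_⟩
    · rw [hT]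
      simp only [PA, Finset.mem_filter, Finset.mem_Icc]
      exact ⟨⟨⟨⟨h1.one_lt.le, by omega⟩, h1, one_dvd _⟩, hbad⟩, h2⟩
    · simp only [U, Finset.mem_filter, Finset.mem_Icc]
      exact ⟨⟨hp1.one_lt.le, by omega⟩, hp1, hp⟩
    · simp only [M, Finset.mem_filter, Finset.mem_Icc]
      exact ⟨⟨hq1, hq2⟩, (prime_coprime hQ hp1 hp3).mul_dvd_of_dvd_of_dvd hQd hp2⟩
  have h1 : (S.card : ℝ) ≤ ∑ p ∈ T, ∑ p' ∈ U x z L p, ((M x (Q * p')).card : ℝ) := by
    have h2 : S.card ≤ ∑ p ∈ T, ∑ p' ∈ U x z L p, (M x (Q * p')).card := by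
      refine (Finset.card_le_card hsub).trans (Finset.card_biUnion_le.trans ?_)
      apply Finset.sum_le_sum
      intro p _
      exact Finset.card_biUnion_le
    exact_mod_cast h2
  have h2 : ∀ p ∈ T, ∑ p' ∈ U x z L p, ((M x (Q * p')).card : ℝ)
      ≤ 2 * x / Q * (3 * (1 + Real.log x)) ^ L * (1 / (p : ℝ)) := by
    intro p hp
    have hzp : z < p := (Finset.mem_filter.1 hp).2
    have h3 : ∑ p' ∈ U x z L p, ((M x (Q * p')).card : ℝ)
        ≤ ∑ p' ∈ U x z L p, 2 * x / Q * (1 / (p' : ℝ)) := by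
      apply Finset.sum_le_sum
      intro p' hp'
      simp only [U, Finset.mem_filter, Finset.mem_Icc] at hp'
      refine (card_M x _ hx (Nat.mul_pos hQ1 hp'.1.1)).trans (le_of_eq ?_)
      push_cast
      rw [mul_one_div, div_div]
    refine h3.trans ?_
    rw [← Finset.mul_sum, mul_assoc]
    apply mul_le_mul_of_nonneg_left _ (by positivity)
    have h4 := hHB L x z p hx hz hzp
    rw [mul_one_div]
    exact h4
  have h3 : ∑ p ∈ T, 1 / (p : ℝ) ≤ 2 * (1 + Real.log x) * (3 * (1 + Real.log x)) ^ (2 * (L + 1)) / z := by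
    refine le_trans ?_ (sumBad hHB (L := L + 1) hx hz)
    apply Finset.sum_le_sum_of_subset_of_nonneg (Finset.filter_subset _ _)
    intro p _ _
    positivity
  refine h1.trans ((Finset.sum_le_sum h2).trans ?_)
  rw [← Finset.mul_sum]
  apply mul_le_mul_of_nonneg_left h3 (by positivity)

end COaux

open COaux in
theorem stmt_CO (hHB : Stmt_HB) : Stmt_CO := by
  intro L
  refine ⟨6 * 27 ^ L, by positivity, ?_⟩
  intro x z Q hx hz hQ1 hQ
  classical
  have hx1 : 1 ≤ x := by omega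
  have hxr : (1 : ℝ) ≤ x := by exact_mod_cast hx1
  have hlog := Real.log_nonneg hxr
  set lam : ℝ := 1 + Real.log x with hlam
  have hlam1 : 1 ≤ lam := by linarith
  have hlam0 : 0 ≤ lam := by linarith
  have hQ' : (0 : ℝ) < Q := by exact_mod_cast hQ1
  have hz' : (0 : ℝ) < z := by exact_mod_cast (by omega : 0 < z)
  have hA := caseA hHB (L := L) hx1 hz hQ1 hQ
  rw [← hlam] at hA
  have hpowA : (3 * lam) ^ (2 * L) ≤ 27 ^ L * lam ^ (3 * L + 3) := by
    rw [mul_pow, pow_mul]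
    apply mul_le_mul _ _ (by positivity) (by positivity)
    · exact pow_le_pow_left₀ (by norm_num) (by norm_num) L
    · exact pow_le_pow_right₀ hlam1 (by omega)
  -- the final inequality from a bound of the card
  have key : ∀ N : ℝ, N ≤ 6 * 27 ^ L * lam ^ (3 * L + 3) * (x / (Q * z)) →
      N * (Q * z) ≤ 6 * 27 ^ L * x * lam ^ (3 * L + 3) := by
    intro N hN
    calc N * (Q * z) ≤ 6 * 27 ^ L * lam ^ (3 * L + 3) * (x / (Q * z)) * (Q * z) := by
          apply mul_le_mul_of_nonneg_right hN (by positivity)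
      _ = 6 * 27 ^ L * x * lam ^ (3 * L + 3) := by
          field_simp
  apply key
  rcases L with _ | L
  · have hsub : (PA x Q).filter (fun q => ∃ p ∈ Desc z 0 q, bad z 0 p)
        ⊆ (PA x Q).filter (fun q => bad z 0 q) := by
      intro q hq
      simp only [Finset.mem_filter, Desc, Finset.mem_singleton, exists_eq_left] at hq ⊢
      exact hq
    have h1 : (((PA x Q).filter (fun q => ∃ p ∈ Desc z 0 q, bad z 0 p)).card : ℝ)
        ≤ (((PA x Q).filter (fun q => bad z 0 q)).card : ℝ) := by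
      exact_mod_cast Finset.card_le_card hsub
    refine h1.trans (hA.trans ?_)
    have h2 : 2 * x / Q * (3 * lam) ^ (2 * 0) / z ≤ 2 * x / Q * (27 ^ 0 * lam ^ (3 * 0 + 3)) / z := by
      gcongr
    refine h2.trans ?_
    have h3 : 2 * (x : ℝ) / Q * (27 ^ 0 * lam ^ (3 * 0 + 3)) / z
        = 2 * (27 ^ 0 * lam ^ (3 * 0 + 3) * (x / (Q * z))) := by
      field_simp
    rw [h3]
    have h4 : 0 ≤ 27 ^ 0 * lam ^ (3 * 0 + 3) * ((x : ℝ) / (Q * z)) := by positivity
    nlinarith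
  · set SA := (PA x Q).filter (fun q => bad z (L + 1) q) with hSA
    set SB := (PA x Q).filter (fun q => ∃ p' ∈ ch z q, ∃ p ∈ Desc z L p', bad z (L + 1) p) with hSB
    have hsub : (PA x Q).filter (fun q => ∃ p ∈ Desc z (L + 1) q, bad z (L + 1) p) ⊆ SA ∪ SB := by
      intro q hq
      rw [Finset.mem_filter] at hq
      obtain ⟨hq0, p, hp, hbad⟩ := hq
      simp only [Desc, Finset.mem_insert, Finset.mem_biUnion] at hp
      rw [Finset.mem_union, hSA, hSB, Finset.mem_filter, Finset.mem_filter]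
      rcases hp with rfl | ⟨p', hp', hp⟩
      · exact Or.inl ⟨hq0, hbad⟩
      · exact Or.inr ⟨hq0, p', hp', p, hp, hbad⟩
    have h1 : (((PA x Q).filter (fun q => ∃ p ∈ Desc z (L + 1) q, bad z (L + 1) p)).card : ℝ)
        ≤ (SA.card : ℝ) + SB.card := by
      exact_mod_cast (Finset.card_le_card hsub).trans (Finset.card_union_le _ _)
    have hB := caseB hHB (L := L) hx1 hz hQ1 hQ SB (by
      intro q hq
      rw [hSB, Finset.mem_filter] at hq
      exact hq)
    rw [← hlam] at hB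
    have h2 : 2 * x / Q * (3 * lam) ^ (2 * (L + 1)) / z
        ≤ 2 * x / Q * (27 ^ (L + 1) * lam ^ (3 * (L + 1) + 3)) / z := by
      gcongr
    have h3 : (3 * lam) ^ L * (lam * (3 * lam) ^ (2 * (L + 1)))
        ≤ 27 ^ (L + 1) * lam ^ (3 * (L + 1) + 3) := by
      have e1 : (3 * lam) ^ L * (lam * (3 * lam) ^ (2 * (L + 1)))
          = 3 ^ (3 * L + 2) * lam ^ (3 * L + 3) := by
        rw [mul_pow, mul_pow, show 3 * L + 2 = L + 2 * (L + 1) by ring,
          show 3 * L + 3 = L + 1 + 2 * (L + 1) by ring, pow_add, pow_add, pow_add]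
        ring
      rw [e1]
      apply mul_le_mul _ _ (by positivity) (by positivity)
      · rw [show (27 : ℝ) = 3 ^ 3 by norm_num, ← pow_mul]
        exact pow_le_pow_right₀ (by norm_num) (by omega)
      · exact pow_le_pow_right₀ hlam1 (by omega)
    have h4 : 2 * x / Q * (3 * lam) ^ L * (2 * lam * (3 * lam) ^ (2 * (L + 1)) / z)
        ≤ 4 * (27 ^ (L + 1) * lam ^ (3 * (L + 1) + 3) * (x / (Q * z))) := by
      have e2 : 2 * x / Q * (3 * lam) ^ L * (2 * lam * (3 * lam) ^ (2 * (L + 1)) / z)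
          = 4 * ((3 * lam) ^ L * (lam * (3 * lam) ^ (2 * (L + 1))) * (x / (Q * z))) := by
        field_simp
        ring
      rw [e2]
      gcongr
    have h5 : 2 * (x : ℝ) / Q * (27 ^ (L + 1) * lam ^ (3 * (L + 1) + 3)) / z
        = 2 * (27 ^ (L + 1) * lam ^ (3 * (L + 1) + 3) * (x / (Q * z))) := by
      field_simp
    rw [h5] at h2
    linarith

end Pool.Agent.Work.MP_495a89_nm
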