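import Mathlib

/-!
# Near multiperfect numbers (MP_495a89_nt): statements of the blocks

See `BLUEPRINT.md`.  Every block is a `Prop` `Stmt_X`; the file `X.lean` proves
`theorem stmt_X : Stmt_X` or, when it uses other blocks, `theorem stmt_X (h : Stmt_Y) ... : Stmt_X`.
-/

set_option autoImplicit false

namespace Pool.Agent.Work.MP_495a89_nm

open Finset

/-! ## Definitions -/

/-- the prime factors `> z` of `p + 1` -/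
def ch (z p : ℕ) : Finset ℕ := (p + 1).primeFactors.filter fun r => z < r

/-- the primes reached from `q` by at most `L` steps `p → r` with `r ∣ p + 1`, `r > z` -/
def Desc (z : ℕ) : ℕ → ℕ → Finset ℕ
  | 0, q => {q}
  | L + 1, q => insert q ((ch z q).biUnion (Desc z L))

/-- the same with multiplicity, weighted by the logarithm -/
noncomputable def mass (z : ℕ) : ℕ → ℕ → ℝ
  | 0, q => Real.log q
  | L + 1, q => Real.log q + ∑ p ∈ ch z q, mass z L p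

/-- a collision below `q` -/
def bad (z L q : ℕ) : Prop :=
  ∃ u ∈ ch z q, ∃ v ∈ ch z q, u ≠ v ∧ ∃ r ∈ Desc z L u, r ∈ Desc z L v

/-- the primes `q ≤ x` with `q ≡ -1` modulo `k` -/
def PA (x k : ℕ) : Finset ℕ := (Icc 1 x).filter fun q => q.Prime ∧ k ∣ q + 1

/-- the modulus -/
def QQ (F Z p0 : ℕ) : ℕ := F * ∏ p ∈ ((Icc 1 Z).filter Nat.Prime).erase p0, p

open Classical in
/-- the lost part of `log ((q + 1) / Q)` -/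
noncomputable def lost (Q z1 : ℕ) (E : Set ℕ) (q : ℕ) : ℝ :=
  Real.log (q + 1) - Real.log Q -
    ∑ p ∈ (q + 1).primeFactors.filter (fun p => z1 < p ∧ p ∉ E), Real.log p

/-! ## Sieve bounds -/

/-- Block BT. Brun–Titchmarsh for the class `-1`. -/
def Stmt_BT : Prop :=
  ∃ C : ℝ, 0 < C ∧ ∀ k x : ℕ, 1 ≤ k → 2 * k ≤ x →
    ((PA x k).card : ℝ) * Real.log (x / k) ≤ C * x / k.totient

/-- Block S2. Sieve of dimension two for `p`, `k p - 1`. -/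
def Stmt_S2 : Prop :=
  ∃ C : ℝ, 0 < C ∧ ∀ k X : ℕ, 1 ≤ k → 1 ≤ X →
    (((Icc 1 X).filter fun p => p.Prime ∧ (k * p - 1).Prime).card : ℝ) * Real.log X ^ 2 ≤
      C * X * (k / k.totient)

/-- Block PHI. -/
def Stmt_PHI : Prop :=
  ∃ C : ℝ, 0 < C ∧ ∀ M : ℕ, 1 ≤ M → ∑ m ∈ Icc 1 M, 1 / (m.totient : ℝ) ≤ C * (1 + Real.log M)

/-! ## The lost mass -/

/-- Block LA. Small prime factors. -/
def Stmt_LA : Prop :=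
  ∃ C : ℝ, 0 < C ∧ ∃ x0 : ℕ, ∀ x : ℕ, x0 ≤ x → ∀ Q y : ℕ, 1 ≤ Q → 1 ≤ y → Q ^ 4 ≤ x → y ^ 4 ≤ x →
    (∑ q ∈ PA x Q, ∑ l ∈ ((q + 1) / Q).primeFactors.filter (fun l => l ≤ y), Real.log l) *
      Real.log x ≤ C * (1 + Real.log y) * x / Q.totient

/-- Block LB. Repeated prime factors. -/
def Stmt_LB : Prop :=
  ∃ C : ℝ, 0 < C ∧ ∃ x0 : ℕ, ∀ x : ℕ, x0 ≤ x → ∀ Q : ℕ, 1 ≤ Q → Q ^ 4 ≤ x →
    (∑ q ∈ PA x Q, ∑ l ∈ ((q + 1) / Q).primeFactors,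
      ((((q + 1) / Q).factorization l - 1 : ℕ) : ℝ) * Real.log l) * Real.log x ≤
      C * x / Q.totient

open Classical in
/-- Block LC. Prime factors in a sparse set. -/
def Stmt_LC : Prop :=
  ∃ C : ℝ, 0 < C ∧ ∀ η : ℝ, 0 < η → η ≤ 1 / 2 → ∃ x0 : ℕ, ∀ x : ℕ, x0 ≤ x → ∀ e : ℝ, 0 ≤ e →
    ∀ (Q z1 : ℕ) (E : Set ℕ), 1 ≤ Q → 2 ≤ z1 → z1 ≤ x → (Q : ℝ) ≤ (x : ℝ) ^ (η / 2) →
    (∀ p : ℕ, p.Prime → p ∣ Q → p ≤ z1) →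
    (∀ t : ℕ, z1 ≤ t → t ≤ x →
      (((Icc 1 t).filter fun p => p.Prime ∧ p ∈ E).card : ℝ) * Real.log t ≤ e * t) →
    ∑ q ∈ PA x Q, ∑ p ∈ (q + 1).primeFactors.filter
        (fun p => z1 < p ∧ (p : ℝ) ≤ (x : ℝ) ^ (1 - η) ∧ p ∈ E), Real.log p ≤
      C * e / η * x / Q.totient

/-- Block LD. Very large prime factors. -/
def Stmt_LD : Prop :=
  ∃ C : ℝ, 0 < C ∧ ∀ η : ℝ, 0 < η → η ≤ 1 / 4 → ∃ x0 : ℕ, ∀ x : ℕ, x0 ≤ x → ∀ Q : ℕ, 1 ≤ Q →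
    Q ^ 4 ≤ x →
    ∑ q ∈ PA x Q, ∑ p ∈ (q + 1).primeFactors.filter (fun p : ℕ => (x : ℝ) ^ (1 - η) < (p : ℝ)),
        Real.log p ≤
      C * η * x / Q.totient

open Classical in
/-- Block LO. The lost mass. -/
def Stmt_LO : Prop :=
  ∀ κ : ℝ, 0 < κ → ∃ e : ℝ, 0 < e ∧ ∃ δ : ℝ, 0 < δ ∧ ∃ x0 : ℕ, ∀ x : ℕ, x0 ≤ x →
    ∀ (Q z1 : ℕ) (E : Set ℕ), 1 ≤ Q → 2 ≤ z1 → (Q : ℝ) ≤ (x : ℝ) ^ δ → (z1 : ℝ) ≤ (x : ℝ) ^ δ →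
    (∀ p : ℕ, p.Prime → p ∣ Q → p ≤ z1) →
    (∀ t : ℕ, z1 ≤ t → t ≤ x →
      (((Icc 1 t).filter fun p => p.Prime ∧ p ∈ E).card : ℝ) * Real.log t ≤ e * t) →
    ∑ q ∈ PA x Q, lost Q z1 E q ≤ κ * x / Q.totient

open Classical in
/-- Block MS. Few primes have a light tree. -/
def Stmt_MS : Prop :=
  ∀ (L : ℕ) (κ ε : ℝ), 0 < κ → 0 < ε → ∃ δ : ℝ, 0 < δ ∧ ∃ x0 : ℕ, ∀ x : ℕ, x0 ≤ x →
    ∀ z Q : ℕ, 1 ≤ Q → (Q : ℝ) ≤ (x : ℝ) ^ δ → (z : ℝ) ≤ (x : ℝ) ^ δ →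
    (∀ p : ℕ, p.Prime → p ∣ Q → p ≤ z) →
    (((PA x Q).filter fun q => mass z L q < (L + 1 - κ) * Real.log x).card : ℝ) * Real.log x ≤
      ε * x / Q.totient

/-! ## Collisions and divisibility -/

/-- Block HB. Harmonic sum over the primes above `r` in the tree relation. -/
def Stmt_HB : Prop :=
  ∀ L x z r : ℕ, 1 ≤ x → 3 ≤ z → z < r →
    ∑ u ∈ (Icc 1 x).filter (fun u => u.Prime ∧ r ∈ Desc z L u), 1 / (u : ℝ) ≤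
      (3 * (1 + Real.log x)) ^ L / r

open Classical in
/-- Block CO. Few primes have a collision in their tree. -/
def Stmt_CO : Prop :=
  ∀ L : ℕ, ∃ C : ℝ, 0 < C ∧ ∀ x z Q : ℕ, 2 ≤ x → 3 ≤ z → 1 ≤ Q →
    (∀ p : ℕ, p.Prime → p ∣ Q → p ≤ z) →
    (((PA x Q).filter fun q => ∃ p ∈ Desc z L q, bad z L p).card : ℝ) * (Q * z) ≤
      C * x * (1 + Real.log x) ^ (3 * L + 3)

/-- Block TR. Without collisions the tree has no repetitions. -/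
def Stmt_TR : Prop :=
  ∀ z L q : ℕ, 3 ≤ z → q.Prime → z < q → (∀ p ∈ Desc z L q, ¬ bad z L p) →
    mass z L q ≤ ∑ p ∈ Desc z L q, Real.log p

/-- Block DV. The number `n`. -/
def Stmt_DV : Prop :=
  ∀ z L q Q : ℕ, 3 ≤ z → q.Prime → z < q → 1 ≤ Q → Q ∣ q + 1 →
    (∀ p : ℕ, p.Prime → p ∣ Q → p ≤ z) →
    ∃ n : ℕ, 1 ≤ n ∧ Q ∣ n ∧ q ∣ n ∧ ¬ q ^ 2 ∣ n ∧ n / q ∣ ∑ d ∈ n.divisors, d ∧
      (n : ℝ) * ∑ d ∈ Q.divisors, (d : ℝ) ≤ Q * ∑ d ∈ n.divisors, (d : ℝ) ∧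
      Real.log n = Real.log Q + ∑ p ∈ Desc z L q, Real.log p ∧
      ∑ p ∈ Desc z L q, Real.log p ≤ 4 ^ L * Real.log q

/-! ## The modulus -/

/-- Block M3. Lower bound in the third theorem of Mertens. -/
def Stmt_M3 : Prop :=
  ∀ ε : ℝ, 0 < ε → ∃ Z0 : ℕ, ∀ Z : ℕ, Z0 ≤ Z →
    (1 - ε) * Real.exp Real.eulerMascheroniConstant * Real.log Z ≤
      ∏ p ∈ (Icc 1 Z).filter Nat.Prime, (1 - 1 / (p : ℝ))⁻¹

/-- Block QS. -/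
def Stmt_QS : Prop :=
  ∀ ε : ℝ, 0 < ε → ∃ F K Z0 : ℕ, 1 ≤ F ∧ ∀ Z p0 : ℕ, Z0 ≤ Z → (p0 = 0 ∨ (p0.Prime ∧ K < p0)) →
    (1 - ε) * Real.exp Real.eulerMascheroniConstant * Real.log Z * (QQ F Z p0 : ℕ) ≤
      ∑ d ∈ (QQ F Z p0).divisors, (d : ℝ)

/-- Block LW. Many primes `≡ -1` modulo `QQ F Z p0`. -/
def Stmt_LW : Prop :=
  ∀ κ : ℝ, 0 < κ → κ ≤ 1 → ∀ F K : ℕ, 1 ≤ F → ∃ c : ℝ, 0 < c ∧ ∃ Z0 : ℕ, ∀ Z : ℕ, Z0 ≤ Z →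
    ∃ p0 : ℕ, (p0 = 0 ∨ (p0.Prime ∧ K < p0)) ∧
      ∀ x : ℕ, (Z : ℝ) ^ (1 + κ) ≤ Real.log x → Real.log x ≤ (Z : ℝ) ^ (1 + 2 * κ) →
        c * x / (QQ F Z p0).totient ≤ ((PA x (QQ F Z p0)).card : ℝ) * Real.log x

/-! ## The result -/

/-- Block FN. -/
def Stmt_FN : Prop :=
  ∀ ε : ℝ, 0 < ε → ∀ L N : ℕ, ∃ n q : ℕ, N ≤ n ∧ q.Prime ∧ q ∣ n ∧ ¬ q ^ 2 ∣ n ∧ q ^ L ≤ n ∧
    n / q ∣ ∑ d ∈ n.divisors, d ∧
    (1 - ε) * Real.exp Real.eulerMascheroniConstant * n * Real.log (Real.log n) ≤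
      ∑ d ∈ n.divisors, (d : ℝ)

end Pool.Agent.Work.MP_495a89_nm
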