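import Mathlib
import Pool.Agent.Work.MP_495a89_nm.Interface

/-!
# Block DV: the number `n`
-/

set_option autoImplicit false

namespace Pool.Agent.Work.MP_495a89_nm

open Finset

namespace DVaux

theorem self_mem (z L q : ℕ) : q ∈ Desc z L q := by
  cases L with
  | zero => simp [Desc]
  | succ L => simp [Desc]

theorem mem_ch {z p r : ℕ} : r ∈ ch z p ↔ (r.Prime ∧ r ∣ p + 1) ∧ z < r := by
  simp [ch]

theorem desc_prime (z L : ℕ) : ∀ q : ℕ, q.Prime → z < q →
    ∀ p ∈ Desc z L q, p.Prime ∧ z < p := by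
  induction L with
  | zero =>
    intro q hq hz p hp
    simp only [Desc, mem_singleton] at hp
    subst hp
    exact ⟨hq, hz⟩
  | succ L ih =>
    intro q hq hz p hp
    simp only [Desc, mem_insert, mem_biUnion] at hp
    rcases hp with rfl | ⟨u, hu, hp⟩
    · exact ⟨hq, hz⟩
    · rw [mem_ch] at hu
      exact ih u hu.1.1 hu.2 p hp

theorem desc_parent (z L : ℕ) : ∀ q : ℕ,
    ∀ p ∈ Desc z L q, p = q ∨ ∃ r ∈ Desc z L q, p ∣ r + 1 := by
  induction L with
  | zero =>
    intro q p hp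
    simp only [Desc, mem_singleton] at hp
    exact Or.inl hp
  | succ L ih =>
    intro q p hp
    have hp' := hp
    simp only [Desc, mem_insert, mem_biUnion] at hp'
    rcases hp' with h | ⟨u, hu, hpu⟩
    · exact Or.inl h
    · right
      rcases ih u p hpu with h | ⟨r, hr, hpr⟩
      · refine ⟨q, self_mem z (L + 1) q, ?_⟩
        rw [h]
        exact (mem_ch.1 hu).1.2
      · refine ⟨r, ?_, hpr⟩
        simp only [Desc, mem_insert, mem_biUnion]
        exact Or.inr ⟨u, hu, hr⟩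

/-- the divisor sum of a product of distinct primes -/
theorem sigma_prod (T : Finset ℕ) (hT : ∀ p ∈ T, p.Prime) :
    ∑ d ∈ (∏ p ∈ T, p).divisors, d = ∏ p ∈ T, (p + 1) := by
  induction T using Finset.induction_on with
  | empty => simp
  | insert a T ha ih =>
    rw [prod_insert ha, prod_insert ha]
    have hpa : a.Prime := hT a (mem_insert_self a T)
    have hcop : a.Coprime (∏ p ∈ T, p) := by
      refine Nat.Coprime.prod_right fun p hp => ?_
      refine (Nat.coprime_primes hpa (hT p (mem_insert_of_mem hp))).2 ?_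
      rintro rfl
      exact ha hp
    rw [Nat.Coprime.sum_divisors_mul hcop, ih fun p hp => hT p (mem_insert_of_mem hp),
      Nat.Prime.sum_divisors hpa]

theorem sum_log_ch (z q : ℕ) : ∑ p ∈ ch z q, Real.log p ≤ Real.log (q + 1) := by
  have h1 : ∑ p ∈ ch z q, Real.log p = Real.log ((∏ p ∈ ch z q, p : ℕ) : ℝ) := by
    push_cast
    rw [Real.log_prod]
    intro p hp
    have := (mem_ch.1 hp).1.1.pos
    positivity
  rw [h1]
  have hdvd : (∏ p ∈ ch z q, p) ∣ q + 1 := by
    refine Finset.prod_primes_dvd (q + 1) (fun p hp => (mem_ch.1 hp).1.1.prime) ?_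
    intro p hp
    exact (mem_ch.1 hp).1.2
  have hle : (∏ p ∈ ch z q, p) ≤ q + 1 := Nat.le_of_dvd (Nat.succ_pos q) hdvd
  have hpos : 0 < ∏ p ∈ ch z q, p := Finset.prod_pos fun p hp => (mem_ch.1 hp).1.1.pos
  refine Real.log_le_log (by exact_mod_cast hpos) ?_
  exact_mod_cast hle

theorem log_nat_nonneg (n : ℕ) : 0 ≤ Real.log n := Real.log_natCast_nonneg n

theorem sum_insert_le (a : ℕ) (S : Finset ℕ) (f : ℕ → ℝ) (hf : ∀ n, 0 ≤ f n) :
    ∑ p ∈ insert a S, f p ≤ f a + ∑ p ∈ S, f p := by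
  by_cases h : a ∈ S
  · rw [insert_eq_of_mem h]
    linarith [hf a]
  · rw [sum_insert h]

theorem sum_biUnion_le' (S : Finset ℕ) (g : ℕ → Finset ℕ) (f : ℕ → ℝ) (hf : ∀ n, 0 ≤ f n) :
    ∑ p ∈ S.biUnion g, f p ≤ ∑ u ∈ S, ∑ p ∈ g u, f p := by
  induction S using Finset.induction_on with
  | empty => simp
  | insert a S ha ih =>
    rw [biUnion_insert, sum_insert ha]
    have h : ∑ p ∈ g a ∪ S.biUnion g, f p ≤ ∑ p ∈ g a, f p + ∑ p ∈ S.biUnion g, f p := by
      rw [← sum_union_inter]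
      have : 0 ≤ ∑ p ∈ g a ∩ S.biUnion g, f p := sum_nonneg fun p _ => hf p
      linarith
    linarith

theorem desc_sum (z L : ℕ) : ∀ q : ℕ, 2 ≤ q →
    ∑ p ∈ Desc z L q, Real.log p ≤ 4 ^ L * Real.log q := by
  induction L with
  | zero =>
    intro q hq
    simp [Desc]
  | succ L ih =>
    intro q hq
    simp only [Desc]
    have h1 := sum_insert_le q ((ch z q).biUnion (Desc z L)) (fun p => Real.log p) log_nat_nonneg
    have h2 := sum_biUnion_le' (ch z q) (Desc z L) (fun p => Real.log p) log_nat_nonneg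
    have h3 : ∑ u ∈ ch z q, ∑ p ∈ Desc z L u, Real.log p ≤
        ∑ u ∈ ch z q, 4 ^ L * Real.log u :=
      sum_le_sum fun u hu => ih u (mem_ch.1 hu).1.1.two_le
    rw [← mul_sum] at h3
    have h4 := sum_log_ch z q
    have h5 : Real.log (q + 1) ≤ 2 * Real.log q := by
      have hq' : (2 : ℝ) ≤ q := by exact_mod_cast hq
      have : 2 * Real.log q = Real.log ((q : ℝ) ^ 2) := by
        rw [Real.log_pow]; norm_num
      rw [this]
      refine Real.log_le_log (by positivity) ?_
      nlinarith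
    have h6 : (1 : ℝ) ≤ 4 ^ L := one_le_pow₀ (by norm_num)
    have h7 : (0 : ℝ) ≤ Real.log q := log_nat_nonneg q
    have h8 : (4 : ℝ) ^ L * ∑ u ∈ ch z q, Real.log u ≤ 4 ^ L * (2 * Real.log q) := by
      refine mul_le_mul_of_nonneg_left (h4.trans h5) (by positivity)
    have h9 : Real.log q ≤ 4 ^ L * Real.log q := by nlinarith
    rw [pow_succ]
    linarith

end DVaux

open DVaux

theorem stmt_DV : Stmt_DV := by
  intro z L q Q hz hq hzq hQ hQq hQp
  set T := Desc z L q with hT
  have hTp : ∀ p ∈ T, p.Prime ∧ z < p := desc_prime z L q hq hzq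
  have hqT : q ∈ T := self_mem z L q
  set P := ∏ p ∈ T, p with hP
  set P' := ∏ p ∈ T.erase q, p with hP'
  have hPq : P = q * P' := (mul_prod_erase T (fun p => p) hqT).symm
  have hPpos : 0 < P := Finset.prod_pos fun p hp => (hTp p hp).1.pos
  have hQcop : ∀ p ∈ T, Q.Coprime p := by
    intro p hp
    refine ((Nat.Prime.coprime_iff_not_dvd (hTp p hp).1).2 fun h => ?_).symm
    exact absurd (hQp p (hTp p hp).1 h) (not_le.2 (hTp p hp).2)
  have hQP : Q.Coprime P := Nat.Coprime.prod_right hQcop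
  have hsP : ∑ d ∈ P.divisors, d = ∏ p ∈ T, (p + 1) := sigma_prod T fun p hp => (hTp p hp).1
  have hsn : ∑ d ∈ (Q * P).divisors, d = (∑ d ∈ Q.divisors, d) * ∏ p ∈ T, (p + 1) := by
    rw [Nat.Coprime.sum_divisors_mul hQP, hsP]
  refine ⟨Q * P, Nat.mul_pos hQ hPpos, dvd_mul_right Q P, ?_, ?_, ?_, ?_, ?_, ?_⟩
  · rw [hPq]
    exact (dvd_mul_right q P').mul_left Q
  · intro h
    rw [hPq, pow_two, show Q * (q * P') = q * (Q * P') by ring] at h
    have h' : q ∣ Q * P' := Nat.dvd_of_mul_dvd_mul_left hq.pos h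
    rcases (Nat.Prime.dvd_mul hq).1 h' with h1 | h1
    · exact absurd (hQp q hq h1) (not_le.2 hzq)
    · rw [hP', Prime.dvd_finsetProd_iff hq.prime] at h1
      obtain ⟨p, hp, hqp⟩ := h1
      rw [mem_erase] at hp
      exact hp.1 ((Nat.prime_dvd_prime_iff_eq hq (hTp p hp.2).1).1 hqp).symm
  · have hdiv : Q * P / q = Q * P' := by
      rw [hPq, show Q * (q * P') = q * (Q * P') by ring]
      exact Nat.mul_div_cancel_left _ hq.pos
    rw [hdiv, hsn]
    refine Dvd.dvd.mul_left ?_ _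
    refine Nat.Coprime.mul_dvd_of_dvd_of_dvd ?_ ?_ ?_
    · exact Nat.Coprime.prod_right fun p hp => hQcop p (mem_of_mem_erase hp)
    · exact hQq.trans (dvd_prod_of_mem (fun p => p + 1) hqT)
    · refine Finset.prod_primes_dvd _ (fun p hp => (hTp p (mem_of_mem_erase hp)).1.prime) ?_
      intro p hp
      rcases desc_parent z L q p (mem_of_mem_erase hp) with h | ⟨r, hr, hpr⟩
      · exact absurd h (ne_of_mem_erase hp)
      · exact hpr.trans (dvd_prod_of_mem (fun p => p + 1) hr)
  · have hPle : P ≤ ∏ p ∈ T, (p + 1) := Finset.prod_le_prod' fun p _ => Nat.le_succ p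
    have key : Q * P * ∑ d ∈ Q.divisors, d ≤ Q * ∑ d ∈ (Q * P).divisors, d := by
      rw [hsn, mul_assoc]
      refine Nat.mul_le_mul_left Q ?_
      rw [mul_comm P]
      exact Nat.mul_le_mul_left _ hPle
    have key' : ((Q * P * ∑ d ∈ Q.divisors, d : ℕ) : ℝ) ≤
        ((Q * ∑ d ∈ (Q * P).divisors, d : ℕ) : ℝ) := Nat.cast_le.2 key
    push_cast at key' ⊢
    exact key'
  · rw [Nat.cast_mul, Real.log_mul]
    · congr 1
      rw [hP]
      push_cast
      rw [Real.log_prod]
      intro p hp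
      have := (hTp p hp).1.pos
      positivity
    · have : 0 < Q := hQ
      positivity
    · positivity
  · exact desc_sum z L q hq.two_le

end Pool.Agent.Work.MP_495a89_nm
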