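import Mathlib
import Pool.Agent.Work.MP_b0c12c_nt.Assem1
import Pool.Agent.Work.MP_b0c12c_nt_shift.Interface
import Pool.Agent.Work.MP_495a89_nm.Interface

/-!
# Near multiperfect numbers: the two analytic blocks EXF, PNF (used for LW)
-/

set_option autoImplicit false

namespace Pool.Agent.Work.MP_495a89_nm

open Finset ArithmeticFunction
open Pool.Agent.Work.MP_b0c12c_nt.Itf2 (ZF)
open Pool.Agent.Work.MP_b0c12c_nt.Assem (wt)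

/-- divisor of `F` times a squarefree number -/
def Adm (F Q : ℕ) : Prop := ∃ Q' : ℕ, Squarefree Q' ∧ Q ∣ F * Q'

/-- as `MP_b0c12c_nt_shift.Good`, with `Adm F Q` in place of `Squarefree Q` -/
def GoodF (F : ℕ) (κ : ℝ) (K z p0 : ℕ) : Prop :=
  (p0 = 0 ∨ (p0.Prime ∧ K < p0)) ∧
    ∀ (Q : ℕ) [NeZero Q], Adm F Q → (Q : ℝ) ≤ Real.exp (3 / 2 * z) → ¬ p0 ∣ Q →
      ∀ χ : DirichletCharacter ℂ Q, χ ≠ 1 →
        ZF χ (1 - (3 * (z : ℝ)) ^ (-(1 + κ))) ((z : ℝ) + 3)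

/-- Block EXF. At most one exceptional prime. -/
def Stmt_EXF : Prop :=
  ∀ F : ℕ, 1 ≤ F → ∀ κ : ℝ, 0 < κ → ∀ K : ℕ, ∃ z0 : ℕ, ∀ z : ℕ, z0 ≤ z →
    ∃ p0 : ℕ, GoodF F κ K z p0

/-- Block PNF. Prime number theorem for one class, Gaussian weight. -/
def Stmt_PNF : Prop :=
  ∀ F : ℕ, 1 ≤ F → ∀ κ B τ : ℝ, 0 < κ → 0 < τ → τ ≤ 1 → ∀ K : ℕ, ∃ z0 : ℕ, ∀ z : ℕ, z0 ≤ z →
    ∀ p0 : ℕ, GoodF F (κ / 2) K z p0 →
    ∀ Q : ℕ, 1 ≤ Q → Adm F Q → (Q : ℝ) ≤ Real.exp (3 / 2 * z) → ¬ p0 ∣ Q →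
      ∀ c : ℕ, c.Coprime Q →
      ∀ l : ℝ, (z : ℝ) ^ (1 + κ) / 2 ≤ l → l ≤ 2 * (z : ℝ) ^ B →
        (Summable fun n : ℕ => Λ n * wt τ (Real.exp l) n) ∧
        |∑' n : ℕ, (if n ≡ c [MOD Q] then Λ n * wt τ (Real.exp l) n else 0) -
            (∑' n : ℕ, Λ n * wt τ (Real.exp l) n) / Q.totient| ≤
          (z : ℝ)⁻¹ * Real.exp l / Q.totient

end Pool.Agent.Work.MP_495a89_nm
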