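import Pool.Agent.Work.MP_b0c12c_nt_shift.EX
import Pool.Agent.Work.MP_495a89_nm.InterfaceW

/-!
# Block EXF: at most one exceptional prime (moduli dividing `F` times a squarefree number)
-/

set_option autoImplicit false

namespace Pool.Agent.Work.MP_495a89_nm

open Filter Finset DirichletCharacter
open scoped Topology
open Pool.Agent.Work.MP_b0c12c_nt.Itf2 (ZF ZeroFree)
open Pool.Agent.Work.MP_b0c12c_nt.Exc

namespace EXFaux

/-- a divisor of `F` times a squarefree number with small primes only -/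
theorem dvd_of_small {F Q' d K : ℕ} (hsq : Squarefree Q') (hd : d ∣ F * Q')
    (hK : ∀ p : ℕ, p.Prime → p ∣ d → p ≤ K) : d ∣ F * primorial K := by
  obtain ⟨r, hr⟩ := Nat.gcd_dvd_left Q' (primorial K)
  have hcop : Nat.Coprime d r := by
    rw [Nat.coprime_iff_gcd_eq_one]
    by_contra hne
    obtain ⟨p, hp, hpd⟩ := Nat.exists_prime_and_dvd hne
    have hpd1 : p ∣ d := hpd.trans (Nat.gcd_dvd_left _ _)
    have hpr : p ∣ r := hpd.trans (Nat.gcd_dvd_right _ _)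
    have hpQ : p ∣ Q' := hr ▸ hpr.mul_left _
    have hpK : p ∣ primorial K := by
      unfold primorial
      apply Finset.dvd_prod_of_mem
      rw [Finset.mem_filter, Finset.mem_range]
      exact ⟨Nat.lt_succ_of_le (hK p hp hpd1), hp⟩
    have hpg : p ∣ Nat.gcd Q' (primorial K) := Nat.dvd_gcd hpQ hpK
    have h2 : p * p ∣ Q' := by
      rw [hr]
      exact mul_dvd_mul hpg hpr
    exact hp.one_lt.ne' (Nat.isUnit_iff.1 (hsq p h2))
  have h1 : d ∣ F * Nat.gcd Q' (primorial K) * r := by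
    rw [mul_assoc, ← hr]
    exact hd
  exact (hcop.dvd_of_dvd_mul_right h1).trans (mul_dvd_mul_left _ (Nat.gcd_dvd_right _ _))

end EXFaux

/-- Block EXF. -/
theorem stmt_EXF : Stmt_EXF := by
  intro F hF κ hκ K
  obtain ⟨M0, hM0⟩ := Pool.Agent.Work.MP_b0c12c_nt_helper70.zeroFree (κ / 2) (by linarith)
  have : NeZero (F * primorial K) :=
    ⟨Nat.mul_ne_zero (by omega) (primorial_ne_zero K)⟩
  obtain ⟨δ, hδ, hδ'⟩ := no_zero_near_one (F * primorial K)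
  obtain ⟨z0, hz0⟩ := eventually_atTop.1
    (Pool.Agent.Work.MP_b0c12c_nt_shift.EXaux.ev κ hκ M0 δ hδ)
  refine ⟨z0, fun z hz => ?_⟩
  obtain ⟨hN, hwδ, hw2⟩ := hz0 z hz
  -- consequence of the zero free region
  have key : ∀ (N : ℕ) [NeZero N], (N : ℝ) ≤ Real.exp (3 * z) →
      ∃ χ₁ : DirichletCharacter ℂ N, ∀ χ : DirichletCharacter ℂ N, χ ≠ 1 →
      ∀ s : ℂ, 1 - (3 * (z : ℝ)) ^ (-(1 + κ)) ≤ s.re → |s.im| ≤ (z : ℝ) + 3 →
        χ.LFunction s = 0 → χ = χ₁ ∧ s.im = 0 := by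
    intro N _ hNe
    have hN0 : 1 ≤ N := Nat.one_le_iff_ne_zero.2 (NeZero.ne N)
    have e5 : ((z : ℝ) + 3 + 2) = (z : ℝ) + 5 := by ring
    have hM := hM0 N ((z : ℝ) + 3) (by have := Nat.cast_nonneg (α := ℝ) z; linarith)
      (by rw [e5]; exact (hN N hN0 hNe).1)
    rw [e5] at hM
    obtain ⟨χ₁, hχ₁⟩ := hM
    refine ⟨χ₁, fun χ hχ s hs1 hs2 hs3 => ?_⟩
    have := hχ₁ χ hχ s (by linarith [(hN N hN0 hNe).2]) hs2 hs3
    exact ⟨this.1, this.2.2⟩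
  by_cases hex : ∃ (Q : ℕ) (_ : NeZero Q), Adm F Q ∧ (Q : ℝ) ≤ Real.exp (3 / 2 * z) ∧
      ∃ χ : DirichletCharacter ℂ Q, χ ≠ 1 ∧ ∃ s : ℂ, 1 - (3 * (z : ℝ)) ^ (-(1 + κ)) ≤ s.re ∧
      |s.im| ≤ (z : ℝ) + 3 ∧ χ.LFunction s = 0
  · obtain ⟨Q, hQ0, hQsq, hQe, χ, hχ, s, hs1, hs2, hs3⟩ := hex
    have hle : Real.exp (3 / 2 * z) ≤ Real.exp (3 * z) := by
      apply Real.exp_le_exp.2
      have := Nat.cast_nonneg (α := ℝ) z
      linarith
    obtain ⟨χ', hχ'⟩ := key Q (hQe.trans hle)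
    have e3 := (hχ' χ hχ s hs1 hs2 hs3).2
    have hspos : 0 < s.re := by linarith
    have hse : s = ((s.re : ℝ) : ℂ) := by
      apply Complex.ext
      · simp
      · simp [e3]
    have hprime : ∃ p : ℕ, p.Prime ∧ p ∣ χ.conductor ∧ K < p := by
      by_contra hcon
      push Not at hcon
      have hd1 : χ.conductor ∣ Q := χ.conductor_dvd_level
      have hd2 : χ.conductor ∣ F * primorial K := by
        obtain ⟨Q', hQ'sq, hQQ'⟩ := hQsq
        exact EXFaux.dvd_of_small hQ'sq (hd1.trans hQQ') hcon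
      obtain ⟨hdvd, ψ, hψ⟩ := (mem_conductorSet_iff_conductor_dvd χ hd1).2 dvd_rfl
      have : NeZero χ.conductor := ⟨fun h => (NeZero.ne Q) (by rw [h] at hd1; exact Nat.eq_zero_of_zero_dvd hd1)⟩
      have hψ1 : ψ ≠ 1 := by
        rintro rfl
        exact hχ (by rw [hψ, map_one])
      rw [hψ, lift_zero_iff hdvd ψ hψ1 hspos] at hs3
      have hs4 := (lift_zero_iff hd2 ψ hψ1 hspos).2 hs3
      rw [hse] at hs4
      refine hδ' (changeLevel hd2 ψ) ?_ s.re (by linarith) hs4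
      rw [Ne, changeLevel_eq_one_iff]
      exact hψ1
    obtain ⟨p, hp, hpd, hpK⟩ := hprime
    refine ⟨p, Or.inr ⟨hp, hpK⟩, ?_⟩
    intro Q' hQ'0 hQ'sq hQ'e hpQ' φ hφ t ht1 ht2 ht3
    have htpos : 0 < t.re := by linarith
    have hQQ : Q ∣ Nat.lcm Q Q' := Nat.dvd_lcm_left _ _
    have hQQ' : Q' ∣ Nat.lcm Q Q' := Nat.dvd_lcm_right _ _
    have : NeZero (Nat.lcm Q Q') := ⟨Nat.lcm_ne_zero (NeZero.ne Q) (NeZero.ne Q')⟩
    have hlcm : ((Nat.lcm Q Q' : ℕ) : ℝ) ≤ Real.exp (3 * z) := by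
      have h1 : Nat.lcm Q Q' ≤ Q * Q' := Nat.lcm_le_mul (Nat.pos_of_ne_zero (NeZero.ne Q))
        (Nat.pos_of_ne_zero (NeZero.ne Q'))
      calc ((Nat.lcm Q Q' : ℕ) : ℝ) ≤ ((Q * Q' : ℕ) : ℝ) := by exact_mod_cast h1
        _ = (Q : ℝ) * Q' := by push_cast; ring
        _ ≤ Real.exp (3 / 2 * z) * Real.exp (3 / 2 * z) := by gcongr
        _ = Real.exp (3 * z) := by rw [← Real.exp_add]; congr 1; ring
    obtain ⟨χ₁, hχ₁⟩ := key (Nat.lcm Q Q') hlcm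
    have f1 := (hχ₁ (changeLevel hQQ χ) (by rw [Ne, changeLevel_eq_one_iff]; exact hχ) s hs1 hs2
      ((lift_zero_iff hQQ χ hχ hspos).2 hs3)).1
    have f2 := (hχ₁ (changeLevel hQQ' φ) (by rw [Ne, changeLevel_eq_one_iff]; exact hφ) t ht1 ht2
      ((lift_zero_iff hQQ' φ hφ htpos).2 ht3)).1
    have hcond : χ.conductor = φ.conductor := by
      rw [← conductor_changeLevel χ hQQ, f1, ← f2, conductor_changeLevel]
    exact hpQ' ((hcond ▸ hpd).trans φ.conductor_dvd_level)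
  · refine ⟨0, Or.inl rfl, ?_⟩
    intro Q hQ0 hQsq hQe _ χ hχ s hs1 hs2 hs3
    exact hex ⟨Q, hQ0, hQsq, hQe, χ, hχ, s, hs1, hs2, hs3⟩

end Pool.Agent.Work.MP_495a89_nm
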