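import Pool.Agent.Work.MP_495a89_nm.LW

/-!
Block FN: the theorem from the blocks MS, CO, TR, DV, QS, LW.
-/

set_option autoImplicit false

namespace Pool.Agent.Work.MP_495a89_nm

open Finset Filter

namespace FNaux

/-- the primes dividing the modulus -/
theorem prime_le {F Z p0 p : ℕ} (hF : 1 ≤ F) (hp : p.Prime) (h : p ∣ QQ F Z p0) :
    p ≤ max F Z := by
  rcases (Nat.Prime.dvd_mul hp).1 h with h | h
  · exact (Nat.le_of_dvd (by omega) h).trans (le_max_left _ _)
  · obtain ⟨r, hr, hpr⟩ := (Prime.dvd_finsetProd_iff hp.prime _).1 h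
    rw [Finset.mem_erase, Finset.mem_filter, Finset.mem_Icc] at hr
    rw [(Nat.prime_dvd_prime_iff_eq hp hr.2.2).1 hpr]
    exact hr.2.1.2.trans (le_max_right _ _)

/-- two inequalities for large `x` -/
theorem large_x (C c δ : ℝ) (hc : 0 < c) (hδ : 0 < δ) (m : ℕ) : ∃ X0 : ℕ, ∀ x : ℕ, X0 ≤ x →
    C * (1 + Real.log x) ^ m ≤ c * (x : ℝ) ^ δ ∧ Real.sqrt x * Real.log x ≤ c * x ∧
      1 ≤ Real.log x := by
  have h1 : ∀ᶠ x : ℝ in atTop, |C| * (2 * Real.log x) ^ m ≤ c * x ^ δ := by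
    have h2 := isLittleO_log_rpow_rpow_atTop (m : ℝ) hδ
    have h3 : 0 < c / ((|C| + 1) * 2 ^ m) := by positivity
    filter_upwards [h2.def h3, eventually_ge_atTop 1] with x hx hx1
    have hlog : 0 ≤ Real.log x := Real.log_nonneg hx1
    have hxδ : 0 < x ^ δ := Real.rpow_pos_of_pos (by linarith) _
    rw [Real.rpow_natCast, Real.norm_of_nonneg (by positivity), Real.norm_of_nonneg hxδ.le] at hx
    calc |C| * (2 * Real.log x) ^ m = (|C| * 2 ^ m) * Real.log x ^ m := by rw [mul_pow]; ring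
      _ ≤ ((|C| + 1) * 2 ^ m) * Real.log x ^ m := by gcongr; linarith
      _ ≤ ((|C| + 1) * 2 ^ m) * (c / ((|C| + 1) * 2 ^ m) * x ^ δ) := by gcongr
      _ = c * x ^ δ := by field_simp
  have h4 : ∀ᶠ x : ℝ in atTop, Real.sqrt x * Real.log x ≤ c * x := by
    have h2 := isLittleO_log_rpow_atTop (show (0 : ℝ) < 1 / 2 by norm_num)
    filter_upwards [h2.def hc, eventually_ge_atTop 1] with x hx hx1
    have hlog : 0 ≤ Real.log x := Real.log_nonneg hx1
    rw [Real.norm_of_nonneg hlog, Real.norm_of_nonneg (by positivity), ← Real.sqrt_eq_rpow] at hx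
    calc Real.sqrt x * Real.log x ≤ Real.sqrt x * (c * Real.sqrt x) := by gcongr
      _ = c * (Real.sqrt x * Real.sqrt x) := by ring
      _ = c * x := by rw [Real.mul_self_sqrt (by linarith)]
  have h5 := tendsto_natCast_atTop_atTop.eventually
    ((h1.and h4).and (Real.tendsto_log_atTop.eventually_ge_atTop 1))
  obtain ⟨X0, hX0⟩ := eventually_atTop.1 h5
  refine ⟨X0, fun x hx => ?_⟩
  obtain ⟨⟨h6, h7⟩, h8⟩ := hX0 x hx
  refine ⟨le_trans ?_ h6, h7, h8⟩
  calc C * (1 + Real.log x) ^ m ≤ |C| * (1 + Real.log x) ^ m := by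
        gcongr; exact le_abs_self C
    _ ≤ |C| * (2 * Real.log x) ^ m := by gcongr; linarith

end FNaux

open FNaux LWaux

theorem stmt_FN (hMS : Stmt_MS) (hCO : Stmt_CO) (hTR : Stmt_TR) (hDV : Stmt_DV) (hQS : Stmt_QS)
    (hLW : Stmt_LW) : Stmt_FN := by
  classical
  intro ε₀ hε₀ L N
  set ε := min ε₀ 1 with hεdef
  have hε : 0 < ε := lt_min hε₀ one_pos
  have hε1 : ε ≤ 1 := min_le_right _ _
  have hεε : ε ≤ ε₀ := min_le_left _ _
  obtain ⟨F, K, Z0, hF, hQS⟩ := hQS (ε / 4) (by linarith)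
  obtain ⟨c, hc, Z1, hLW⟩ := hLW (ε / 8) (by linarith) (by linarith) F (max K F) hF
  obtain ⟨δ1, hδ1, x1, hMS⟩ := hMS L (1 / 2) (c / 4) (by norm_num) (by linarith)
  obtain ⟨C, hC, hCO⟩ := hCO L
  set κ := ε / 8 with hκdef
  have hκ : 0 < κ := by positivity
  set δ := min δ1 (1 / 4) with hδdef
  have hδ : 0 < δ := lt_min hδ1 (by norm_num)
  have hδδ : δ ≤ δ1 := min_le_left _ _
  have hδ4 : δ ≤ 1 / 4 := min_le_right _ _
  obtain ⟨X0, hX0⟩ := large_x C (c / 8) δ (by linarith) hδ (3 * L + 4)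
  set A : ℝ := 4 ^ L + 1 with hA
  have hA1 : 1 ≤ A := by rw [hA]; have : (0 : ℝ) < 4 ^ L := by positivity
                         linarith
  have hcast : Tendsto (fun Z : ℕ => (Z : ℝ)) atTop atTop := tendsto_natCast_atTop_atTop
  have ev : ∀ᶠ Z : ℕ in atTop, (100 ≤ Z ∧ N ≤ Z ∧ Z0 ≤ Z ∧ Z1 ≤ Z ∧ x1 ≤ Z ∧ X0 ≤ Z) ∧
      max (2 / δ) 2 ≤ (Z : ℝ) ^ κ ∧ (F : ℝ) ≤ Real.exp (1 / 10 * Z) ∧
      Real.log A ≤ ε / 2 * Real.log Z := by
    have e3 : Tendsto (fun Z : ℕ => Real.exp (1 / 10 * (Z : ℝ))) atTop atTop :=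
      Real.tendsto_exp_atTop.comp (Tendsto.const_mul_atTop (by norm_num) hcast)
    have e4 : Tendsto (fun Z : ℕ => ε / 2 * Real.log (Z : ℝ)) atTop atTop :=
      Tendsto.const_mul_atTop (by linarith) (Real.tendsto_log_atTop.comp hcast)
    filter_upwards [eventually_ge_atTop 100, eventually_ge_atTop N, eventually_ge_atTop Z0,
      eventually_ge_atTop Z1, eventually_ge_atTop x1, eventually_ge_atTop X0,
      ((tendsto_rpow_atTop hκ).comp hcast).eventually_ge_atTop (max (2 / δ) 2),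
      e3.eventually_ge_atTop (F : ℝ), e4.eventually_ge_atTop (Real.log A)]
      with Z a1 a2 a3 a4 a5 a6 a7 a8 a9
    exact ⟨⟨a1, a2, a3, a4, a5, a6⟩, a7, a8, a9⟩
  obtain ⟨Z, ⟨hZ100, hZN, hZ0, hZ1, hZx1, hZX0⟩, hZκ, hZF, hZA⟩ := ev.exists
  have hZr : (100 : ℝ) ≤ Z := by exact_mod_cast hZ100
  have hZp : (0 : ℝ) < Z := by linarith
  obtain ⟨p0, hp0, hLW⟩ := hLW Z hZ1
  have hp0F : p0 = 0 ∨ (p0.Prime ∧ F < p0) :=
    hp0.imp_right fun h => ⟨h.1, (le_max_right _ _).trans_lt h.2⟩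
  have hp0K : p0 = 0 ∨ (p0.Prime ∧ K < p0) :=
    hp0.imp_right fun h => ⟨h.1, (le_max_left _ _).trans_lt h.2⟩
  obtain ⟨hQ1, -, -, hQle⟩ := Q_facts (Z := Z) hF hp0F
  have hQS' := hQS Z p0 hZ0 hp0K
  have hprime : ∀ p : ℕ, p.Prime → p ∣ QQ F Z p0 → p ≤ max F Z := fun p hp h => prime_le hF hp h
  set Q := QQ F Z p0 with hQdef
  -- the size of x
  have hZpow : (Z : ℝ) ^ (1 + κ) = Z * (Z : ℝ) ^ κ := by rw [Real.rpow_add hZp, Real.rpow_one]
  have hZκ2 : 2 ≤ (Z : ℝ) ^ κ := (le_max_right _ _).trans hZκ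
  have hZκδ : 2 / δ ≤ (Z : ℝ) ^ κ := (le_max_left _ _).trans hZκ
  set T := (Z : ℝ) ^ (1 + κ) with hT
  have hTZ : 2 * (Z : ℝ) ≤ T := by rw [hZpow]; nlinarith
  set x := ⌈Real.exp T⌉₊ with hxdef
  have hxT : Real.exp T ≤ x := Nat.le_ceil _
  have hxT2 : (x : ℝ) ≤ Real.exp (T + 1) := by
    have h1 : (x : ℝ) < Real.exp T + 1 := Nat.ceil_lt_add_one (Real.exp_pos _).le
    have h2 : (1 : ℝ) ≤ Real.exp T := Real.one_le_exp (by linarith)
    rw [Real.exp_add]
    have h3 := Real.exp_one_gt_d9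
    nlinarith
  have hxp : (0 : ℝ) < x := (Real.exp_pos T).trans_le hxT
  have hlx1 : T ≤ Real.log x := by rw [Real.le_log_iff_exp_le hxp]; exact hxT
  have hlx2 : Real.log x ≤ T + 1 := by
    rw [Real.log_le_iff_le_exp hxp]; exact hxT2
  have hlx3 : Real.log x ≤ (Z : ℝ) ^ (1 + 2 * κ) := by
    have h1 : (Z : ℝ) ^ (1 + 2 * κ) = T * (Z : ℝ) ^ κ := by
      rw [hT, ← Real.rpow_add hZp]; congr 1; ring
    rw [h1]
    nlinarith
  have hxZ : Z ≤ x := by
    have h1 : (Z : ℝ) ≤ x := by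
      have := Real.add_one_le_exp T
      linarith
    exact_mod_cast h1
  have hlx0 : 0 < Real.log x := by linarith
  obtain ⟨hX1, hX2, hX3⟩ := hX0 x (hZX0.trans hxZ)
  -- x ^ δ
  have hxδ : (x : ℝ) ^ δ = Real.exp (δ * Real.log x) := by
    rw [Real.rpow_def_of_pos hxp, mul_comm]
  have hδlog : 2 * (Z : ℝ) ≤ δ * Real.log x := by
    have h1 : 2 ≤ δ * (Z : ℝ) ^ κ := by
      rw [div_le_iff₀ hδ] at hZκδ
      linarith
    calc 2 * (Z : ℝ) ≤ (δ * (Z : ℝ) ^ κ) * Z := by nlinarith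
      _ = δ * T := by rw [hZpow]; ring
      _ ≤ δ * Real.log x := by gcongr
  have hexp2Z : Real.exp (2 * Z) ≤ (x : ℝ) ^ δ := by
    rw [hxδ]; exact Real.exp_le_exp.2 hδlog
  have hQδ : (Q : ℝ) ≤ (x : ℝ) ^ δ := by
    refine (hQle.trans ?_).trans hexp2Z
    have h1 : (4 : ℝ) ^ Z = Real.exp (Real.log 4 * Z) := by
      rw [mul_comm, Real.exp_nat_mul, Real.exp_log (by norm_num)]
    have hl4 : Real.log 4 < 1.4 := by
      have h1 : Real.log 4 = 2 * Real.log 2 := by
        rw [show (4 : ℝ) = 2 ^ 2 by norm_num, Real.log_pow]; norm_num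
      have := Real.log_two_lt_d9
      rw [h1]; linarith
    rw [h1]
    calc (F : ℝ) * Real.exp (Real.log 4 * Z) ≤ Real.exp (1 / 10 * Z) * Real.exp (Real.log 4 * Z) := by
          gcongr
      _ = Real.exp ((1 / 10 + Real.log 4) * Z) := by rw [← Real.exp_add]; ring_nf
      _ ≤ Real.exp (2 * Z) := by
          apply Real.exp_le_exp.2
          apply mul_le_mul_of_nonneg_right _ hZp.le
          linarith
  set z := ⌊(x : ℝ) ^ δ⌋₊ with hz
  have hzle : (z : ℝ) ≤ (x : ℝ) ^ δ := Nat.floor_le (by positivity)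
  have hzge : (x : ℝ) ^ δ < z + 1 := Nat.lt_floor_add_one _
  have h2Z : 2 * (Z : ℝ) + 1 ≤ (x : ℝ) ^ δ := (Real.add_one_le_exp _).trans hexp2Z
  have hzhalf : (x : ℝ) ^ δ / 2 ≤ z := by linarith
  have hZz : Z ≤ z := by
    apply Nat.le_floor
    linarith
  have hFz : F ≤ z := by
    apply Nat.le_floor
    refine (hZF.trans ?_).trans hexp2Z
    apply Real.exp_le_exp.2
    linarith
  have hprimez : ∀ p : ℕ, p.Prime → p ∣ Q → p ≤ z := fun p hp h =>
    (hprime p hp h).trans (max_le hFz hZz)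
  have hx2 : 2 ≤ x := by omega
  have hz3 : 3 ≤ z := by omega
  have hphi : (0 : ℝ) < Q.totient := by exact_mod_cast Nat.totient_pos.2 (by omega)
  have hphiQ : (Q.totient : ℝ) ≤ Q := by exact_mod_cast Nat.totient_le Q
  have hQr : (0 : ℝ) < Q := by exact_mod_cast hQ1
  have hzr : (0 : ℝ) < z := by
    have : 0 < z := by omega
    exact_mod_cast this
  -- the counts
  have hcnt := hLW x hlx1 hlx3
  have hx1δ : (x : ℝ) ^ δ ≤ (x : ℝ) ^ δ1 :=
    Real.rpow_le_rpow_of_exponent_le (by exact_mod_cast (by omega : 1 ≤ x)) hδδ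
  have hbad1 := hMS x (hZx1.trans hxZ) z Q hQ1 (hQδ.trans hx1δ) (hzle.trans hx1δ) hprimez
  have hbad2 := hCO x z Q hx2 hz3 hQ1 hprimez
  set B1 := (PA x Q).filter fun q => mass z L q < (L + 1 - 1 / 2) * Real.log x with hB1
  set B2 := (PA x Q).filter fun q => ∃ p ∈ Desc z L q, bad z L p with hB2
  set B3 := (PA x Q).filter fun q => q ≤ z with hB3
  have hbad2' : (B2.card : ℝ) * Real.log x ≤ c / 4 * x / Q.totient := by
    have h1 : (B2.card : ℝ) * Real.log x * (Q * z) ≤ c / 4 * x / Q.totient * (Q * z) := by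
      calc (B2.card : ℝ) * Real.log x * (Q * z) = ((B2.card : ℝ) * (Q * z)) * Real.log x := by ring
        _ ≤ (C * x * (1 + Real.log x) ^ (3 * L + 3)) * (1 + Real.log x) := by
            apply mul_le_mul hbad2 (by linarith) hlx0.le (by positivity)
        _ = (C * (1 + Real.log x) ^ (3 * L + 4)) * x := by ring
        _ ≤ (c / 8 * (x : ℝ) ^ δ) * x := by gcongr
        _ ≤ c / 4 * z * x := by
            have : c / 8 * (x : ℝ) ^ δ ≤ c / 4 * z := by nlinarith
            gcongr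
        _ = c / 4 * x / Q * (Q * z) := by field_simp
        _ ≤ c / 4 * x / Q.totient * (Q * z) := by gcongr
    exact le_of_mul_le_mul_right h1 (by positivity)
  have hbad3 : (B3.card : ℝ) * Real.log x ≤ c / 8 * x / Q.totient := by
    have h1 : B3.card ≤ z := by
      calc B3.card ≤ (Icc 1 z).card := by
            apply Finset.card_le_card
            intro q hq
            simp only [hB3, PA, Finset.mem_filter, Finset.mem_Icc] at hq ⊢
            exact ⟨hq.1.1.1, hq.2⟩
        _ = z := by simp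
    have h2 : (B3.card : ℝ) ≤ z := by exact_mod_cast h1
    rw [le_div_iff₀ hphi]
    calc (B3.card : ℝ) * Real.log x * Q.totient ≤ (x : ℝ) ^ δ * Real.log x * (x : ℝ) ^ δ := by
          have h3 : (B3.card : ℝ) ≤ (x : ℝ) ^ δ := h2.trans hzle
          have h4 : (Q.totient : ℝ) ≤ (x : ℝ) ^ δ := hphiQ.trans hQδ
          gcongr
      _ = (x : ℝ) ^ (δ + δ) * Real.log x := by rw [Real.rpow_add hxp]; ring
      _ ≤ Real.sqrt x * Real.log x := by
          rw [Real.sqrt_eq_rpow]
          have h5 : (x : ℝ) ^ (δ + δ) ≤ (x : ℝ) ^ ((1 : ℝ) / 2) :=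
            Real.rpow_le_rpow_of_exponent_le (by exact_mod_cast (by omega : 1 ≤ x)) (by linarith)
          gcongr
      _ ≤ c / 8 * x := hX2
  -- choose q
  have hex : ∃ q ∈ PA x Q, q ∉ B1 ∧ q ∉ B2 ∧ q ∉ B3 := by
    by_contra hcon
    push Not at hcon
    have hsub : PA x Q ⊆ B1 ∪ (B2 ∪ B3) := by
      intro q hq
      rw [Finset.mem_union, Finset.mem_union]
      by_cases h1 : q ∈ B1
      · exact Or.inl h1
      · by_cases h2 : q ∈ B2
        · exact Or.inr (Or.inl h2)
        · exact Or.inr (Or.inr (hcon q hq h1 h2))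
    have h1 : ((PA x Q).card : ℝ) ≤ B1.card + (B2.card + B3.card) := by
      have := (Finset.card_le_card hsub).trans ((Finset.card_union_le _ _).trans
        (Nat.add_le_add_left (Finset.card_union_le _ _) _))
      exact_mod_cast this
    have h2 : ((PA x Q).card : ℝ) * Real.log x ≤
        c / 4 * x / Q.totient + (c / 4 * x / Q.totient + c / 8 * x / Q.totient) := by
      calc ((PA x Q).card : ℝ) * Real.log x ≤ (B1.card + (B2.card + B3.card)) * Real.log x := by
            gcongr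
        _ = B1.card * Real.log x + (B2.card * Real.log x + B3.card * Real.log x) := by ring
        _ ≤ _ := add_le_add hbad1 (add_le_add hbad2' hbad3)
    have h3 : c * x / Q.totient = c / 4 * x / Q.totient +
        (c / 4 * x / Q.totient + c / 8 * x / Q.totient) + 3 * (c / 8 * x / Q.totient) := by ring
    have h4 : 0 < c / 8 * x / Q.totient := by positivity
    linarith
  obtain ⟨q, hq, hqB1, hqB2, hqB3⟩ := hex
  have hqPA := hq
  simp only [PA, Finset.mem_filter, Finset.mem_Icc] at hqPA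
  obtain ⟨⟨hq1, hqx⟩, hqp, hQq⟩ := hqPA
  have hzq : z < q := by
    by_contra h
    push Not at h
    exact hqB3 (Finset.mem_filter.2 ⟨hq, h⟩)
  have hmass : (L + 1 - 1 / 2) * Real.log x ≤ mass z L q := by
    by_contra h
    push Not at h
    exact hqB1 (Finset.mem_filter.2 ⟨hq, h⟩)
  have hnobad : ∀ p ∈ Desc z L q, ¬ bad z L p := by
    intro p hp hb
    exact hqB2 (Finset.mem_filter.2 ⟨hq, p, hp, hb⟩)
  have htr := hTR z L q hz3 hqp hzq hnobad
  obtain ⟨n, hn1, hQn, hqn, hqn2, hdiv, hsig, hlogn, hup⟩ := hDV z L q Q hz3 hqp hzq hQ1 hQq hprimez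
  have hq0 : (0 : ℝ) < q := by exact_mod_cast hqp.pos
  have hlq : Real.log q ≤ Real.log x := Real.log_le_log hq0 (by exact_mod_cast hqx)
  have hlq0 : 0 ≤ Real.log q := Real.log_natCast_nonneg q
  have hlQ0 : 0 ≤ Real.log Q := Real.log_natCast_nonneg Q
  have hn0 : (0 : ℝ) < n := by exact_mod_cast hn1
  have hnq : q ≤ n := Nat.le_of_dvd (by omega) hqn
  refine ⟨n, q, by omega, hqp, hqn, hqn2, ?_, hdiv, ?_⟩
  · -- q ^ L ≤ n
    have h1 : (L : ℝ) * Real.log q ≤ Real.log n := by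
      rw [hlogn]
      have h2 : (L : ℝ) * Real.log q ≤ L * Real.log x := by gcongr
      have h3 : (L + 1 - 1 / 2) * Real.log x = L * Real.log x + 1 / 2 * Real.log x := by ring
      rw [h3] at hmass
      linarith
    have h2 : ((q ^ L : ℕ) : ℝ) ≤ n := by
      push_cast
      rw [← Real.log_le_log_iff (by positivity) hn0, Real.log_pow]
      exact h1
    exact_mod_cast h2
  · -- the size of sigma
    have hlogQ : Real.log Q ≤ Real.log x := by
      have h1 := Real.log_le_log hQr hQδ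
      rw [Real.log_rpow hxp] at h1
      nlinarith
    have hln : Real.log n ≤ A * Real.log x := by
      rw [hlogn, hA]
      have h1 : (4 : ℝ) ^ L * Real.log q ≤ 4 ^ L * Real.log x := by gcongr
      linarith
    have hlnpos : 1 < Real.log n := by
      have h1 : (100 : ℝ) ≤ n := by exact_mod_cast (by omega : 100 ≤ n)
      have h2 : Real.log (Real.exp 1) < Real.log n := by
        apply Real.log_lt_log (Real.exp_pos 1)
        have := Real.exp_one_lt_d9
        linarith
      rwa [Real.log_exp] at h2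
    have hlln : Real.log (Real.log n) ≤ Real.log A + (1 + 2 * κ) * Real.log Z := by
      calc Real.log (Real.log n) ≤ Real.log (A * Real.log x) :=
            Real.log_le_log (by linarith) hln
        _ = Real.log A + Real.log (Real.log x) := Real.log_mul (by linarith) hlx0.ne'
        _ ≤ Real.log A + (1 + 2 * κ) * Real.log Z := by
            have h1 := Real.log_le_log hlx0 hlx3
            rw [Real.log_rpow hZp] at h1
            linarith
    have hlln0 : 0 ≤ Real.log (Real.log n) := Real.log_nonneg hlnpos.le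
    have hlZ : 0 ≤ Real.log Z := Real.log_natCast_nonneg Z
    have hkey : (1 - ε) * Real.log (Real.log n) ≤ (1 - ε / 4) * Real.log Z := by
      calc (1 - ε) * Real.log (Real.log n)
          ≤ (1 - ε) * (Real.log A + (1 + 2 * κ) * Real.log Z) :=
            mul_le_mul_of_nonneg_left hlln (by linarith)
        _ ≤ (1 - ε) * (ε / 2 * Real.log Z + (1 + 2 * κ) * Real.log Z) := by
            apply mul_le_mul_of_nonneg_left _ (by linarith)
            linarith
        _ = ((1 - ε) * (1 + ε / 4 + ε / 2)) * Real.log Z := by rw [hκdef]; ring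
        _ ≤ (1 - ε / 4) * Real.log Z := by
            apply mul_le_mul_of_nonneg_right _ hlZ
            nlinarith
    have hg := Real.exp_pos Real.eulerMascheroniConstant
    have h1 : (1 - ε₀) * Real.exp Real.eulerMascheroniConstant * n * Real.log (Real.log n) ≤
        (1 - ε) * Real.exp Real.eulerMascheroniConstant * n * Real.log (Real.log n) := by
      gcongr
    refine h1.trans ?_
    have h2 : (1 - ε) * Real.exp Real.eulerMascheroniConstant * n * Real.log (Real.log n) ≤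
        n * ((1 - ε / 4) * Real.exp Real.eulerMascheroniConstant * Real.log Z) := by
      calc (1 - ε) * Real.exp Real.eulerMascheroniConstant * n * Real.log (Real.log n)
          = (n * Real.exp Real.eulerMascheroniConstant) * ((1 - ε) * Real.log (Real.log n)) := by ring
        _ ≤ (n * Real.exp Real.eulerMascheroniConstant) * ((1 - ε / 4) * Real.log Z) := by gcongr
        _ = _ := by ring
    refine h2.trans ?_
    have h3 : (Q : ℝ) * (n * ((1 - ε / 4) * Real.exp Real.eulerMascheroniConstant * Real.log Z)) ≤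
        Q * ∑ d ∈ n.divisors, (d : ℝ) := by
      refine le_trans ?_ hsig
      calc (Q : ℝ) * (n * ((1 - ε / 4) * Real.exp Real.eulerMascheroniConstant * Real.log Z))
          = n * ((1 - ε / 4) * Real.exp Real.eulerMascheroniConstant * Real.log Z * Q) := by ring
        _ ≤ n * ∑ d ∈ Q.divisors, (d : ℝ) := by
            apply mul_le_mul_of_nonneg_left hQS' hn0.le
    exact le_of_mul_le_mul_left h3 hQr

end Pool.Agent.Work.MP_495a89_nm
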