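import Pool.Agent.Work.MP_495a89_nm.Interface

/-!
# Block HB: harmonic sum over the primes above `r` in the tree relation
-/

set_option autoImplicit false

namespace Pool.Agent.Work.MP_495a89_nm

open Finset

namespace HBaux

lemma harm (x : ℕ) : ∑ j ∈ Icc 1 x, 1 / (j : ℝ) ≤ 1 + Real.log x := by
  have h := harmonic_le_one_add_log x
  have h2 : ((harmonic x : ℚ) : ℝ) = ∑ j ∈ Icc 1 x, 1 / (j : ℝ) := by
    rw [harmonic_eq_sum_Icc]
    push_cast
    exact Finset.sum_congr rfl fun j _ => (one_div _).symm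
  rw [← h2]
  exact h

lemma inner (x p : ℕ) (hp : 2 ≤ p) :
    ∑ u ∈ (Icc 1 x).filter (fun u => p ∣ u + 1), 1 / (u : ℝ) ≤
      2 / p * (1 + Real.log x) := by
  have hp0 : (0 : ℝ) < p := by exact_mod_cast (by omega : 0 < p)
  have key : ∀ u ∈ (Icc 1 x).filter (fun u => p ∣ u + 1),
      1 / (u : ℝ) ≤ 2 / p * (1 / (((u + 1) / p : ℕ) : ℝ)) := by
    intro u hu
    rw [Finset.mem_filter, Finset.mem_Icc] at hu
    obtain ⟨⟨hu1, hux⟩, j, hj⟩ := hu
    have hj0 : 0 < j := by
      rcases Nat.eq_zero_or_pos j with h | h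
      · subst h; omega
      · exact h
    have hdiv : (u + 1) / p = j := by
      rw [hj]; exact Nat.mul_div_cancel_left j (by omega)
    rw [hdiv]
    have hj' : (0 : ℝ) < j := by exact_mod_cast hj0
    have hu' : (0 : ℝ) < u := by exact_mod_cast hu1
    have e : (u : ℝ) + 1 = p * j := by exact_mod_cast hj
    have hu1' : (1 : ℝ) ≤ u := by exact_mod_cast hu1
    rw [div_mul_div_comm, mul_one, div_le_div_iff₀ hu' (mul_pos hp0 hj')]
    nlinarith
  refine (Finset.sum_le_sum key).trans ?_
  rw [← Finset.mul_sum]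
  refine mul_le_mul_of_nonneg_left ?_ (by positivity)
  refine le_trans ?_ (harm x)
  have hinj : Set.InjOn (fun u : ℕ => (u + 1) / p)
      (((Icc 1 x).filter (fun u => p ∣ u + 1) : Finset ℕ) : Set ℕ) := by
    intro u hu v hv huv
    rw [Finset.mem_coe, Finset.mem_filter] at hu hv
    obtain ⟨_, j, hj⟩ := hu
    obtain ⟨_, k, hk⟩ := hv
    have hdiv : (u + 1) / p = j := by
      rw [hj]; exact Nat.mul_div_cancel_left j (by omega)
    have hdiv' : (v + 1) / p = k := by
      rw [hk]; exact Nat.mul_div_cancel_left k (by omega)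
    have huv' : (u + 1) / p = (v + 1) / p := huv
    rw [hdiv, hdiv'] at huv'
    subst huv'
    omega
  have himg : ∑ u ∈ (Icc 1 x).filter (fun u => p ∣ u + 1), 1 / (((u + 1) / p : ℕ) : ℝ) =
      ∑ j ∈ ((Icc 1 x).filter (fun u => p ∣ u + 1)).image (fun u : ℕ => (u + 1) / p),
        1 / (j : ℝ) := by
    rw [Finset.sum_image]
    exact fun u hu v hv h => hinj hu hv h
  rw [himg]
  refine Finset.sum_le_sum_of_subset_of_nonneg ?_ (fun j _ _ => by positivity)
  intro j hj
  rw [Finset.mem_image] at hj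
  obtain ⟨u, hu, hju⟩ := hj
  rw [Finset.mem_filter, Finset.mem_Icc] at hu
  obtain ⟨⟨hu1, hux⟩, k, hk⟩ := hu
  have hdiv : (u + 1) / p = k := by
    rw [hk]; exact Nat.mul_div_cancel_left k (by omega)
  have hjk : j = k := by rw [← hju]; exact hdiv
  subst hjk
  rw [Finset.mem_Icc]
  constructor
  · rcases Nat.eq_zero_or_pos j with h | h
    · subst h; omega
    · exact h
  · have : 2 * j ≤ p * j := Nat.mul_le_mul_right j hp
    omega

lemma child_le (x z u p : ℕ) (hz : 3 ≤ z) (hu : u.Prime) (hux : u ≤ x)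
    (hp : p ∈ ch z u) : p.Prime ∧ 2 ≤ p ∧ p ≤ x ∧ p ∣ u + 1 := by
  unfold ch at hp
  rw [Finset.mem_filter, Nat.mem_primeFactors] at hp
  obtain ⟨⟨hpp, hdvd, _⟩, hzp⟩ := hp
  refine ⟨hpp, hpp.two_le, ?_, hdvd⟩
  obtain ⟨j, hj⟩ := hdvd
  have hj2 : 2 ≤ j := by
    rcases Nat.lt_or_ge j 2 with h | h
    · exfalso
      interval_cases j
      · omega
      · rw [mul_one] at hj
        rcases hu.eq_two_or_odd with h2 | h2
        · omega
        · rcases hpp.eq_two_or_odd with h3 | h3
          · omega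
          · omega
    · exact h
  have : p * 2 ≤ p * j := Nat.mul_le_mul_left p hj2
  have hx1 : 1 ≤ x := le_trans hu.one_lt.le hux
  omega

end HBaux

open HBaux in
theorem stmt_HB : Stmt_HB := by
  intro L
  induction L with
  | zero =>
    intro x z r hx hz hr
    rw [pow_zero]
    have hsub : (Icc 1 x).filter (fun u => u.Prime ∧ r ∈ Desc z 0 u) ⊆ {r} := by
      intro u hu
      rw [Finset.mem_filter] at hu
      have h := hu.2.2
      simp only [Desc, Finset.mem_singleton] at h
      rw [Finset.mem_singleton]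
      exact h.symm
    refine (Finset.sum_le_sum_of_subset_of_nonneg hsub (fun j _ _ => by positivity)).trans ?_
    rw [Finset.sum_singleton]
  | succ L ih =>
    intro x z r hx hz hr
    have hlog : 0 ≤ Real.log x := Real.log_nonneg (by exact_mod_cast hx)
    have hr0 : (0 : ℝ) < r := by exact_mod_cast (by omega : 0 < r)
    set P := (Icc 1 x).filter (fun u => u.Prime ∧ r ∈ Desc z L u) with hP
    have h1 : ∀ u ∈ Icc 1 x, (if (u.Prime ∧ r ∈ Desc z (L + 1) u) then 1 / (u : ℝ) else 0) ≤
        (if u = r then 1 / (u : ℝ) else 0) +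
          ∑ p ∈ P, (if p ∣ u + 1 then 1 / (u : ℝ) else 0) := by
      intro u hu
      have hnn : ∀ p ∈ P, (0 : ℝ) ≤ (if p ∣ u + 1 then 1 / (u : ℝ) else 0) := by
        intro p _
        split_ifs <;> positivity
      by_cases h : (u.Prime ∧ r ∈ Desc z (L + 1) u)
      · rw [if_pos h]
        by_cases hur : u = r
        · rw [if_pos hur]
          have := Finset.sum_nonneg hnn
          linarith
        · rw [if_neg hur, zero_add]
          have hmem := h.2
          simp only [Desc, Finset.mem_insert, Finset.mem_biUnion] at hmem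
          rcases hmem with hmem | ⟨p, hp, hrp⟩
          · exact absurd hmem.symm hur
          · obtain ⟨hpp, hp2, hpx, hpd⟩ := child_le x z u p hz h.1 (Finset.mem_Icc.1 hu).2 hp
            have hpP : p ∈ P := by
              rw [hP, Finset.mem_filter, Finset.mem_Icc]
              exact ⟨⟨by omega, hpx⟩, hpp, hrp⟩
            have := Finset.single_le_sum hnn hpP
            rw [if_pos hpd] at this
            exact this
      · rw [if_neg h]
        have h2 := Finset.sum_nonneg hnn
        have h3 : (0 : ℝ) ≤ (if u = r then 1 / (u : ℝ) else 0) := by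
          split_ifs <;> positivity
        linarith
    rw [Finset.sum_filter]
    refine (Finset.sum_le_sum h1).trans ?_
    rw [Finset.sum_add_distrib, Finset.sum_comm]
    have ha : ∑ u ∈ Icc 1 x, (if u = r then 1 / (u : ℝ) else 0) ≤ 1 / r := by
      rw [Finset.sum_ite_eq']
      split_ifs
      · exact le_refl _
      · positivity
    have hb : ∑ p ∈ P, ∑ u ∈ Icc 1 x, (if p ∣ u + 1 then 1 / (u : ℝ) else 0) ≤
        2 * (1 + Real.log x) * ((3 * (1 + Real.log x)) ^ L / r) := by
      have hb1 : ∀ p ∈ P, ∑ u ∈ Icc 1 x, (if p ∣ u + 1 then 1 / (u : ℝ) else 0) ≤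
          2 * (1 + Real.log x) * (1 / (p : ℝ)) := by
        intro p hp
        rw [hP, Finset.mem_filter] at hp
        have := inner x p hp.2.1.two_le
        rw [Finset.sum_filter] at this
        refine this.trans (le_of_eq ?_)
        ring
      refine (Finset.sum_le_sum hb1).trans ?_
      rw [← Finset.mul_sum]
      exact mul_le_mul_of_nonneg_left (ih x z r hx hz hr) (by positivity)
    refine (add_le_add ha hb).trans ?_
    have hpow : (1 : ℝ) ≤ (3 * (1 + Real.log x)) ^ L := one_le_pow₀ (by linarith)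
    rw [pow_succ]
    have hprod : (1 : ℝ) ≤ (1 + Real.log x) * (3 * (1 + Real.log x)) ^ L := by nlinarith
    have : 1 / (r : ℝ) + 2 * (1 + Real.log x) * ((3 * (1 + Real.log x)) ^ L / r) =
        (1 + 2 * ((1 + Real.log x) * (3 * (1 + Real.log x)) ^ L)) / r := by ring
    rw [this]
    refine div_le_div_of_nonneg_right ?_ hr0.le
    nlinarith

end Pool.Agent.Work.MP_495a89_nm
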