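import Pool.Agent.Work.MP_495a89_nm.Interface
import Pool.Agent.Work.MP_2738db_nt_V.Mert

/-!
Block LA: small prime factors.
-/

set_option autoImplicit false

namespace Pool.Agent.Work.MP_495a89_nm

open Finset

namespace LAaux

lemma PA_mul {x Q t q : ℕ} (hq : q ∈ PA x Q) (ht : t ∣ (q + 1) / Q) :
    q ∈ PA x (Q * t) := by
  unfold PA at hq ⊢
  rw [mem_filter] at hq ⊢
  refine ⟨hq.1, hq.2.1, ?_⟩
  obtain ⟨s, hs⟩ := ht
  have h1 : (q + 1) = Q * ((q + 1) / Q) := (Nat.mul_div_cancel' hq.2.2).symm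
  rw [h1, hs]
  exact ⟨s, by ring⟩

/-- Brun-Titchmarsh for a modulus `k` with `k ^ 2 ≤ x` -/
lemma card_le {C : ℝ} (hC : ∀ k x : ℕ, 1 ≤ k → 2 * k ≤ x →
    ((PA x k).card : ℝ) * Real.log (x / k) ≤ C * x / k.totient) (x k : ℕ) (hx : 4 ≤ x)
    (hk : 1 ≤ k) (hkx : k ^ 2 ≤ x) :
    ((PA x k).card : ℝ) * Real.log x ≤ 2 * (C * x / k.totient) := by
  have h2 : 2 * k ≤ x := by
    rcases Nat.lt_or_ge k 2 with h | h
    · omega
    · nlinarith
  have h3 := hC k x hk h2
  have hkR : (1 : ℝ) ≤ k := by exact_mod_cast hk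
  have hkxR : (k : ℝ) ^ 2 ≤ x := by exact_mod_cast hkx
  have hxR : (4 : ℝ) ≤ x := by exact_mod_cast hx
  have h4 : 2 * Real.log k ≤ Real.log x := by
    have := Real.log_le_log (by positivity) hkxR
    rwa [Real.log_pow] at this
  have h5 : Real.log (x / k) = Real.log x - Real.log k :=
    Real.log_div (by positivity) (by positivity)
  have h6 : Real.log x ≤ 2 * Real.log (x / k) := by rw [h5]; linarith
  calc ((PA x k).card : ℝ) * Real.log x ≤ ((PA x k).card : ℝ) * (2 * Real.log (x / k)) :=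
        mul_le_mul_of_nonneg_left h6 (Nat.cast_nonneg _)
    _ = 2 * (((PA x k).card : ℝ) * Real.log (x / k)) := by ring
    _ ≤ _ := by linarith

lemma two_div {l : ℕ} (hl : l.Prime) : (l : ℝ) ≤ 2 * l.totient := by
  rw [Nat.totient_prime hl]
  have := hl.two_le
  rw [Nat.cast_sub hl.one_le]
  have h2 : (2 : ℝ) ≤ l := by exact_mod_cast this
  push_cast
  linarith

end LAaux

open LAaux

theorem stmt_LA (hBT : Stmt_BT) : Stmt_LA := by
  obtain ⟨C, hC0, hC⟩ := hBT
  refine ⟨8 * C, by positivity, 4, ?_⟩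
  intro x hx Q y hQ hy hQx hyx
  have hxR : (4 : ℝ) ≤ x := by exact_mod_cast hx
  have hlogx : 0 ≤ Real.log x := Real.log_natCast_nonneg x
  have hQt : (0 : ℝ) < Q.totient := by exact_mod_cast Nat.totient_pos.mpr hQ
  -- exchange of the sums
  have h1 : (∑ q ∈ PA x Q, ∑ l ∈ ((q + 1) / Q).primeFactors.filter (fun l => l ≤ y), Real.log l) ≤
      ∑ l ∈ (Ioc 0 y).filter Nat.Prime, ((PA x (Q * l)).card : ℝ) * Real.log l := by
    have h2 : ∀ q ∈ PA x Q, ∑ l ∈ ((q + 1) / Q).primeFactors.filter (fun l => l ≤ y), Real.log l ≤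
        ∑ l ∈ (Ioc 0 y).filter Nat.Prime, if q ∈ PA x (Q * l) then Real.log l else 0 := by
      intro q hq
      rw [← sum_filter]
      refine sum_le_sum_of_subset_of_nonneg ?_ (fun l _ _ => Real.log_natCast_nonneg l)
      intro l hl
      rw [mem_filter, Nat.mem_primeFactors] at hl
      rw [mem_filter, mem_filter, mem_Ioc]
      exact ⟨⟨⟨hl.1.1.pos, hl.2⟩, hl.1.1⟩, PA_mul hq hl.1.2.1⟩
    refine (sum_le_sum h2).trans ?_
    rw [sum_comm]
    refine sum_le_sum fun l hl => ?_
    rw [← sum_filter, sum_const, nsmul_eq_mul]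
    refine mul_le_mul_of_nonneg_right ?_ (Real.log_natCast_nonneg l)
    exact_mod_cast card_le_card (fun q hq => (mem_filter.mp hq).2)
  have h3 : ∀ l ∈ (Ioc 0 y).filter Nat.Prime,
      ((PA x (Q * l)).card : ℝ) * Real.log l * Real.log x ≤
        (4 * C * x / Q.totient) * (Real.log l / l) := by
    intro l hl
    rw [mem_filter, mem_Ioc] at hl
    have hlp := hl.2
    have hlR : (0 : ℝ) < l := by exact_mod_cast hlp.pos
    have h4 : (Q * l) ^ 2 ≤ x := by
      have h5 : (Q * l) ^ 4 ≤ x ^ 2 := by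
        calc (Q * l) ^ 4 = Q ^ 4 * l ^ 4 := by ring
          _ ≤ x * x := Nat.mul_le_mul hQx ((Nat.pow_le_pow_left hl.1.2 4).trans hyx)
          _ = x ^ 2 := by ring
      have h6 : ((Q * l) ^ 2) ^ 2 ≤ x ^ 2 := by
        calc ((Q * l) ^ 2) ^ 2 = (Q * l) ^ 4 := by ring
          _ ≤ _ := h5
      exact (Nat.pow_le_pow_iff_left (by norm_num)).mp h6
    have h7 := card_le hC x (Q * l) hx (Nat.mul_pos hQ hlp.pos) h4
    have h8 : (Q.totient : ℝ) * (l / 2) ≤ (Q * l).totient := by
      have h9 : ((Q.totient * l.totient : ℕ) : ℝ) ≤ (Q * l).totient := by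
        exact_mod_cast Nat.totient_super_multiplicative Q l
      push_cast at h9
      have h10 := two_div hlp
      have h11 : (Q.totient : ℝ) * (l / 2) ≤ Q.totient * l.totient :=
        mul_le_mul_of_nonneg_left (by linarith) hQt.le
      linarith
    have h12 : C * x / (Q * l).totient ≤ C * x / (Q.totient * (l / 2)) :=
      div_le_div_of_nonneg_left (by positivity) (by positivity) h8
    have h13 : (0 : ℝ) ≤ Real.log l := Real.log_natCast_nonneg l
    calc ((PA x (Q * l)).card : ℝ) * Real.log l * Real.log x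
        = Real.log l * (((PA x (Q * l)).card : ℝ) * Real.log x) := by ring
      _ ≤ Real.log l * (2 * (C * x / (Q.totient * (l / 2)))) :=
          mul_le_mul_of_nonneg_left (h7.trans (by linarith)) h13
      _ = (4 * C * x / Q.totient) * (Real.log l / l) := by
          field_simp
          ring
  have h5 := Pool.Agent.Work.MP_2738db_nt_V.mertens_upper y hy
  have hly : 0 ≤ Real.log y := Real.log_natCast_nonneg y
  calc (∑ q ∈ PA x Q, ∑ l ∈ ((q + 1) / Q).primeFactors.filter (fun l => l ≤ y), Real.log l) *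
        Real.log x
      ≤ (∑ l ∈ (Ioc 0 y).filter Nat.Prime, ((PA x (Q * l)).card : ℝ) * Real.log l) *
        Real.log x := mul_le_mul_of_nonneg_right h1 hlogx
    _ = ∑ l ∈ (Ioc 0 y).filter Nat.Prime, ((PA x (Q * l)).card : ℝ) * Real.log l * Real.log x := by
        rw [sum_mul]
    _ ≤ ∑ l ∈ (Ioc 0 y).filter Nat.Prime, (4 * C * x / Q.totient) * (Real.log l / l) :=
        sum_le_sum h3
    _ = (4 * C * x / Q.totient) * ∑ l ∈ (Ioc 0 y).filter Nat.Prime, Real.log l / l := by
        rw [mul_sum]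
    _ ≤ (4 * C * x / Q.totient) * (2 * (1 + Real.log y)) :=
        mul_le_mul_of_nonneg_left (by linarith) (by positivity)
    _ = 8 * C * (1 + Real.log y) * x / Q.totient := by ring

end Pool.Agent.Work.MP_495a89_nm
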