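import Pool.Agent.Work.MP_495a89_nm.LA

/-!
Block LB: repeated prime factors.
-/

set_option autoImplicit false

namespace Pool.Agent.Work.MP_495a89_nm

open Finset

namespace LBaux

open LAaux

lemma rpow_bound : ∃ S : ℝ, 0 < S ∧ ∀ s : Finset ℕ, ∑ n ∈ s, 1 / (n : ℝ) ^ (3 / 2 : ℝ) ≤ S := by
  have hs : Summable (fun n : ℕ => 1 / (n : ℝ) ^ (3 / 2 : ℝ)) :=
    Real.summable_one_div_nat_rpow.mpr (by norm_num)
  refine ⟨∑' n : ℕ, 1 / (n : ℝ) ^ (3 / 2 : ℝ) + 1, ?_, ?_⟩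
  · have : 0 ≤ ∑' n : ℕ, 1 / (n : ℝ) ^ (3 / 2 : ℝ) := tsum_nonneg (fun n => by positivity)
    linarith
  · intro s
    have h2 := hs.sum_le_tsum s (fun n _ => by positivity)
    linarith

/-- the sum of `log n / n ^ 2` is bounded -/
lemma log_sq_le {S : ℝ} (hS : ∀ s : Finset ℕ, ∑ n ∈ s, 1 / (n : ℝ) ^ (3 / 2 : ℝ) ≤ S)
    (s : Finset ℕ) : ∑ n ∈ s, Real.log n / (n : ℝ) ^ 2 ≤ 2 * S := by
  have h1 : ∑ n ∈ s, Real.log n / (n : ℝ) ^ 2 ≤ ∑ n ∈ s, 2 * (1 / (n : ℝ) ^ (3 / 2 : ℝ)) := by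
    refine sum_le_sum fun n _ => ?_
    rcases Nat.eq_zero_or_pos n with h | h
    · subst h
      norm_num
    · have hn : (0 : ℝ) < n := by exact_mod_cast h
      have h2 : Real.log n ≤ (n : ℝ) ^ (1 / 2 : ℝ) / (1 / 2) :=
        Real.log_le_rpow_div hn.le (by norm_num)
      have h3 : (n : ℝ) ^ 2 = (n : ℝ) ^ (1 / 2 : ℝ) * (n : ℝ) ^ (3 / 2 : ℝ) := by
        rw [← Real.rpow_add hn]
        norm_num
      rw [h3, div_le_iff₀ (by positivity)]
      have h4 : (0 : ℝ) < (n : ℝ) ^ (3 / 2 : ℝ) := Real.rpow_pos_of_pos hn _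
      calc Real.log n ≤ (n : ℝ) ^ (1 / 2 : ℝ) / (1 / 2) := h2
        _ = 2 * (1 / (n : ℝ) ^ (3 / 2 : ℝ)) * ((n : ℝ) ^ (1 / 2 : ℝ) * (n : ℝ) ^ (3 / 2 : ℝ)) := by
            field_simp
  rw [← mul_sum] at h1
  linarith [hS s]

lemma geom_le (l : ℕ) (hl : 2 ≤ l) (A : ℕ) : ∑ a ∈ Icc 2 A, 1 / (l : ℝ) ^ a ≤ 2 / (l : ℝ) ^ 2 := by
  have hlR : (2 : ℝ) ≤ l := by exact_mod_cast hl
  have hr0 : (0 : ℝ) < 1 / l := by positivity
  have hr1 : 1 / (l : ℝ) ≤ 1 / 2 := one_div_le_one_div_of_le (by norm_num) hlR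
  have key : ∀ B : ℕ, ∑ a ∈ Icc 2 (B + 1), (1 / (l : ℝ)) ^ a ≤
      (1 / (l : ℝ)) ^ 2 * (2 - 2 * (1 / (l : ℝ)) ^ B) := by
    intro B
    induction B with
    | zero => simp
    | succ B ih =>
      rw [sum_Icc_succ_top (by omega)]
      have h1 : (1 / (l : ℝ)) ^ (B + 1 + 1) = (1 / (l : ℝ)) ^ 2 * (1 / (l : ℝ)) ^ B := by ring
      have h2 : 2 * (1 / (l : ℝ)) ^ (B + 1) ≤ (1 / (l : ℝ)) ^ B := by
        have h3 : (0 : ℝ) < (1 / (l : ℝ)) ^ B := pow_pos hr0 B
        calc 2 * (1 / (l : ℝ)) ^ (B + 1) = 2 * (1 / (l : ℝ)) * (1 / (l : ℝ)) ^ B := by ring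
          _ ≤ 1 * (1 / (l : ℝ)) ^ B := mul_le_mul_of_nonneg_right (by linarith) h3.le
          _ = _ := one_mul _
      have h4 : (0 : ℝ) < (1 / (l : ℝ)) ^ 2 := pow_pos hr0 2
      rw [h1]
      calc _ ≤ (1 / (l : ℝ)) ^ 2 * (2 - 2 * (1 / (l : ℝ)) ^ B) +
            (1 / (l : ℝ)) ^ 2 * (1 / (l : ℝ)) ^ B := by linarith
        _ = (1 / (l : ℝ)) ^ 2 * (2 - (1 / (l : ℝ)) ^ B) := by ring
        _ ≤ _ := mul_le_mul_of_nonneg_left (by linarith) h4.le
  have h5 : ∑ a ∈ Icc 2 A, 1 / (l : ℝ) ^ a = ∑ a ∈ Icc 2 A, (1 / (l : ℝ)) ^ a :=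
    sum_congr rfl (fun a _ => by rw [one_div_pow])
  rw [h5]
  rcases Nat.eq_zero_or_pos A with h | h
  · subst h
    rw [Icc_eq_empty (by norm_num), sum_empty]
    positivity
  · obtain ⟨B, rfl⟩ : ∃ B, A = B + 1 := ⟨A - 1, by omega⟩
    refine (key B).trans ?_
    have h3 : (0 : ℝ) < (1 / (l : ℝ)) ^ B := pow_pos hr0 B
    have h4 : (0 : ℝ) < (1 / (l : ℝ)) ^ 2 := pow_pos hr0 2
    calc (1 / (l : ℝ)) ^ 2 * (2 - 2 * (1 / (l : ℝ)) ^ B) ≤ (1 / (l : ℝ)) ^ 2 * 2 :=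
          mul_le_mul_of_nonneg_left (by linarith) h4.le
      _ = 2 / (l : ℝ) ^ 2 := by
          rw [one_div_pow]
          ring

/-- the total of the first part -/
lemma part1 {C S : ℝ} (hC0 : 0 < C) (hC : ∀ k x : ℕ, 1 ≤ k → 2 * k ≤ x →
    ((PA x k).card : ℝ) * Real.log (x / k) ≤ C * x / k.totient)
    (hS : ∀ s : Finset ℕ, ∑ n ∈ s, 1 / (n : ℝ) ^ (3 / 2 : ℝ) ≤ S)
    (x Q : ℕ) (hx : 4 ≤ x) (hQ : 1 ≤ Q) (hQx : Q ^ 4 ≤ x) :
    (∑ q ∈ PA x Q, ∑ l ∈ ((q + 1) / Q).primeFactors,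
      ∑ _a ∈ (Icc 2 (((q + 1) / Q).factorization l)).filter (fun a => l ^ (4 * a) ≤ x),
        Real.log l) * Real.log x ≤ 16 * C * S * x / Q.totient := by
  have hxR : (4 : ℝ) ≤ x := by exact_mod_cast hx
  have hlogx : 0 ≤ Real.log x := Real.log_natCast_nonneg x
  have hQt : (0 : ℝ) < Q.totient := by exact_mod_cast Nat.totient_pos.mpr hQ
  set P : Finset ℕ := (Icc 1 (x + 1)).filter Nat.Prime with hP
  have h1 : (∑ q ∈ PA x Q, ∑ l ∈ ((q + 1) / Q).primeFactors,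
      ∑ _a ∈ (Icc 2 (((q + 1) / Q).factorization l)).filter (fun a => l ^ (4 * a) ≤ x),
        Real.log l) ≤ ∑ l ∈ P, ∑ a ∈ (Icc 2 x).filter (fun a => l ^ (4 * a) ≤ x),
          ((PA x (Q * l ^ a)).card : ℝ) * Real.log l := by
    have h2 : ∀ q ∈ PA x Q, ∑ l ∈ ((q + 1) / Q).primeFactors,
        ∑ _a ∈ (Icc 2 (((q + 1) / Q).factorization l)).filter (fun a => l ^ (4 * a) ≤ x),
          Real.log l ≤
        ∑ l ∈ P, ∑ a ∈ (Icc 2 x).filter (fun a => l ^ (4 * a) ≤ x),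
          if q ∈ PA x (Q * l ^ a) then Real.log l else 0 := by
      intro q hq
      have hqx : q ≤ x := by
        unfold PA at hq
        rw [mem_filter, mem_Icc] at hq
        exact hq.1.2
      have hsub : ((q + 1) / Q).primeFactors ⊆ P := by
        intro l hl
        rw [Nat.mem_primeFactors] at hl
        rw [hP, mem_filter, mem_Icc]
        refine ⟨⟨hl.1.pos, ?_⟩, hl.1⟩
        have h3 := Nat.le_of_dvd (Nat.pos_of_ne_zero hl.2.2) hl.2.1
        have h4 : (q + 1) / Q ≤ q + 1 := Nat.div_le_self _ _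
        omega
      refine (sum_le_sum (g := fun l => ∑ a ∈ (Icc 2 x).filter (fun a => l ^ (4 * a) ≤ x),
          if q ∈ PA x (Q * l ^ a) then Real.log l else 0) ?_).trans
        (sum_le_sum_of_subset_of_nonneg hsub ?_)
      · intro l hl
        rw [Nat.mem_primeFactors] at hl
        rw [← sum_filter]
        refine sum_le_sum_of_subset_of_nonneg ?_ (fun a _ _ => Real.log_natCast_nonneg l)
        intro a ha
        rw [mem_filter, mem_Icc] at ha
        rw [mem_filter, mem_filter, mem_Icc]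
        refine ⟨⟨⟨ha.1.1, ?_⟩, ha.2⟩, ?_⟩
        · have h5 : a < 2 ^ a := Nat.lt_two_pow_self
          have h6 : 2 ^ a ≤ l ^ (4 * a) :=
            (Nat.pow_le_pow_left hl.1.two_le a).trans
              (Nat.pow_le_pow_right hl.1.pos (by omega))
          have h7 := ha.2
          omega
        · refine PA_mul hq ?_
          exact (pow_dvd_pow l ha.1.2).trans (Nat.ordProj_dvd _ _)
      · intro l _ _
        refine sum_nonneg fun a _ => ?_
        split_ifs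
        · exact Real.log_natCast_nonneg l
        · exact le_rfl
    refine (sum_le_sum h2).trans ?_
    rw [sum_comm]
    refine sum_le_sum fun l _ => ?_
    rw [sum_comm]
    refine sum_le_sum fun a _ => ?_
    rw [← sum_filter, sum_const, nsmul_eq_mul]
    refine mul_le_mul_of_nonneg_right ?_ (Real.log_natCast_nonneg l)
    exact_mod_cast card_le_card (fun q hq => (mem_filter.mp hq).2)
  have h3 : ∀ l ∈ P, (∑ a ∈ (Icc 2 x).filter (fun a => l ^ (4 * a) ≤ x),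
      ((PA x (Q * l ^ a)).card : ℝ) * Real.log l) * Real.log x ≤
        (8 * C * x / Q.totient) * (Real.log l / (l : ℝ) ^ 2) := by
    intro l hl
    rw [hP, mem_filter, mem_Icc] at hl
    have hlp := hl.2
    have hlR : (0 : ℝ) < l := by exact_mod_cast hlp.pos
    have h13 : (0 : ℝ) ≤ Real.log l := Real.log_natCast_nonneg l
    have h4 : ∀ a ∈ (Icc 2 x).filter (fun a => l ^ (4 * a) ≤ x),
        ((PA x (Q * l ^ a)).card : ℝ) * Real.log l * Real.log x ≤
          (4 * C * x / Q.totient) * Real.log l * (1 / (l : ℝ) ^ a) := by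
      intro a ha
      rw [mem_filter, mem_Icc] at ha
      have h5 : (Q * l ^ a) ^ 2 ≤ x := by
        have h6 : ((Q * l ^ a) ^ 2) ^ 2 ≤ x ^ 2 := by
          calc ((Q * l ^ a) ^ 2) ^ 2 = Q ^ 4 * l ^ (4 * a) := by
                rw [← pow_mul, mul_pow, ← pow_mul]
                congr 2
                omega
            _ ≤ x * x := Nat.mul_le_mul hQx ha.2
            _ = x ^ 2 := by ring
        exact (Nat.pow_le_pow_iff_left (by norm_num)).mp h6
      have hla : 0 < l ^ a := pow_pos hlp.pos a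
      have h7 := card_le hC x (Q * l ^ a) hx (Nat.mul_pos hQ hla) h5
      have h8 : (Q.totient : ℝ) * ((l : ℝ) ^ a / 2) ≤ (Q * l ^ a).totient := by
        have h9 : ((Q.totient * (l ^ a).totient : ℕ) : ℝ) ≤ (Q * l ^ a).totient := by
          exact_mod_cast Nat.totient_super_multiplicative Q (l ^ a)
        push_cast at h9
        have h10 : (l : ℝ) ^ a ≤ 2 * ((l ^ a).totient : ℝ) := by
          rw [Nat.totient_prime_pow hlp (by omega : 0 < a)]
          have h11 := two_div hlp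
          rw [Nat.totient_prime hlp] at h11
          push_cast
          obtain ⟨b, rfl⟩ : ∃ b, a = b + 1 := ⟨a - 1, by omega⟩
          simp only [Nat.add_sub_cancel]
          have h12 : (0 : ℝ) < (l : ℝ) ^ b := pow_pos hlR b
          calc (l : ℝ) ^ (b + 1) = (l : ℝ) ^ b * l := by ring
            _ ≤ (l : ℝ) ^ b * (2 * ((l - 1 : ℕ) : ℝ)) := mul_le_mul_of_nonneg_left h11 h12.le
            _ = 2 * ((l : ℝ) ^ b * ((l - 1 : ℕ) : ℝ)) := by ring
        have h11 : (Q.totient : ℝ) * ((l : ℝ) ^ a / 2) ≤ Q.totient * (l ^ a).totient :=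
          mul_le_mul_of_nonneg_left (by linarith) hQt.le
        linarith
      have hlaR : (0 : ℝ) < (l : ℝ) ^ a := pow_pos hlR a
      have h12 : C * x / (Q * l ^ a).totient ≤ C * x / (Q.totient * ((l : ℝ) ^ a / 2)) :=
        div_le_div_of_nonneg_left (by positivity) (by positivity) h8
      calc ((PA x (Q * l ^ a)).card : ℝ) * Real.log l * Real.log x
          = Real.log l * (((PA x (Q * l ^ a)).card : ℝ) * Real.log x) := by ring
        _ ≤ Real.log l * (2 * (C * x / (Q.totient * ((l : ℝ) ^ a / 2)))) :=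
            mul_le_mul_of_nonneg_left (h7.trans (by linarith)) h13
        _ = (4 * C * x / Q.totient) * Real.log l * (1 / (l : ℝ) ^ a) := by
            field_simp
            ring
    have h14 : ∑ a ∈ (Icc 2 x).filter (fun a => l ^ (4 * a) ≤ x), 1 / (l : ℝ) ^ a ≤
        2 / (l : ℝ) ^ 2 :=
      (sum_le_sum_of_subset_of_nonneg (filter_subset _ _) (fun a _ _ => by positivity)).trans
        (geom_le l hlp.two_le x)
    rw [sum_mul]
    refine (sum_le_sum h4).trans ?_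
    rw [← mul_sum]
    calc (4 * C * x / Q.totient) * Real.log l *
          ∑ a ∈ (Icc 2 x).filter (fun a => l ^ (4 * a) ≤ x), 1 / (l : ℝ) ^ a
        ≤ (4 * C * x / Q.totient) * Real.log l * (2 / (l : ℝ) ^ 2) :=
          mul_le_mul_of_nonneg_left h14 (by positivity)
      _ = (8 * C * x / Q.totient) * (Real.log l / (l : ℝ) ^ 2) := by ring
  calc _ ≤ (∑ l ∈ P, ∑ a ∈ (Icc 2 x).filter (fun a => l ^ (4 * a) ≤ x),
          ((PA x (Q * l ^ a)).card : ℝ) * Real.log l) * Real.log x :=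
        mul_le_mul_of_nonneg_right h1 hlogx
    _ = ∑ l ∈ P, (∑ a ∈ (Icc 2 x).filter (fun a => l ^ (4 * a) ≤ x),
          ((PA x (Q * l ^ a)).card : ℝ) * Real.log l) * Real.log x := by rw [sum_mul]
    _ ≤ ∑ l ∈ P, (8 * C * x / Q.totient) * (Real.log l / (l : ℝ) ^ 2) := sum_le_sum h3
    _ = (8 * C * x / Q.totient) * ∑ l ∈ P, Real.log l / (l : ℝ) ^ 2 := by rw [mul_sum]
    _ ≤ (8 * C * x / Q.totient) * (2 * S) :=
        mul_le_mul_of_nonneg_left (log_sq_le hS P) (by positivity)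
    _ = 16 * C * S * x / Q.totient := by ring

/-- the second part for one `q` -/
lemma part2_one (x Q q : ℕ) (hq : q ∈ PA x Q) :
    ∑ l ∈ ((q + 1) / Q).primeFactors,
      ∑ _a ∈ (Icc 2 (((q + 1) / Q).factorization l)).filter (fun a => ¬ l ^ (4 * a) ≤ x),
        Real.log l ≤
    ∑ d ∈ (Icc 1 (x + 1)).filter (fun d => x < d ^ 12),
      if Q * d ^ 2 ∣ q + 1 then Real.log (x + 1) else 0 := by
  have hq' := hq
  unfold PA at hq'
  rw [mem_filter, mem_Icc] at hq'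
  set m := (q + 1) / Q with hm
  have hmQ : Q * m = q + 1 := Nat.mul_div_cancel' hq'.2.2
  have hm0 : m ≠ 0 := by
    intro h
    rw [h] at hmQ
    omega
  have hmx : m ≤ x + 1 := by
    have h4 : (q + 1) / Q ≤ q + 1 := Nat.div_le_self _ _
    omega
  have hlog1 : (0 : ℝ) ≤ Real.log (x + 1) := by
    have : (1 : ℝ) ≤ (x : ℝ) + 1 := by
      have : (0 : ℝ) ≤ x := Nat.cast_nonneg x
      linarith
    exact Real.log_nonneg this
  have hnn : ∀ d ∈ (Icc 1 (x + 1)).filter (fun d => x < d ^ 12),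
      (0 : ℝ) ≤ if Q * d ^ 2 ∣ q + 1 then Real.log (x + 1) else 0 := by
    intro d _
    split_ifs
    · exact hlog1
    · exact le_rfl
  by_cases hex : ∃ l ∈ m.primeFactors, ∃ a ∈ Icc 2 (m.factorization l), x < l ^ (4 * a)
  · obtain ⟨l, hl, a, ha, hla⟩ := hex
    rw [Nat.mem_primeFactors] at hl
    rw [mem_Icc] at ha
    have hd1 : (l ^ (a / 2)) ^ 2 ∣ m := by
      rw [← pow_mul]
      exact (pow_dvd_pow l (by omega : a / 2 * 2 ≤ m.factorization l)).trans (Nat.ordProj_dvd _ _)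
    have hdpos : 0 < l ^ (a / 2) := pow_pos hl.1.pos _
    have hd2 : l ^ (a / 2) ≤ x + 1 := by
      have h1 := Nat.le_of_dvd (Nat.pos_of_ne_zero hm0) hd1
      have h2 : l ^ (a / 2) ≤ (l ^ (a / 2)) ^ 2 := Nat.le_self_pow (by norm_num) _
      omega
    have hd3 : x < (l ^ (a / 2)) ^ 12 := by
      rw [← pow_mul]
      exact hla.trans_le (Nat.pow_le_pow_right hl.1.pos (by omega))
    have hmem : l ^ (a / 2) ∈ (Icc 1 (x + 1)).filter (fun d => x < d ^ 12) := by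
      rw [mem_filter, mem_Icc]
      exact ⟨⟨hdpos, hd2⟩, hd3⟩
    have h3 : Real.log (x + 1) ≤ ∑ d ∈ (Icc 1 (x + 1)).filter (fun d => x < d ^ 12),
        if Q * d ^ 2 ∣ q + 1 then Real.log (x + 1) else 0 := by
      have h4 := single_le_sum hnn hmem
      have h5 : Q * (l ^ (a / 2)) ^ 2 ∣ q + 1 := by
        rw [← hmQ]
        exact Nat.mul_dvd_mul_left Q hd1
      rw [if_pos h5] at h4
      exact h4
    refine le_trans ?_ h3
    have h6 : ∑ l ∈ m.primeFactors,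
        ∑ _a ∈ (Icc 2 (m.factorization l)).filter (fun a => ¬ l ^ (4 * a) ≤ x), Real.log l ≤
        ∑ l ∈ m.primeFactors, (m.factorization l : ℝ) * Real.log l := by
      refine sum_le_sum fun l _ => ?_
      rw [sum_const, nsmul_eq_mul]
      refine mul_le_mul_of_nonneg_right ?_ (Real.log_natCast_nonneg l)
      have h7 : ((Icc 2 (m.factorization l)).filter (fun a => ¬ l ^ (4 * a) ≤ x)).card ≤
          (Icc 2 (m.factorization l)).card := card_filter_le _ _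
      rw [Nat.card_Icc] at h7
      exact_mod_cast h7.trans (by omega)
    refine h6.trans ?_
    have h8 : ∑ l ∈ m.primeFactors, (m.factorization l : ℝ) * Real.log l = Real.log m := by
      rw [Real.log_nat_eq_sum_factorization]
      rfl
    rw [h8]
    have h9 : (m : ℝ) ≤ (x : ℝ) + 1 := by exact_mod_cast hmx
    exact Real.log_le_log (by exact_mod_cast Nat.pos_of_ne_zero hm0) h9
  · have h1 : ∑ l ∈ m.primeFactors,
        ∑ _a ∈ (Icc 2 (m.factorization l)).filter (fun a => ¬ l ^ (4 * a) ≤ x), Real.log l = 0 := by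
      refine sum_eq_zero fun l hl => ?_
      rw [filter_eq_empty_iff.mpr, sum_empty]
      intro a ha h
      exact hex ⟨l, hl, a, ha, not_le.mp h⟩
    rw [h1]
    exact sum_nonneg hnn

/-- the total of the second part -/
lemma part2 {S : ℝ} (hS0 : 0 < S)
    (hS : ∀ s : Finset ℕ, ∑ n ∈ s, 1 / (n : ℝ) ^ (3 / 2 : ℝ) ≤ S)
    (x Q : ℕ) (hx : 4 ≤ x) (hQ : 1 ≤ Q) :
    (∑ q ∈ PA x Q, ∑ l ∈ ((q + 1) / Q).primeFactors,
      ∑ _a ∈ (Icc 2 (((q + 1) / Q).factorization l)).filter (fun a => ¬ l ^ (4 * a) ≤ x),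
        Real.log l) * Real.log x ≤ 9216 * S * x / Q.totient := by
  have hxR : (4 : ℝ) ≤ x := by exact_mod_cast hx
  have hx0 : (0 : ℝ) < x := by linarith
  have hlogx : 0 ≤ Real.log x := Real.log_natCast_nonneg x
  have hQR : (1 : ℝ) ≤ Q := by exact_mod_cast hQ
  have hQt : (0 : ℝ) < Q.totient := by exact_mod_cast Nat.totient_pos.mpr hQ
  set D : Finset ℕ := (Icc 1 (x + 1)).filter (fun d => x < d ^ 12) with hD
  have hlog1 : (0 : ℝ) ≤ Real.log (x + 1) := Real.log_nonneg (by linarith)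
  have h1 : (∑ q ∈ PA x Q, ∑ l ∈ ((q + 1) / Q).primeFactors,
      ∑ _a ∈ (Icc 2 (((q + 1) / Q).factorization l)).filter (fun a => ¬ l ^ (4 * a) ≤ x),
        Real.log l) ≤ ∑ d ∈ D, ((x + 1) / (Q * (d : ℝ) ^ 2)) * Real.log (x + 1) := by
    refine (sum_le_sum (fun q hq => part2_one x Q q hq)).trans ?_
    rw [sum_comm]
    refine sum_le_sum fun d hd => ?_
    rw [← sum_filter, sum_const, nsmul_eq_mul]
    refine mul_le_mul_of_nonneg_right ?_ hlog1
    have h2 : ((PA x Q).filter (fun q => Q * d ^ 2 ∣ q + 1)).card ≤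
        ((range (x + 1)).filter (fun e => Q * d ^ 2 ∣ e + 1)).card := by
      refine card_le_card fun q hq => ?_
      rw [mem_filter] at hq
      unfold PA at hq
      rw [mem_filter, mem_Icc] at hq
      rw [mem_filter, mem_range]
      exact ⟨by omega, hq.2⟩
    rw [Nat.card_multiples] at h2
    calc (((PA x Q).filter (fun q => Q * d ^ 2 ∣ q + 1)).card : ℝ)
        ≤ (((x + 1) / (Q * d ^ 2) : ℕ) : ℝ) := by exact_mod_cast h2
      _ ≤ ((x + 1 : ℕ) : ℝ) / ((Q * d ^ 2 : ℕ) : ℝ) := Nat.cast_div_le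
      _ = _ := by push_cast; ring
  have hxi : (0 : ℝ) < (x : ℝ) ^ (1 / 24 : ℝ) := Real.rpow_pos_of_pos hx0 _
  have h3 : ∑ d ∈ D, 1 / (d : ℝ) ^ 2 ≤ S / (x : ℝ) ^ (1 / 24 : ℝ) := by
    have h4 : ∀ d ∈ D, 1 / (d : ℝ) ^ 2 ≤
        (1 / (x : ℝ) ^ (1 / 24 : ℝ)) * (1 / (d : ℝ) ^ (3 / 2 : ℝ)) := by
      intro d hd
      rw [hD, mem_filter, mem_Icc] at hd
      have hdR : (0 : ℝ) < d := by exact_mod_cast hd.1.1
      have h5 : (d : ℝ) ^ 2 = (d : ℝ) ^ (1 / 2 : ℝ) * (d : ℝ) ^ (3 / 2 : ℝ) := by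
        rw [← Real.rpow_add hdR]
        norm_num
      have h6 : (x : ℝ) ^ (1 / 24 : ℝ) ≤ (d : ℝ) ^ (1 / 2 : ℝ) := by
        have h7 : (x : ℝ) ≤ (d : ℝ) ^ (12 : ℝ) := by
          rw [show (12 : ℝ) = ((12 : ℕ) : ℝ) by norm_num, Real.rpow_natCast]
          exact_mod_cast hd.2.le
        calc (x : ℝ) ^ (1 / 24 : ℝ) ≤ ((d : ℝ) ^ (12 : ℝ)) ^ (1 / 24 : ℝ) :=
              Real.rpow_le_rpow hx0.le h7 (by norm_num)
          _ = (d : ℝ) ^ (1 / 2 : ℝ) := by
              rw [← Real.rpow_mul hdR.le]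
              norm_num
      have h8 : (0 : ℝ) < (d : ℝ) ^ (3 / 2 : ℝ) := Real.rpow_pos_of_pos hdR _
      rw [h5, ← one_div_mul_one_div]
      exact mul_le_mul_of_nonneg_right (one_div_le_one_div_of_le hxi h6) (by positivity)
    refine (sum_le_sum h4).trans ?_
    rw [← mul_sum]
    calc (1 / (x : ℝ) ^ (1 / 24 : ℝ)) * ∑ d ∈ D, 1 / (d : ℝ) ^ (3 / 2 : ℝ)
        ≤ (1 / (x : ℝ) ^ (1 / 24 : ℝ)) * S := mul_le_mul_of_nonneg_left (hS D) (by positivity)
      _ = S / (x : ℝ) ^ (1 / 24 : ℝ) := by ring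
  -- the size of the logarithms
  have h5 : Real.log (x + 1) * Real.log x * (x + 1) ≤ 9216 * x * (x : ℝ) ^ (1 / 24 : ℝ) := by
    have h6 : Real.log x ≤ (x : ℝ) ^ (1 / 48 : ℝ) / (1 / 48) :=
      Real.log_le_rpow_div hx0.le (by norm_num)
    have h7 : Real.log (x + 1) ≤ 2 * Real.log x := by
      have h8 : Real.log ((x : ℝ) ^ 2) = 2 * Real.log x := by
        rw [Real.log_pow]; norm_num
      rw [← h8]
      exact Real.log_le_log (by linarith) (by nlinarith)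
    have h9 : (x : ℝ) ^ (1 / 24 : ℝ) = (x : ℝ) ^ (1 / 48 : ℝ) * (x : ℝ) ^ (1 / 48 : ℝ) := by
      rw [← Real.rpow_add hx0]
      norm_num
    have h10 : (0 : ℝ) < (x : ℝ) ^ (1 / 48 : ℝ) := Real.rpow_pos_of_pos hx0 _
    have h11 : Real.log x ≤ 48 * (x : ℝ) ^ (1 / 48 : ℝ) := by
      calc Real.log x ≤ (x : ℝ) ^ (1 / 48 : ℝ) / (1 / 48) := h6
        _ = _ := by ring
    have h12 : Real.log (x + 1) * Real.log x ≤ 4608 * (x : ℝ) ^ (1 / 24 : ℝ) := by
      calc Real.log (x + 1) * Real.log x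
          ≤ (2 * (48 * (x : ℝ) ^ (1 / 48 : ℝ))) * (48 * (x : ℝ) ^ (1 / 48 : ℝ)) :=
            mul_le_mul (h7.trans (by linarith)) h11 hlogx (by positivity)
        _ = 4608 * (x : ℝ) ^ (1 / 24 : ℝ) := by rw [h9]; ring
    calc Real.log (x + 1) * Real.log x * (x + 1)
        ≤ (4608 * (x : ℝ) ^ (1 / 24 : ℝ)) * (2 * x) :=
          mul_le_mul h12 (by linarith) (by linarith) (by positivity)
      _ = _ := by ring
  have h6 : (Q.totient : ℝ) ≤ Q := by exact_mod_cast Nat.totient_le Q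
  calc _ ≤ (∑ d ∈ D, ((x + 1) / (Q * (d : ℝ) ^ 2)) * Real.log (x + 1)) * Real.log x :=
        mul_le_mul_of_nonneg_right h1 hlogx
    _ = (Real.log (x + 1) * Real.log x * (x + 1) / Q) * ∑ d ∈ D, 1 / (d : ℝ) ^ 2 := by
        rw [sum_mul, mul_sum]
        refine sum_congr rfl fun d _ => ?_
        rw [mul_comm (Q : ℝ) ((d : ℝ) ^ 2), ← div_div]
        ring
    _ ≤ (9216 * x * (x : ℝ) ^ (1 / 24 : ℝ) / Q) * (S / (x : ℝ) ^ (1 / 24 : ℝ)) := by
        refine mul_le_mul ?_ h3 (sum_nonneg fun d _ => by positivity) (by positivity)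
        exact div_le_div_of_nonneg_right h5 (by linarith)
    _ = 9216 * S * x / Q := by
        field_simp
    _ ≤ 9216 * S * x / Q.totient :=
        div_le_div_of_nonneg_left (by positivity) hQt h6

end LBaux

open LBaux

theorem stmt_LB (hBT : Stmt_BT) : Stmt_LB := by
  obtain ⟨C, hC0, hC⟩ := hBT
  obtain ⟨S, hS0, hS⟩ := rpow_bound
  refine ⟨16 * C * S + 9216 * S, by positivity, 4, ?_⟩
  intro x hx Q hQ hQx
  have h1 := part1 hC0 hC hS x Q hx hQ hQx
  have h2 := part2 hS0 hS x Q hx hQ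
  have h3 : (∑ q ∈ PA x Q, ∑ l ∈ ((q + 1) / Q).primeFactors,
      ((((q + 1) / Q).factorization l - 1 : ℕ) : ℝ) * Real.log l) =
      (∑ q ∈ PA x Q, ∑ l ∈ ((q + 1) / Q).primeFactors,
      ∑ _a ∈ (Icc 2 (((q + 1) / Q).factorization l)).filter (fun a => l ^ (4 * a) ≤ x),
        Real.log l) +
      (∑ q ∈ PA x Q, ∑ l ∈ ((q + 1) / Q).primeFactors,
      ∑ _a ∈ (Icc 2 (((q + 1) / Q).factorization l)).filter (fun a => ¬ l ^ (4 * a) ≤ x),
        Real.log l) := by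
    rw [← sum_add_distrib]
    refine sum_congr rfl fun q _ => ?_
    rw [← sum_add_distrib]
    refine sum_congr rfl fun l _ => ?_
    rw [sum_filter_add_sum_filter_not, sum_const, nsmul_eq_mul, Nat.card_Icc]
    have h4 : ((q + 1) / Q).factorization l + 1 - 2 = ((q + 1) / Q).factorization l - 1 := by omega
    rw [h4]
  rw [h3, add_mul]
  calc _ ≤ 16 * C * S * x / Q.totient + 9216 * S * x / Q.totient := add_le_add h1 h2
    _ = (16 * C * S + 9216 * S) * x / Q.totient := by ring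

end Pool.Agent.Work.MP_495a89_nm
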