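import Pool.Agent.Work.MP_495a89_nm.Interface

/-!
# Block LC: prime factors in a sparse set
-/

set_option autoImplicit false

namespace Pool.Agent.Work.MP_495a89_nm

open Finset

namespace LCaux

lemma PA_filter (x Q p : ℕ) (hcop : Nat.Coprime Q p) :
    (PA x Q).filter (fun q => p ∣ q + 1) = PA x (Q * p) := by
  ext q
  simp only [PA, mem_filter]
  constructor
  · rintro ⟨⟨h1, h2, h3⟩, h4⟩
    exact ⟨h1, h2, hcop.mul_dvd_of_dvd_of_dvd h3 h4⟩
  · rintro ⟨h1, h2, h3⟩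
    exact ⟨⟨h1, h2, (Dvd.intro _ rfl).trans h3⟩, (Dvd.intro_left _ rfl).trans h3⟩

lemma one_le_log {x : ℕ} (hx : 3 ≤ x) : 1 ≤ Real.log x := by
  have h3 : (3 : ℝ) ≤ x := by exact_mod_cast hx
  have h1 : Real.exp 1 ≤ x := by
    have := Real.exp_one_lt_d9
    linarith
  have h2 := Real.log_le_log (Real.exp_pos 1) h1
  rwa [Real.log_exp] at h2

lemma blocks {x : ℕ} (hx : 3 ≤ x) : ((Nat.log 2 x + 1 : ℕ) : ℝ) ≤ 3 * Real.log x := by
  have h1 := one_le_log hx
  have h2 : 2 ^ Nat.log 2 x ≤ x := Nat.pow_log_le_self 2 (by omega)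
  have h3 : ((2 : ℝ) ^ Nat.log 2 x) ≤ x := by exact_mod_cast h2
  have h4 := Real.log_le_log (by positivity) h3
  rw [Real.log_pow] at h4
  have h5 := Real.log_two_gt_d9
  push_cast
  have h6 : (0 : ℝ) ≤ (Nat.log 2 x : ℝ) := Nat.cast_nonneg _
  nlinarith [mul_nonneg h6 (by linarith : (0 : ℝ) ≤ Real.log 2 - 0.69)]

open Classical in
lemma sparse_sum (x z1 : ℕ) (E : Set ℕ) (e : ℝ) (he : 0 ≤ e) (hx : 3 ≤ x) (hz : 2 ≤ z1)
    (hzx : z1 ≤ x)
    (hE : ∀ t : ℕ, z1 ≤ t → t ≤ x →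
      (((Icc 1 t).filter fun p => p.Prime ∧ p ∈ E).card : ℝ) * Real.log t ≤ e * t)
    (S : Finset ℕ) (hS : ∀ p ∈ S, p.Prime ∧ z1 < p ∧ p ≤ x ∧ p ∈ E) :
    ∑ p ∈ S, Real.log p / ((p : ℝ) - 1) ≤ 6 * e * Real.log x := by
  have hz0 : 0 < z1 := by omega
  have hmaps : ∀ p ∈ S, Nat.log 2 ((p - 1) / z1) ∈ range (Nat.log 2 x + 1) := by
    intro p hp
    obtain ⟨_, _, h2, _⟩ := hS p hp
    rw [mem_range, Nat.lt_succ_iff]
    apply Nat.log_mono_right
    exact (Nat.div_le_self _ _).trans ((Nat.sub_le _ _).trans h2)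
  rw [← Finset.sum_fiberwise_of_maps_to hmaps]
  have hfib : ∀ i ∈ range (Nat.log 2 x + 1),
      ∑ p ∈ S.filter (fun p => Nat.log 2 ((p - 1) / z1) = i),
        Real.log p / ((p : ℝ) - 1) ≤ 2 * e := by
    intro i _
    obtain ⟨t, ht⟩ : ∃ t, t = min (2 ^ (i + 1) * z1) x := ⟨_, rfl⟩
    have hzt : z1 ≤ t := by
      rw [ht]
      exact le_min (Nat.le_mul_of_pos_left _ (by positivity)) hzx
    have htx : t ≤ x := by rw [ht]; exact min_le_right _ _
    have ht2 : t ≤ 2 ^ (i + 1) * z1 := by rw [ht]; exact min_le_left _ _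
    have hlt : 0 ≤ Real.log t := Real.log_natCast_nonneg t
    have hB : (0 : ℝ) < (2 : ℝ) ^ i * z1 := by
      have : (0 : ℝ) < z1 := by exact_mod_cast hz0
      positivity
    have key : ∀ p ∈ S.filter (fun p => Nat.log 2 ((p - 1) / z1) = i),
        Real.log p / ((p : ℝ) - 1) ≤ Real.log t / ((2 : ℝ) ^ i * z1) ∧
          p ∈ (Icc 1 t).filter fun p => p.Prime ∧ p ∈ E := by
      intro p hp
      rw [mem_filter] at hp
      obtain ⟨hpS, hgi⟩ := hp
      obtain ⟨hpp, h1, h2, h3⟩ := hS p hpS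
      have hq1 : 1 ≤ (p - 1) / z1 := (Nat.one_le_div_iff hz0).2 (by omega)
      have hlo : 2 ^ i ≤ (p - 1) / z1 := by
        rw [← hgi]; exact Nat.pow_log_le_self 2 (by omega)
      have hlo2 : 2 ^ i * z1 ≤ p - 1 := (Nat.le_div_iff_mul_le hz0).1 hlo
      have hhi : (p - 1) / z1 < 2 ^ (i + 1) := by
        rw [← hgi]; exact Nat.lt_pow_succ_log_self (by norm_num) _
      have hhi2 : p - 1 < 2 ^ (i + 1) * z1 := (Nat.div_lt_iff_lt_mul hz0).1 hhi
      have hpt : p ≤ t := by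
        rw [ht]
        exact le_min (by omega) h2
      have hp1 : 1 ≤ p := by omega
      refine ⟨?_, mem_filter.2 ⟨mem_Icc.2 ⟨hp1, hpt⟩, hpp, h3⟩⟩
      have hlo3 : (2 : ℝ) ^ i * z1 ≤ (p : ℝ) - 1 := by
        have h := (Nat.cast_le (α := ℝ)).2 hlo2
        rw [Nat.cast_sub hp1] at h
        push_cast at h
        exact h
      have hlog : Real.log p ≤ Real.log t :=
        Real.log_le_log (by exact_mod_cast hp1) (by exact_mod_cast hpt)
      exact div_le_div₀ hlt hlog hB hlo3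
    have hcard : (S.filter (fun p => Nat.log 2 ((p - 1) / z1) = i)).card ≤
        ((Icc 1 t).filter fun p => p.Prime ∧ p ∈ E).card :=
      card_le_card fun p hp => (key p hp).2
    have h1 : ∑ p ∈ S.filter (fun p => Nat.log 2 ((p - 1) / z1) = i),
        Real.log p / ((p : ℝ) - 1) ≤
        (S.filter (fun p => Nat.log 2 ((p - 1) / z1) = i)).card •
          (Real.log t / ((2 : ℝ) ^ i * z1)) :=
      sum_le_card_nsmul _ _ _ fun p hp => (key p hp).1
    rw [nsmul_eq_mul] at h1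
    have h2 : ((S.filter (fun p => Nat.log 2 ((p - 1) / z1) = i)).card : ℝ) ≤
        (((Icc 1 t).filter fun p => p.Prime ∧ p ∈ E).card : ℝ) := by exact_mod_cast hcard
    have h3 : ((S.filter (fun p => Nat.log 2 ((p - 1) / z1) = i)).card : ℝ) *
        (Real.log t / ((2 : ℝ) ^ i * z1)) ≤
        (((Icc 1 t).filter fun p => p.Prime ∧ p ∈ E).card : ℝ) *
        (Real.log t / ((2 : ℝ) ^ i * z1)) :=
      mul_le_mul_of_nonneg_right h2 (div_nonneg hlt hB.le)
    have h4 : (((Icc 1 t).filter fun p => p.Prime ∧ p ∈ E).card : ℝ) *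
        (Real.log t / ((2 : ℝ) ^ i * z1)) ≤ e * t / ((2 : ℝ) ^ i * z1) := by
      rw [← mul_div_assoc]
      exact div_le_div_of_nonneg_right (hE t hzt htx) hB.le
    have h5 : e * t / ((2 : ℝ) ^ i * z1) ≤ 2 * e := by
      rw [div_le_iff₀ hB]
      have h6 : (t : ℝ) ≤ 2 ^ (i + 1) * z1 := by exact_mod_cast ht2
      have h7 := mul_le_mul_of_nonneg_left h6 he
      calc e * t ≤ e * (2 ^ (i + 1) * z1) := h7
        _ = 2 * e * (2 ^ i * z1) := by ring
    linarith
  have hsum := sum_le_card_nsmul (range (Nat.log 2 x + 1)) _ _ hfib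
  rw [card_range, nsmul_eq_mul] at hsum
  have hbl := blocks hx
  have h8 : ((Nat.log 2 x + 1 : ℕ) : ℝ) * (2 * e) ≤ 3 * Real.log x * (2 * e) :=
    mul_le_mul_of_nonneg_right hbl (by linarith)
  calc _ ≤ ((Nat.log 2 x + 1 : ℕ) : ℝ) * (2 * e) := hsum
    _ ≤ 3 * Real.log x * (2 * e) := h8
    _ = 6 * e * Real.log x := by ring

end LCaux

open LCaux

open Classical in
theorem stmt_LC (hBT : Stmt_BT) : Stmt_LC := by
  obtain ⟨C, hC, hB⟩ := hBT
  refine ⟨12 * C, by positivity, ?_⟩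
  intro η hη hη2
  refine ⟨max 3 ⌈(2 : ℝ) ^ (2 / η)⌉₊, ?_⟩
  intro x hx e he Q z1 E hQ hz hzx hQx hpQ hE
  have hx3 : 3 ≤ x := (le_max_left _ _).trans hx
  have hxpos : (0 : ℝ) < x := by
    have : 0 < x := by omega
    exact_mod_cast this
  have hx1 : (1 : ℝ) ≤ x := by
    have : 1 ≤ x := by omega
    exact_mod_cast this
  have hx2 : (2 : ℝ) ^ (2 / η) ≤ x := by
    have h1 : ⌈(2 : ℝ) ^ (2 / η)⌉₊ ≤ x := (le_max_right _ _).trans hx
    exact (Nat.le_ceil _).trans (by exact_mod_cast h1)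
  have h2x : (2 : ℝ) ≤ (x : ℝ) ^ (η / 2) := by
    have h1 : ((2 : ℝ) ^ (2 / η)) ^ (η / 2) ≤ (x : ℝ) ^ (η / 2) :=
      Real.rpow_le_rpow (by positivity) hx2 (by positivity)
    rw [← Real.rpow_mul (by norm_num)] at h1
    have h2 : 2 / η * (η / 2) = 1 := by field_simp
    rw [h2, Real.rpow_one] at h1
    exact h1
  have hlogx : 1 ≤ Real.log x := one_le_log hx3
  have hphi : 0 < (Q.totient : ℝ) := by
    have : 0 < Q.totient := Nat.totient_pos.2 (by omega)
    exact_mod_cast this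
  obtain ⟨S, hSdef⟩ : ∃ S : Finset ℕ, S = (Icc 1 x).filter
      (fun p => p.Prime ∧ z1 < p ∧ (p : ℝ) ≤ (x : ℝ) ^ (1 - η) ∧ p ∈ E) := ⟨_, rfl⟩
  have hS : ∀ p ∈ S, p.Prime ∧ z1 < p ∧ p ≤ x ∧ p ∈ E := by
    intro p hp
    rw [hSdef, mem_filter, mem_Icc] at hp
    exact ⟨hp.2.1, hp.2.2.1, hp.1.2, hp.2.2.2.2⟩
  -- the number of `q` divisible by `p`
  have hcount : ∀ p ∈ S, (((PA x Q).filter (fun q => p ∣ q + 1)).card : ℝ) * Real.log p ≤
      2 * C * x / (η * Q.totient * Real.log x) * (Real.log p / ((p : ℝ) - 1)) := by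
    intro p hp
    obtain ⟨hpp, hzp, hpx, hpE⟩ := hS p hp
    have hpη : (p : ℝ) ≤ (x : ℝ) ^ (1 - η) := by
      rw [hSdef, mem_filter] at hp
      exact hp.2.2.2.1
    have hcop : Nat.Coprime Q p := by
      rw [Nat.coprime_comm, Nat.Prime.coprime_iff_not_dvd hpp]
      intro h
      have := hpQ p hpp h
      omega
    rw [PA_filter x Q p hcop]
    have hp2 : 2 ≤ p := hpp.two_le
    have hppos : (0 : ℝ) < p := by
      have : 0 < p := by omega
      exact_mod_cast this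
    have hp1 : (0 : ℝ) < (p : ℝ) - 1 := by
      have : (2 : ℝ) ≤ p := by exact_mod_cast hp2
      linarith
    have hQpos : (0 : ℝ) < Q := by
      have : 0 < Q := by omega
      exact_mod_cast this
    have hQp : (Q : ℝ) * p ≤ (x : ℝ) ^ (1 - η / 2) := by
      have h1 : (Q : ℝ) * p ≤ (x : ℝ) ^ (η / 2) * (x : ℝ) ^ (1 - η) :=
        mul_le_mul hQx hpη hppos.le (by positivity)
      rw [← Real.rpow_add hxpos] at h1
      have h2 : η / 2 + (1 - η) = 1 - η / 2 := by ring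
      rwa [h2] at h1
    have hprod : (x : ℝ) ^ (η / 2) * ((Q : ℝ) * p) ≤ x := by
      calc (x : ℝ) ^ (η / 2) * ((Q : ℝ) * p)
          ≤ (x : ℝ) ^ (η / 2) * (x : ℝ) ^ (1 - η / 2) :=
            mul_le_mul_of_nonneg_left hQp (by positivity)
        _ = x := by
            rw [← Real.rpow_add hxpos]
            have h2 : η / 2 + (1 - η / 2) = 1 := by ring
            rw [h2, Real.rpow_one]
    have h2Qp : 2 * (Q * p) ≤ x := by
      have h1 : (2 : ℝ) * ((Q : ℝ) * p) ≤ x := by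
        have h3 : (2 : ℝ) * ((Q : ℝ) * p) ≤ (x : ℝ) ^ (η / 2) * ((Q : ℝ) * p) :=
          mul_le_mul_of_nonneg_right h2x (by positivity)
        linarith
      exact_mod_cast h1
    have hbt := hB (Q * p) x (Nat.mul_pos (by omega) (by omega)) h2Qp
    have hlog2 : η / 2 * Real.log x ≤ Real.log ((x : ℝ) / ((Q * p : ℕ) : ℝ)) := by
      have h1 : (x : ℝ) ^ (η / 2) ≤ (x : ℝ) / ((Q * p : ℕ) : ℝ) := by
        push_cast
        rw [le_div_iff₀ (by positivity)]
        exact hprod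
      have h3 := Real.log_le_log (by positivity) h1
      rwa [Real.log_rpow hxpos] at h3
    have htot : ((Q * p).totient : ℝ) = Q.totient * ((p : ℝ) - 1) := by
      rw [Nat.totient_mul hcop, Nat.totient_prime hpp, Nat.cast_mul,
        Nat.cast_sub (by omega : 1 ≤ p), Nat.cast_one]
    rw [htot] at hbt
    have hcn : (0 : ℝ) ≤ ((PA x (Q * p)).card : ℝ) := Nat.cast_nonneg _
    have h5 : ((PA x (Q * p)).card : ℝ) * (η / 2 * Real.log x) ≤
        C * x / (Q.totient * ((p : ℝ) - 1)) :=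
      (mul_le_mul_of_nonneg_left hlog2 hcn).trans hbt
    have hηl : 0 < η / 2 * Real.log x := by positivity
    have h6 : ((PA x (Q * p)).card : ℝ) ≤
        C * x / (Q.totient * ((p : ℝ) - 1)) / (η / 2 * Real.log x) := by
      rw [le_div_iff₀ hηl]
      exact h5
    have hlp : 0 ≤ Real.log p := Real.log_natCast_nonneg p
    calc ((PA x (Q * p)).card : ℝ) * Real.log p
        ≤ C * x / (Q.totient * ((p : ℝ) - 1)) / (η / 2 * Real.log x) * Real.log p :=
          mul_le_mul_of_nonneg_right h6 hlp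
      _ = 2 * C * x / (η * Q.totient * Real.log x) * (Real.log p / ((p : ℝ) - 1)) := by
          field_simp
  -- interchange the sums
  have hswap : ∑ q ∈ PA x Q, ∑ p ∈ (q + 1).primeFactors.filter
      (fun p => z1 < p ∧ (p : ℝ) ≤ (x : ℝ) ^ (1 - η) ∧ p ∈ E), Real.log p ≤
      ∑ p ∈ S, (((PA x Q).filter (fun q => p ∣ q + 1)).card : ℝ) * Real.log p := by
    calc ∑ q ∈ PA x Q, ∑ p ∈ (q + 1).primeFactors.filter
            (fun p => z1 < p ∧ (p : ℝ) ≤ (x : ℝ) ^ (1 - η) ∧ p ∈ E), Real.log p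
          ≤ ∑ q ∈ PA x Q, ∑ p ∈ S.filter (fun p => p ∣ q + 1), Real.log p := by
          apply sum_le_sum
          intro q hq
          apply sum_le_sum_of_subset_of_nonneg
          · intro p hp
            rw [mem_filter, Nat.mem_primeFactors] at hp
            obtain ⟨⟨hpp, hpd, _⟩, h1, h2, h3⟩ := hp
            rw [mem_filter, hSdef, mem_filter, mem_Icc]
            refine ⟨⟨⟨hpp.one_lt.le, ?_⟩, hpp, h1, h2, h3⟩, hpd⟩
            have h4 : (x : ℝ) ^ (1 - η) ≤ x := by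
              calc (x : ℝ) ^ (1 - η) ≤ (x : ℝ) ^ (1 : ℝ) :=
                    Real.rpow_le_rpow_of_exponent_le hx1 (by linarith)
                _ = x := Real.rpow_one _
            exact_mod_cast h2.trans h4
          · intro p _ _
            exact Real.log_natCast_nonneg p
      _ = ∑ q ∈ PA x Q, ∑ p ∈ S, if p ∣ q + 1 then Real.log p else 0 := by
          apply sum_congr rfl
          intro q _
          rw [sum_filter]
      _ = ∑ p ∈ S, ∑ q ∈ PA x Q, if p ∣ q + 1 then Real.log p else 0 := sum_comm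
      _ = ∑ p ∈ S, (((PA x Q).filter (fun q => p ∣ q + 1)).card : ℝ) * Real.log p := by
          apply sum_congr rfl
          intro p _
          rw [← sum_filter, sum_const, nsmul_eq_mul]
  have hsp := sparse_sum x z1 E e he hx3 hz hzx hE S hS
  have hK : 0 ≤ 2 * C * x / (η * Q.totient * Real.log x) := by positivity
  calc _ ≤ ∑ p ∈ S, (((PA x Q).filter (fun q => p ∣ q + 1)).card : ℝ) * Real.log p := hswap
    _ ≤ ∑ p ∈ S, 2 * C * x / (η * Q.totient * Real.log x) * (Real.log p / ((p : ℝ) - 1)) :=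
        sum_le_sum hcount
    _ = 2 * C * x / (η * Q.totient * Real.log x) * ∑ p ∈ S, Real.log p / ((p : ℝ) - 1) := by
        rw [mul_sum]
    _ ≤ 2 * C * x / (η * Q.totient * Real.log x) * (6 * e * Real.log x) :=
        mul_le_mul_of_nonneg_left hsp hK
    _ = 12 * C * e / η * x / Q.totient := by
        have hl : Real.log (x : ℝ) ≠ 0 := by linarith
        field_simp
        ring

end Pool.Agent.Work.MP_495a89_nm
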