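import Pool.Agent.Work.MP_495a89_nm.Interface

/-!
Block LD: very large prime factors.
-/

set_option autoImplicit false

namespace Pool.Agent.Work.MP_495a89_nm

open Finset

namespace LDaux

/-- the primes `p ≤ X` with `k p - 1` prime -/
def PP (k X : ℕ) : Finset ℕ := (Icc 1 X).filter fun p => p.Prime ∧ (k * p - 1).Prime

theorem card_le {x Q : ℕ} (hQ : 1 ≤ Q) (hQx : Q ^ 4 ≤ x) (hx : 1 ≤ x) {η : ℝ} (hη : 0 < η)
    (hη4 : η ≤ 1 / 4) :
    ∑ q ∈ PA x Q, (((q + 1).primeFactors.filter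
        (fun p : ℕ => (x : ℝ) ^ (1 - η) < (p : ℝ))).card : ℕ) ≤
      ∑ m ∈ (Icc 1 ⌊2 * (x : ℝ) ^ η⌋₊).filter
        (fun m => (x : ℝ) ^ (1 - η) ≤ (((x + 1) / (Q * m) : ℕ) : ℝ)),
        (PP (Q * m) ((x + 1) / (Q * m))).card := by
  classical
  have hxr : (1 : ℝ) ≤ x := by exact_mod_cast hx
  have hx0 : (0 : ℝ) < x := by linarith
  rw [← Finset.card_sigma, ← Finset.card_sigma]
  refine Finset.card_le_card_of_injOn
    (fun a : (_ : ℕ) × ℕ => (⟨(a.1 + 1) / (Q * a.2), a.2⟩ : (_ : ℕ) × ℕ)) ?_ ?_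
  · rintro ⟨q, p⟩ h
    simp only [Finset.coe_sigma, Set.mem_sigma_iff, Finset.mem_coe, Finset.mem_filter,
      Nat.mem_primeFactors, PA, PP, Finset.mem_Icc] at h ⊢
    obtain ⟨⟨⟨hq1, hqx⟩, hqp, hQq⟩, ⟨hp, hpq, hq0⟩, hpx⟩ := h
    have hQp : Q < p := by
      have h1 : ((Q : ℝ)) ≤ (x : ℝ) ^ (1 - η) := by
        have h2 : ((Q : ℝ)) ^ (4 : ℕ) ≤ x := by exact_mod_cast hQx
        have h3 : (Q : ℝ) ≤ (x : ℝ) ^ ((1 : ℝ) / 4) := by
          have h4 := Real.rpow_le_rpow (by positivity) h2 (show (0 : ℝ) ≤ 1 / 4 by norm_num)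
          rw [← Real.rpow_natCast, ← Real.rpow_mul (by positivity)] at h4
          norm_num at h4
          exact h4
        exact h3.trans (Real.rpow_le_rpow_of_exponent_le hxr (by linarith))
      exact_mod_cast h1.trans_lt hpx
    have hcop : Nat.Coprime Q p :=
      ((Nat.Prime.coprime_iff_not_dvd hp).2 (fun hd =>
        absurd (Nat.le_of_dvd (by omega) hd) (by omega))).symm
    have hdvd : Q * p ∣ q + 1 := hcop.mul_dvd_of_dvd_of_dvd hQq hpq
    obtain ⟨m, hm⟩ := hdvd
    have hQp0 : 0 < Q * p := Nat.mul_pos (by omega) hp.pos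
    have hmq : (q + 1) / (Q * p) = m := by rw [hm, Nat.mul_div_cancel_left _ hQp0]
    have hm1 : 1 ≤ m := by
      rcases Nat.eq_zero_or_pos m with h0 | h0
      · rw [h0] at hm; simp at hm
      · exact h0
    rw [hmq]
    have hle : p ≤ (x + 1) / (Q * m) := by
      rw [Nat.le_div_iff_mul_le (Nat.mul_pos (by omega) (by omega))]
      calc p * (Q * m) = Q * p * m := by ring
        _ = q + 1 := hm.symm
        _ ≤ x + 1 := by omega
    refine ⟨⟨⟨hm1, ?_⟩, ?_⟩, ⟨⟨hp.one_lt.le, hle⟩, hp, ?_⟩⟩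
    · apply Nat.le_floor
      have h5 : (m : ℝ) * (x : ℝ) ^ (1 - η) ≤ 2 * x := by
        have h6 : (m : ℝ) * p ≤ x + 1 := by
          have : m * p ≤ x + 1 := by
            calc m * p ≤ Q * (m * p) := Nat.le_mul_of_pos_left _ (by omega)
              _ = Q * p * m := by ring
              _ = q + 1 := hm.symm
              _ ≤ x + 1 := by omega
          exact_mod_cast this
        have h7 : (m : ℝ) * (x : ℝ) ^ (1 - η) ≤ m * p := by gcongr
        linarith
      have h8 : (x : ℝ) ^ (1 - η) * (x : ℝ) ^ η = x := by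
        rw [← Real.rpow_add hx0]
        simp
      have h9 : 0 < (x : ℝ) ^ (1 - η) := Real.rpow_pos_of_pos hx0 _
      have h10 : (m : ℝ) * (x : ℝ) ^ (1 - η) ≤ 2 * (x : ℝ) ^ η * (x : ℝ) ^ (1 - η) := by
        calc (m : ℝ) * (x : ℝ) ^ (1 - η) ≤ 2 * x := h5
          _ = 2 * ((x : ℝ) ^ (1 - η) * (x : ℝ) ^ η) := by rw [h8]
          _ = 2 * (x : ℝ) ^ η * (x : ℝ) ^ (1 - η) := by ring
      exact le_of_mul_le_mul_right h10 h9
    · refine hpx.le.trans ?_
      exact_mod_cast hle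
    · have : Q * m * p - 1 = q := by
        have : Q * m * p = q + 1 := by rw [hm]; ring
        omega
      rw [this]
      exact hqp
  · rintro ⟨q, p⟩ h ⟨q', p'⟩ h' heq
    simp only [Finset.coe_sigma, Set.mem_sigma_iff, Finset.mem_coe, Finset.mem_filter,
      Nat.mem_primeFactors, PA, Finset.mem_Icc] at h h'
    obtain ⟨⟨⟨hq1, hqx⟩, hqp, hQq⟩, ⟨hp, hpq, hq0⟩, hpx⟩ := h
    obtain ⟨⟨⟨hq1', hqx'⟩, hqp', hQq'⟩, ⟨hp', hpq', hq0'⟩, hpx'⟩ := h'
    simp only [Sigma.mk.injEq, heq_eq_eq] at heq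
    obtain ⟨h1, h2⟩ := heq
    have hdv : ∀ {q p : ℕ}, Q ∣ q + 1 → p.Prime → p ∣ q + 1 → (x : ℝ) ^ (1 - η) < p →
        Q * p ∣ q + 1 := by
      intro q p hQq hp hpq hpx
      have hQp : Q < p := by
        have h1 : ((Q : ℝ)) ≤ (x : ℝ) ^ (1 - η) := by
          have h2 : ((Q : ℝ)) ^ (4 : ℕ) ≤ x := by exact_mod_cast hQx
          have h3 : (Q : ℝ) ≤ (x : ℝ) ^ ((1 : ℝ) / 4) := by
            have h4 := Real.rpow_le_rpow (by positivity) h2 (show (0 : ℝ) ≤ 1 / 4 by norm_num)
            rw [← Real.rpow_natCast, ← Real.rpow_mul (by positivity)] at h4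
            norm_num at h4
            exact h4
          exact h3.trans (Real.rpow_le_rpow_of_exponent_le hxr (by linarith))
        exact_mod_cast h1.trans_lt hpx
      have hcop : Nat.Coprime Q p :=
        ((Nat.Prime.coprime_iff_not_dvd hp).2 (fun hd =>
          absurd (Nat.le_of_dvd (by omega) hd) (by omega))).symm
      exact hcop.mul_dvd_of_dvd_of_dvd hQq hpq
    have e1 := Nat.div_mul_cancel (hdv hQq hp hpq hpx)
    have e2 := Nat.div_mul_cancel (hdv hQq' hp' hpq' hpx')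
    subst h2
    rw [h1, e2] at e1
    have : q = q' := by omega
    subst this
    rfl

end LDaux

open LDaux

theorem stmt_LD (hS : Stmt_S2) (hP : Stmt_PHI) : Stmt_LD := by
  classical
  obtain ⟨C2, hC2, hS⟩ := hS
  obtain ⟨CP, hCP, hP⟩ := hP
  refine ⟨24 * C2 * CP, by positivity, fun η hη hη4 => ?_⟩
  -- threshold
  obtain ⟨x0, hx0⟩ := Filter.eventually_atTop.1
    (((Real.tendsto_log_atTop.comp tendsto_natCast_atTop_atTop).eventually_ge_atTop (1 / η)).and
      (Filter.eventually_ge_atTop (2 : ℕ)))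
  refine ⟨x0, fun x hx Q hQ hQx => ?_⟩
  obtain ⟨hlog, hx2⟩ := hx0 x hx
  simp only [Function.comp] at hlog
  have hxr : (2 : ℝ) ≤ x := by exact_mod_cast hx2
  have hxp : (0 : ℝ) < x := by linarith
  have hηl : 1 ≤ η * Real.log x := by
    rw [div_le_iff₀ hη] at hlog
    linarith
  have hlpos : 0 < Real.log x := Real.log_pos (by linarith)
  have hphiQ : (0 : ℝ) < Q.totient := by exact_mod_cast Nat.totient_pos.2 (by omega)
  -- weights
  have hw : ∑ q ∈ PA x Q, ∑ p ∈ (q + 1).primeFactors.filter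
        (fun p : ℕ => (x : ℝ) ^ (1 - η) < (p : ℝ)), Real.log p ≤
      2 * Real.log x * ((∑ q ∈ PA x Q, (((q + 1).primeFactors.filter
        (fun p : ℕ => (x : ℝ) ^ (1 - η) < (p : ℝ))).card : ℕ) : ℕ) : ℝ) := by
    push_cast
    rw [Finset.mul_sum]
    refine Finset.sum_le_sum fun q hq => ?_
    simp only [PA, Finset.mem_filter, Finset.mem_Icc] at hq
    rw [mul_comm, ← nsmul_eq_mul]
    refine Finset.sum_le_card_nsmul _ _ _ fun p hp => ?_
    rw [Finset.mem_filter, Nat.mem_primeFactors] at hp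
    have hp1 : (p : ℝ) ≤ x ^ 2 := by
      have h1 : p ≤ x + 1 := (Nat.le_of_dvd (by omega) hp.1.2.1).trans (by omega)
      have h2 : (p : ℝ) ≤ x + 1 := by exact_mod_cast h1
      nlinarith
    have hp0 : (0 : ℝ) < p := by exact_mod_cast hp.1.1.pos
    calc Real.log p ≤ Real.log ((x : ℝ) ^ 2) := Real.log_le_log hp0 hp1
      _ = 2 * Real.log x := by rw [Real.log_pow]; norm_num
  -- counting
  have hcard : ((∑ q ∈ PA x Q, (((q + 1).primeFactors.filter
        (fun p : ℕ => (x : ℝ) ^ (1 - η) < (p : ℝ))).card : ℕ) : ℕ) : ℝ) ≤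
      12 * C2 * CP * η * x / (Q.totient * Real.log x) := by
    have h1 := card_le (x := x) hQ hQx (by omega) hη hη4
    have h2 : ((∑ q ∈ PA x Q, (((q + 1).primeFactors.filter
        (fun p : ℕ => (x : ℝ) ^ (1 - η) < (p : ℝ))).card : ℕ) : ℕ) : ℝ) ≤
        ∑ m ∈ (Icc 1 ⌊2 * (x : ℝ) ^ η⌋₊).filter
        (fun m => (x : ℝ) ^ (1 - η) ≤ (((x + 1) / (Q * m) : ℕ) : ℝ)),
        ((PP (Q * m) ((x + 1) / (Q * m))).card : ℝ) := by
      exact_mod_cast h1
    refine h2.trans ?_
    have h3 : ∀ m ∈ (Icc 1 ⌊2 * (x : ℝ) ^ η⌋₊).filter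
        (fun m => (x : ℝ) ^ (1 - η) ≤ (((x + 1) / (Q * m) : ℕ) : ℝ)),
        ((PP (Q * m) ((x + 1) / (Q * m))).card : ℝ) ≤
          4 * C2 * x / (Q.totient * Real.log x ^ 2) * (1 / (m.totient : ℝ)) := by
      intro m hm
      rw [Finset.mem_filter, Finset.mem_Icc] at hm
      obtain ⟨⟨hm1, hmM⟩, hmX⟩ := hm
      set X := (x + 1) / (Q * m) with hX
      have hx34 : (1 : ℝ) ≤ (x : ℝ) ^ (1 - η) :=
        Real.one_le_rpow (by linarith) (by linarith)
      have hX1 : 1 ≤ X := by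
        have : (1 : ℝ) ≤ (X : ℝ) := hx34.trans hmX
        exact_mod_cast this
      have hQm : 1 ≤ Q * m := Nat.mul_pos (by omega) (by omega)
      have h4 := hS (Q * m) X hQm hX1
      have hlogX : 3 / 4 * Real.log x ≤ Real.log X := by
        have h5 := Real.log_le_log (by linarith) hmX
        rw [Real.log_rpow hxp] at h5
        nlinarith
      have hphi : (Q.totient : ℝ) * m.totient ≤ (Q * m).totient := by
        exact_mod_cast Nat.totient_super_multiplicative Q m
      have hphim : (0 : ℝ) < m.totient := by exact_mod_cast Nat.totient_pos.2 (by omega)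
      have hphiQm : (0 : ℝ) < (Q * m).totient := by exact_mod_cast Nat.totient_pos.2 (by omega)
      have hXk : (X : ℝ) * ((Q * m : ℕ) : ℝ) ≤ 2 * x := by
        have h6 : X * (Q * m) ≤ x + 1 := Nat.div_mul_le_self _ _
        have h7 : (X : ℝ) * ((Q * m : ℕ) : ℝ) ≤ x + 1 := by exact_mod_cast h6
        linarith
      have h8 : ((PP (Q * m) X).card : ℝ) * (1 / 2 * Real.log x ^ 2) ≤
          C2 * (2 * x) / (Q.totient * m.totient) := by
        calc ((PP (Q * m) X).card : ℝ) * (1 / 2 * Real.log x ^ 2)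
            ≤ ((PP (Q * m) X).card : ℝ) * Real.log X ^ 2 := by
              apply mul_le_mul_of_nonneg_left _ (Nat.cast_nonneg _)
              nlinarith
          _ ≤ C2 * X * (((Q * m : ℕ) : ℝ) / (Q * m).totient) := h4
          _ = C2 * (X * ((Q * m : ℕ) : ℝ)) / (Q * m).totient := by ring
          _ ≤ C2 * (2 * x) / (Q * m).totient := by gcongr
          _ ≤ C2 * (2 * x) / (Q.totient * m.totient) := by
              apply div_le_div_of_nonneg_left (by positivity) (by positivity) hphi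
      have h9 : 4 * C2 * x / (Q.totient * Real.log x ^ 2) * (1 / (m.totient : ℝ)) *
          (1 / 2 * Real.log x ^ 2) = C2 * (2 * x) / (Q.totient * m.totient) := by
        field_simp
        ring
      rw [← h9] at h8
      exact le_of_mul_le_mul_right h8 (by positivity)
    refine (Finset.sum_le_sum h3).trans ?_
    rw [← Finset.mul_sum]
    set M := ⌊2 * (x : ℝ) ^ η⌋₊ with hM
    have hxη : 1 ≤ (x : ℝ) ^ η := Real.one_le_rpow (by linarith) hη.le
    have hM1 : 1 ≤ M := by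
      rw [hM]
      apply Nat.le_floor
      push_cast
      linarith
    have h10 : ∑ m ∈ (Icc 1 M).filter
        (fun m => (x : ℝ) ^ (1 - η) ≤ (((x + 1) / (Q * m) : ℕ) : ℝ)), 1 / (m.totient : ℝ) ≤
        CP * (3 * (η * Real.log x)) := by
      calc ∑ m ∈ (Icc 1 M).filter
              (fun m => (x : ℝ) ^ (1 - η) ≤ (((x + 1) / (Q * m) : ℕ) : ℝ)), 1 / (m.totient : ℝ)
          ≤ ∑ m ∈ Icc 1 M, 1 / (m.totient : ℝ) :=
            Finset.sum_le_sum_of_subset_of_nonneg (Finset.filter_subset _ _)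
              (fun _ _ _ => by positivity)
        _ ≤ CP * (1 + Real.log M) := hP M hM1
        _ ≤ CP * (3 * (η * Real.log x)) := by
            apply mul_le_mul_of_nonneg_left _ hCP.le
            have h11 : Real.log M ≤ Real.log 2 + η * Real.log x := by
              have h12 : (M : ℝ) ≤ 2 * (x : ℝ) ^ η := Nat.floor_le (by positivity)
              have h13 := Real.log_le_log (by exact_mod_cast hM1) h12
              rwa [Real.log_mul (by norm_num) (by positivity), Real.log_rpow hxp] at h13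
            have := Real.log_two_lt_d9
            linarith
    calc 4 * C2 * x / (Q.totient * Real.log x ^ 2) * (∑ m ∈ (Icc 1 M).filter
            (fun m => (x : ℝ) ^ (1 - η) ≤ (((x + 1) / (Q * m) : ℕ) : ℝ)), 1 / (m.totient : ℝ))
        ≤ 4 * C2 * x / (Q.totient * Real.log x ^ 2) * (CP * (3 * (η * Real.log x))) := by
          apply mul_le_mul_of_nonneg_left h10 (by positivity)
      _ = 12 * C2 * CP * η * x / (Q.totient * Real.log x) := by
          field_simp
          ring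
  calc _ ≤ 2 * Real.log x * ((∑ q ∈ PA x Q, (((q + 1).primeFactors.filter
        (fun p : ℕ => (x : ℝ) ^ (1 - η) < (p : ℝ))).card : ℕ) : ℕ) : ℝ) := hw
    _ ≤ 2 * Real.log x * (12 * C2 * CP * η * x / (Q.totient * Real.log x)) := by
        apply mul_le_mul_of_nonneg_left hcard (by positivity)
    _ = 24 * C2 * CP * η * x / Q.totient := by
        field_simp
        ring

end Pool.Agent.Work.MP_495a89_nm
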