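import Pool.Agent.Work.MP_495a89_nm.Interface

/-!
# Block LO: the lost mass
-/

set_option autoImplicit false

namespace Pool.Agent.Work.MP_495a89_nm

open Finset

namespace LOaux

theorem pow4_le {x Q : ℕ} {δ : ℝ} (hx : 1 ≤ x) (hδ : δ ≤ 1 / 4) (hQ : (Q : ℝ) ≤ (x : ℝ) ^ δ) :
    Q ^ 4 ≤ x := by
  have hx1 : (1 : ℝ) ≤ x := by exact_mod_cast hx
  have h1 : (Q : ℝ) ≤ (x : ℝ) ^ (1 / 4 : ℝ) := hQ.trans (Real.rpow_le_rpow_of_exponent_le hx1 hδ)
  have h2 : (Q : ℝ) ^ 4 ≤ ((x : ℝ) ^ (1 / 4 : ℝ)) ^ 4 := pow_le_pow_left₀ (Nat.cast_nonneg _) h1 4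
  have h3 : ((x : ℝ) ^ (1 / 4 : ℝ)) ^ 4 = x := by
    rw [← Real.rpow_natCast, ← Real.rpow_mul (by linarith)]
    norm_num
  rw [h3] at h2
  exact_mod_cast h2

open Classical in
theorem lost_le {Q z1 q x : ℕ} {E : Set ℕ} {η : ℝ} (hQ : 1 ≤ Q) (hd : Q ∣ q + 1) :
    lost Q z1 E q ≤
      (∑ l ∈ ((q + 1) / Q).primeFactors.filter (fun l => l ≤ z1), Real.log l) +
      (∑ l ∈ ((q + 1) / Q).primeFactors,
        ((((q + 1) / Q).factorization l - 1 : ℕ) : ℝ) * Real.log l) +
      (∑ p ∈ (q + 1).primeFactors.filter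
        (fun p => z1 < p ∧ (p : ℝ) ≤ (x : ℝ) ^ (1 - η) ∧ p ∈ E), Real.log p) +
      (∑ p ∈ (q + 1).primeFactors.filter (fun p : ℕ => (x : ℝ) ^ (1 - η) < (p : ℝ)),
        Real.log p) := by
  obtain ⟨m, hm⟩ := hd
  have hQ0 : 0 < Q := by omega
  have hm0 : m ≠ 0 := by
    rintro rfl
    omega
  have hdiv : (q + 1) / Q = m := by
    rw [hm]
    exact Nat.mul_div_cancel_left m hQ0
  rw [hdiv]
  have hlogp : ∀ p ∈ (q + 1).primeFactors, 0 ≤ Real.log p := fun p hp =>
    Real.log_nonneg (by exact_mod_cast (Nat.prime_of_mem_primeFactors hp).one_lt.le)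
  have e1 : Real.log (q + 1) - Real.log Q = Real.log m := by
    have h1 : ((q : ℝ) + 1) = Q * m := by exact_mod_cast hm
    rw [h1, Real.log_mul (by exact_mod_cast hQ0.ne') (by exact_mod_cast hm0)]
    ring
  have e2 : Real.log m = ∑ l ∈ m.primeFactors, (m.factorization l : ℝ) * Real.log l := by
    have h1 : (m : ℝ) = ((∏ p ∈ m.primeFactors, p ^ m.factorization p : ℕ) : ℝ) :=
      congrArg _ (Nat.prod_primeFactors_pow_factorization hm0)
    rw [h1, Nat.cast_prod, Real.log_prod]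
    · refine sum_congr rfl fun l _ => ?_
      rw [Nat.cast_pow, Real.log_pow]
    · intro l hl
      exact_mod_cast (pow_pos (Nat.prime_of_mem_primeFactors hl).pos _).ne'
  have e3 : ∑ l ∈ m.primeFactors, (m.factorization l : ℝ) * Real.log l =
      ∑ l ∈ m.primeFactors, ((m.factorization l - 1 : ℕ) : ℝ) * Real.log l +
        ∑ l ∈ m.primeFactors, Real.log l := by
    rw [← sum_add_distrib]
    refine sum_congr rfl fun l hl => ?_
    have h1 : 1 ≤ m.factorization l :=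
      (Nat.prime_of_mem_primeFactors hl).factorization_pos_of_dvd hm0
        (Nat.dvd_of_mem_primeFactors hl)
    rw [Nat.cast_sub h1]
    push_cast
    ring
  have e4 : ∑ l ∈ m.primeFactors, Real.log l =
      ∑ l ∈ m.primeFactors.filter (fun l => l ≤ z1), Real.log l +
        ∑ l ∈ m.primeFactors.filter (fun l => ¬ l ≤ z1), Real.log l :=
    (sum_filter_add_sum_filter_not _ _ _).symm
  have h5 : ∑ l ∈ m.primeFactors.filter (fun l => ¬ l ≤ z1), Real.log (l : ℝ) ≤
      ∑ p ∈ (q + 1).primeFactors.filter (fun p => z1 < p), Real.log (p : ℝ) := by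
    refine sum_le_sum_of_subset_of_nonneg ?_ fun p hp _ => hlogp p (mem_filter.1 hp).1
    intro l hl
    obtain ⟨h1, h2⟩ := mem_filter.1 hl
    refine mem_filter.2 ⟨Nat.mem_primeFactors.2 ⟨Nat.prime_of_mem_primeFactors h1, ?_, by omega⟩,
      by omega⟩
    rw [hm]
    exact (Nat.dvd_of_mem_primeFactors h1).mul_left Q
  have e6 : ∑ p ∈ (q + 1).primeFactors.filter (fun p => z1 < p), Real.log (p : ℝ) =
      ∑ p ∈ (q + 1).primeFactors.filter (fun p => z1 < p ∧ p ∉ E), Real.log (p : ℝ) +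
        ∑ p ∈ (q + 1).primeFactors.filter (fun p => z1 < p ∧ p ∈ E), Real.log (p : ℝ) := by
    rw [← sum_filter_add_sum_filter_not _ (fun p => p ∉ E), filter_filter, filter_filter]
    simp only [not_not]
  have h7 : ∑ p ∈ (q + 1).primeFactors.filter (fun p => z1 < p ∧ p ∈ E), Real.log (p : ℝ) ≤
      (∑ p ∈ (q + 1).primeFactors.filter
        (fun p => z1 < p ∧ (p : ℝ) ≤ (x : ℝ) ^ (1 - η) ∧ p ∈ E), Real.log (p : ℝ)) +
      (∑ p ∈ (q + 1).primeFactors.filter (fun p : ℕ => (x : ℝ) ^ (1 - η) < (p : ℝ)),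
        Real.log (p : ℝ)) := by
    rw [← sum_filter_add_sum_filter_not _ (fun p : ℕ => (p : ℝ) ≤ (x : ℝ) ^ (1 - η)),
      filter_filter, filter_filter]
    refine add_le_add (le_of_eq (sum_congr ?_ fun _ _ => rfl)) ?_
    · refine filter_congr fun p _ => ?_
      tauto
    · refine sum_le_sum_of_subset_of_nonneg ?_ fun p hp _ => hlogp p (mem_filter.1 hp).1
      intro p hp
      obtain ⟨h1, h2⟩ := mem_filter.1 hp
      exact mem_filter.2 ⟨h1, not_le.1 h2.2⟩
  unfold lost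
  rw [e1, e2, e3, e4]
  linarith

end LOaux

open LOaux

theorem stmt_LO (hLA : Stmt_LA) (hLB : Stmt_LB) (hLC : Stmt_LC) (hLD : Stmt_LD) : Stmt_LO := by
  classical
  obtain ⟨CA, hCA, xA, hA⟩ := hLA
  obtain ⟨CB, hCB, xB, hB⟩ := hLB
  obtain ⟨CC, hCC, hC⟩ := hLC
  obtain ⟨CD, hCD, hD⟩ := hLD
  intro κ hκ
  set η : ℝ := min (1 / 4) (κ / (4 * CD)) with hη
  have hη0 : 0 < η := lt_min (by norm_num) (by positivity)
  have hη1 : η ≤ 1 / 4 := min_le_left _ _
  have hη2 : CD * η ≤ κ / 4 := by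
    have h1 : η ≤ κ / (4 * CD) := min_le_right _ _
    calc CD * η ≤ CD * (κ / (4 * CD)) := mul_le_mul_of_nonneg_left h1 hCD.le
      _ = κ / 4 := by field_simp
  obtain ⟨xC, hC⟩ := hC η hη0 (by linarith)
  obtain ⟨xD, hD⟩ := hD η hη0 hη1
  set e : ℝ := κ * η / (4 * CC) with he
  have he0 : 0 < e := by positivity
  set δ : ℝ := min (κ / (8 * CA)) (η / 2) with hδ
  have hδ0 : 0 < δ := lt_min (by positivity) (by positivity)
  have hδ1 : δ ≤ η / 2 := min_le_right _ _
  have hδ2 : CA * δ ≤ κ / 8 := by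
    have h1 : δ ≤ κ / (8 * CA) := min_le_left _ _
    calc CA * δ ≤ CA * (κ / (8 * CA)) := mul_le_mul_of_nonneg_left h1 hCA.le
      _ = κ / 8 := by field_simp
  set T : ℝ := 16 * (CA + CB) / κ with hT
  have hT0 : 0 < T := by positivity
  refine ⟨e, he0, δ, hδ0, max (max (max xA xB) (max xC xD)) (max 2 ⌈Real.exp T⌉₊), ?_⟩
  intro x hx Q z1 E hQ hz1 hQx hzx hpQ hE
  have hxA : xA ≤ x := (le_max_left _ _).trans ((le_max_left _ _).trans ((le_max_left _ _).trans hx))
  have hxB : xB ≤ x := (le_max_right _ _).trans ((le_max_left _ _).trans ((le_max_left _ _).trans hx))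
  have hxC : xC ≤ x := (le_max_left _ _).trans ((le_max_right _ _).trans ((le_max_left _ _).trans hx))
  have hxD : xD ≤ x := (le_max_right _ _).trans ((le_max_right _ _).trans ((le_max_left _ _).trans hx))
  have hx2 : 2 ≤ x := (le_max_left _ _).trans ((le_max_right _ _).trans hx)
  have hxT : Real.exp T ≤ x := by
    have h1 : ⌈Real.exp T⌉₊ ≤ x := (le_max_right _ _).trans ((le_max_right _ _).trans hx)
    exact (Nat.le_ceil _).trans (by exact_mod_cast h1)
  have hx1 : (1 : ℝ) ≤ x := by exact_mod_cast (by omega : 1 ≤ x)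
  have hlog : T ≤ Real.log x := by
    rw [← Real.log_exp T]
    exact Real.log_le_log (Real.exp_pos _) hxT
  have hlog0 : 0 < Real.log x := hT0.trans_le hlog
  have hQ4 : Q ^ 4 ≤ x := pow4_le (by omega) (by linarith) hQx
  have hz4 : z1 ^ 4 ≤ x := pow4_le (by omega) (by linarith) hzx
  have hzx' : z1 ≤ x := by
    have h1 : z1 ≤ z1 ^ 4 := Nat.le_self_pow (by norm_num) z1
    omega
  have hR : 0 ≤ (x : ℝ) / Q.totient := by positivity
  have h1 := hA x hxA Q z1 hQ (by omega) hQ4 hz4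
  have h2 := hB x hxB Q hQ hQ4
  have h3 := hC x hxC e he0.le Q z1 E hQ hz1 hzx'
    (hQx.trans (Real.rpow_le_rpow_of_exponent_le hx1 hδ1)) hpQ hE
  have h4 := hD x hxD Q hQ hQ4
  have h5 : ∑ q ∈ PA x Q, lost Q z1 E q ≤
      (∑ q ∈ PA x Q, ∑ l ∈ ((q + 1) / Q).primeFactors.filter (fun l => l ≤ z1), Real.log l) +
      (∑ q ∈ PA x Q, ∑ l ∈ ((q + 1) / Q).primeFactors,
        ((((q + 1) / Q).factorization l - 1 : ℕ) : ℝ) * Real.log l) +
      (∑ q ∈ PA x Q, ∑ p ∈ (q + 1).primeFactors.filter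
        (fun p => z1 < p ∧ (p : ℝ) ≤ (x : ℝ) ^ (1 - η) ∧ p ∈ E), Real.log p) +
      (∑ q ∈ PA x Q, ∑ p ∈ (q + 1).primeFactors.filter
        (fun p : ℕ => (x : ℝ) ^ (1 - η) < (p : ℝ)), Real.log p) := by
    rw [← sum_add_distrib, ← sum_add_distrib, ← sum_add_distrib]
    refine sum_le_sum fun q hq => ?_
    exact lost_le hQ (mem_filter.1 hq).2.2
  obtain ⟨S1, hS1⟩ : ∃ S, S = ∑ q ∈ PA x Q,
    ∑ l ∈ ((q + 1) / Q).primeFactors.filter (fun l => l ≤ z1), Real.log (l : ℝ) := ⟨_, rfl⟩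
  obtain ⟨S2, hS2⟩ : ∃ S, S = ∑ q ∈ PA x Q, ∑ l ∈ ((q + 1) / Q).primeFactors,
        ((((q + 1) / Q).factorization l - 1 : ℕ) : ℝ) * Real.log (l : ℝ) := ⟨_, rfl⟩
  rw [← hS1] at h1 h5
  rw [← hS2] at h2 h5
  obtain ⟨R, hRd⟩ : ∃ R, R = (x : ℝ) / Q.totient := ⟨_, rfl⟩
  have g1 : S1 ≤ κ / 4 * R := by
    have k1 : S1 * Real.log x ≤ CA * (1 + Real.log z1) * R := by
      rw [hRd, ← mul_div_assoc]
      exact h1
    have k2 : Real.log z1 ≤ δ * Real.log x := by
      rw [← Real.log_rpow (by linarith)]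
      exact Real.log_le_log (by exact_mod_cast (by omega : 0 < z1)) hzx
    have k3 : CA * (1 + Real.log z1) ≤ κ / 4 * Real.log x := by
      have k4 : CA ≤ κ / 16 * Real.log x := by
        have k5 : κ / 16 * T = CA + CB := by rw [hT]; field_simp
        have k6 : κ / 16 * T ≤ κ / 16 * Real.log x :=
          mul_le_mul_of_nonneg_left hlog (by positivity)
        linarith
      have k7 : CA * Real.log z1 ≤ κ / 8 * Real.log x := by
        calc CA * Real.log z1 ≤ CA * (δ * Real.log x) := mul_le_mul_of_nonneg_left k2 hCA.le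
          _ = CA * δ * Real.log x := by ring
          _ ≤ κ / 8 * Real.log x := mul_le_mul_of_nonneg_right hδ2 hlog0.le
      have k8 : CA * (1 + Real.log z1) = CA + CA * Real.log z1 := by ring
      rw [k8]
      have k9 : 0 ≤ κ * Real.log x := by positivity
      linarith
    have k10 : S1 * Real.log x ≤ κ / 4 * R * Real.log x := by
      calc S1 * Real.log x ≤ CA * (1 + Real.log z1) * R := k1
        _ ≤ κ / 4 * Real.log x * R := mul_le_mul_of_nonneg_right k3 (by rw [hRd]; exact hR)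
        _ = _ := by ring
    exact le_of_mul_le_mul_right k10 hlog0
  have g2 : S2 ≤ κ / 16 * R := by
    have k1 : S2 * Real.log x ≤ CB * R := by
      rw [hRd, ← mul_div_assoc]
      exact h2
    have k4 : CB ≤ κ / 16 * Real.log x := by
      have k5 : κ / 16 * T = CA + CB := by rw [hT]; field_simp
      have k6 : κ / 16 * T ≤ κ / 16 * Real.log x :=
        mul_le_mul_of_nonneg_left hlog (by positivity)
      linarith
    have k10 : S2 * Real.log x ≤ κ / 16 * R * Real.log x := by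
      calc S2 * Real.log x ≤ CB * R := k1
        _ ≤ κ / 16 * Real.log x * R := mul_le_mul_of_nonneg_right k4 (by rw [hRd]; exact hR)
        _ = _ := by ring
    exact le_of_mul_le_mul_right k10 hlog0
  have g3 : CC * e / η * x / Q.totient = κ / 4 * R := by
    rw [hRd, he]
    field_simp
  have g4 : CD * η * x / Q.totient ≤ κ / 4 * R := by
    rw [hRd]
    calc CD * η * x / Q.totient = CD * η * (x / Q.totient) := by ring
      _ ≤ κ / 4 * (x / Q.totient) := mul_le_mul_of_nonneg_right hη2 hR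
  have g5 : κ * x / Q.totient = κ * R := by
    rw [hRd]
    ring
  have hR0 : 0 ≤ κ * R := by
    rw [hRd]
    positivity
  rw [g3] at h3
  rw [g5]
  linarith

end Pool.Agent.Work.MP_495a89_nm
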