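import Pool.Agent.Work.MP_495a89_nm.InterfaceW
import Pool.Agent.Work.MP_b0c12c_nt_helper6.GaussPnt

/-!
Block LW: many primes `≡ -1` modulo `QQ F Z p0`.
-/

set_option autoImplicit false

namespace Pool.Agent.Work.MP_495a89_nm

open Finset Filter ArithmeticFunction Chebyshev
open Pool.Agent.Work.MP_b0c12c_nt.Assem (wt wt_pos term_nonneg)

namespace LWaux

theorem exp_half : (6 / 10 : ℝ) ≤ Real.exp (-(1 / 2)) := by
  by_contra h
  push Not at h
  have h1 : Real.exp (-(1 / 2)) * Real.exp (-(1 / 2)) = (Real.exp 1)⁻¹ := by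
    rw [← Real.exp_add, ← Real.exp_neg]; norm_num
  have h2 := Real.exp_one_lt_d9
  have h3 : (0.36 : ℝ) < (Real.exp 1)⁻¹ := by
    rw [lt_inv_comm₀ (by norm_num) (Real.exp_pos _)]
    norm_num
    linarith
  have h4 := Real.exp_pos (-(1 / 2))
  nlinarith

theorem gauss_lower : ∃ Y1 : ℝ, ∀ Y : ℝ, Y1 ≤ Y →
    (Summable fun n : ℕ => Λ n * wt 1 Y n) →
    3 / 10 * Y ≤ ∑' n : ℕ, Λ n * wt 1 Y n := by
  obtain ⟨C, hC, hψ⟩ := Pool.Agent.Work.MP_b0c12c_nt_helper6.GPnt.psi_approx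
    (η := 1 / 20) (by norm_num)
  refine ⟨max 1 (40 * C), fun Y hY hs => ?_⟩
  have hY1 : 1 ≤ Y := (le_max_left _ _).trans hY
  have hYC : 40 * C ≤ Y := (le_max_right _ _).trans hY
  have hY0 : 0 < Y := by linarith
  set X := Y / Real.exp 1 with hX
  have he := Real.exp_one_gt_d9
  have hX0 : 0 < X := by positivity
  have hXY : X ≤ 0.3679 * Y := by
    rw [hX, div_le_iff₀ (Real.exp_pos _)]
    nlinarith
  have hXle : X ≤ Y := by nlinarith
  have h1 := hψ Y hY0.le
  have h2 := hψ X hX0.le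
  rw [abs_le] at h1 h2
  have h3 : ∑ n ∈ Ioc ⌊X⌋₊ ⌊Y⌋₊, Λ n = psi Y - psi X := by
    unfold psi
    rw [← Finset.sum_Ioc_consecutive _ (Nat.zero_le _) (Nat.floor_le_floor hXle)]
    ring
  have h4 : ∑ n ∈ Ioc ⌊X⌋₊ ⌊Y⌋₊, Λ n * wt 1 Y n ≤ ∑' n : ℕ, Λ n * wt 1 Y n :=
    hs.sum_le_tsum _ (fun n _ => term_nonneg 1 Y n)
  have h5 : 6 / 10 * ∑ n ∈ Ioc ⌊X⌋₊ ⌊Y⌋₊, Λ n ≤ ∑ n ∈ Ioc ⌊X⌋₊ ⌊Y⌋₊, Λ n * wt 1 Y n := by
    rw [Finset.mul_sum]
    refine Finset.sum_le_sum fun n hn => ?_
    rw [Finset.mem_Ioc] at hn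
    have hn1 : X < n := Nat.lt_of_floor_lt hn.1
    have hn2 : (n : ℝ) ≤ Y := (Nat.le_floor_iff hY0.le).1 hn.2
    have hn0 : (0 : ℝ) < n := hX0.trans hn1
    rw [mul_comm]
    apply mul_le_mul_of_nonneg_left _ vonMangoldt_nonneg
    refine exp_half.trans ?_
    unfold wt
    apply Real.exp_le_exp.2
    have e1 : Real.log (n / Y) ≤ 0 := Real.log_nonpos (by positivity) (by
      rw [div_le_one hY0]; exact hn2)
    have e2 : -1 ≤ Real.log (n / Y) := by
      rw [Real.le_log_iff_exp_le (by positivity), Real.exp_neg, le_div_iff₀ hY0, ← div_eq_inv_mul]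
      exact hn1.le
    have e3 : Real.log (n / Y) ^ 2 ≤ 1 := by nlinarith
    norm_num
    linarith
  rw [h3] at h5
  nlinarith

/-- the class sum up to `x` is bounded by the primes -/
theorem class_le {x Q c : ℕ} (hQ : Q = c + 1) :
    ∑ n ∈ (Ioc 0 x).filter (fun n => n ≡ c [MOD Q]), Λ n ≤
      ((PA x Q).card : ℝ) * Real.log x + (psi x - theta x) := by
  classical
  have hmod : ∀ n : ℕ, n ≡ c [MOD Q] ↔ Q ∣ n + 1 := by
    intro n
    subst hQ
    constructor
    · intro h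
      have h2 : n + 1 ≡ c + 1 [MOD (c + 1)] := h.add_right 1
      exact (Nat.modEq_zero_iff_dvd).1 (h2.trans ((Nat.modEq_zero_iff_dvd).2 dvd_rfl))
    · intro h
      have h2 : n + 1 ≡ c + 1 [MOD (c + 1)] :=
        ((Nat.modEq_zero_iff_dvd).2 h).trans ((Nat.modEq_zero_iff_dvd).2 dvd_rfl).symm
      exact Nat.ModEq.add_right_cancel' 1 h2
  have hsub : psi x - theta x = ∑ n ∈ (Ioc 0 x).filter (fun n => ¬ n.Prime), Λ n := by
    unfold psi theta
    rw [Nat.floor_natCast, ← Finset.sum_filter_add_sum_filter_not (Ioc 0 x) Nat.Prime]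
    have : ∑ n ∈ (Ioc 0 x).filter Nat.Prime, Λ n = ∑ p ∈ (Ioc 0 x).filter Nat.Prime, Real.log p :=
      Finset.sum_congr rfl fun p hp => vonMangoldt_apply_prime (Finset.mem_filter.1 hp).2
    rw [this]
    ring
  rw [hsub, ← Finset.sum_filter_add_sum_filter_not
    ((Ioc 0 x).filter (fun n => n ≡ c [MOD Q])) Nat.Prime]
  apply add_le_add
  · rw [← nsmul_eq_mul]
    have hset : ((Ioc 0 x).filter (fun n => n ≡ c [MOD Q])).filter Nat.Prime = PA x Q := by
      ext n
      simp only [PA, Finset.mem_filter, Finset.mem_Ioc, Finset.mem_Icc, hmod]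
      constructor
      · rintro ⟨⟨⟨h1, h2⟩, h3⟩, h4⟩
        exact ⟨⟨h1, h2⟩, h4, h3⟩
      · rintro ⟨⟨h1, h2⟩, h4, h3⟩
        exact ⟨⟨⟨h1, h2⟩, h3⟩, h4⟩
    rw [hset]
    refine Finset.sum_le_card_nsmul _ _ _ fun p hp => ?_
    simp only [PA, Finset.mem_filter, Finset.mem_Icc] at hp
    rw [vonMangoldt_apply_prime hp.2.1]
    exact Real.log_le_log (by exact_mod_cast hp.2.1.pos) (by exact_mod_cast hp.1.2)
  · apply Finset.sum_le_sum_of_subset_of_nonneg
    · intro n hn
      rw [Finset.mem_filter, Finset.mem_filter] at hn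
      rw [Finset.mem_filter]
      exact ⟨hn.1.1, hn.2⟩
    · intro _ _ _
      exact vonMangoldt_nonneg

/-- the weights beyond `x` -/
theorem wt_tail {x n : ℕ} (hx : 1 ≤ x) (hn : x < n) :
    wt 1 (Real.exp (Real.log x - 5)) n ≤
      Real.exp (-(25 / 2)) * wt 1 (Real.exp (Real.log x)) n := by
  have hx0 : (0 : ℝ) < x := by exact_mod_cast hx
  have hxn : (x : ℝ) < n := by exact_mod_cast hn
  have hn0 : (0 : ℝ) < n := hx0.trans hxn
  have hl : Real.log x ≤ Real.log n := Real.log_le_log hx0 hxn.le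
  unfold wt
  rw [← Real.exp_add, Real.log_div hn0.ne' (Real.exp_pos _).ne',
    Real.log_div hn0.ne' (Real.exp_pos _).ne', Real.log_exp, Real.log_exp]
  apply Real.exp_le_exp.2
  have : (Real.log n - Real.log x) ^ 2 + 25 ≤ (Real.log n - (Real.log x - 5)) ^ 2 := by nlinarith
  norm_num
  linarith

theorem wt_le_one (Y : ℝ) (n : ℕ) : wt 1 Y n ≤ 1 := by
  unfold wt
  apply Real.exp_le_one_iff.2
  apply div_nonpos_of_nonpos_of_nonneg
  · have := sq_nonneg (Real.log (n / Y))
    linarith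
  · positivity

theorem gauss_const : (1 + 1 / 10) * (1 * Real.sqrt (2 * Real.pi) * Real.exp (1 ^ 2 / 2)) ≤ 4.9 := by
  have h1 : Real.sqrt (2 * Real.pi) ≤ 2.51 := by
    rw [Real.sqrt_le_left (by norm_num)]
    have := Real.pi_lt_d2
    norm_num
    linarith
  have h2 : Real.exp (1 ^ 2 / 2) ≤ 1.65 := by
    by_contra h
    push Not at h
    have h1 : Real.exp (1 ^ 2 / 2) * Real.exp (1 ^ 2 / 2) = Real.exp 1 := by
      rw [← Real.exp_add]; norm_num
    have h2 := Real.exp_one_lt_d9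
    nlinarith
  have h3 := Real.sqrt_nonneg (2 * Real.pi)
  have h4 := Real.exp_pos (1 ^ 2 / 2)
  have h5 : Real.sqrt (2 * Real.pi) * Real.exp (1 ^ 2 / 2) ≤ 2.51 * 1.65 := by gcongr
  linarith

theorem exp_small : Real.exp (-(25 / 2)) * (5 * Real.exp 5) ≤ 1 / 100 := by
  have h1 : Real.exp (-(25 / 2)) * (5 * Real.exp 5) = 5 * Real.exp (-(15 / 2)) := by
    rw [mul_left_comm, ← Real.exp_add]; norm_num
  rw [h1]
  have h2 : Real.exp (-(15 / 2)) ≤ Real.exp (-7) := Real.exp_le_exp.2 (by norm_num)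
  have h3 : Real.exp (-7) ≤ 1 / 500 := by
    rw [Real.exp_neg, inv_le_comm₀ (Real.exp_pos _) (by norm_num)]
    have h4 : Real.exp 7 = Real.exp 1 ^ 7 := by rw [← Real.exp_nat_mul]; norm_num
    rw [h4]
    have h5 := Real.exp_one_gt_d9
    have h6 : (2.7 : ℝ) ^ 7 ≤ Real.exp 1 ^ 7 := by gcongr; linarith
    refine le_trans ?_ h6
    norm_num
  linarith

theorem Q_facts {F Z p0 : ℕ} (hF : 1 ≤ F) (hp0 : p0 = 0 ∨ (p0.Prime ∧ F < p0)) :
    1 ≤ QQ F Z p0 ∧ Adm F (QQ F Z p0) ∧ ¬ p0 ∣ QQ F Z p0 ∧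
      ((QQ F Z p0 : ℕ) : ℝ) ≤ F * 4 ^ Z := by
  classical
  have hsub : ∏ p ∈ ((Icc 1 Z).filter Nat.Prime).erase p0, p ∣ primorial Z := by
    rw [primorial]
    apply Finset.prod_dvd_prod_of_subset
    intro p hp
    rw [Finset.mem_erase, Finset.mem_filter, Finset.mem_Icc] at hp
    rw [Finset.mem_filter, Finset.mem_range]
    exact ⟨by omega, hp.2.2⟩
  have hpos : 0 < ∏ p ∈ ((Icc 1 Z).filter Nat.Prime).erase p0, p :=
    Nat.pos_of_dvd_of_pos hsub (primorial_pos Z)
  have hQ1 : 1 ≤ QQ F Z p0 := Nat.mul_pos (by omega) hpos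
  refine ⟨hQ1, ⟨_, (squarefree_primorial Z).squarefree_of_dvd hsub, dvd_rfl⟩, ?_, ?_⟩
  · rcases hp0 with rfl | ⟨hp, hpF⟩
    · intro hd
      have h0 := Nat.eq_zero_of_zero_dvd hd
      omega
    · intro hd
      rcases (Nat.Prime.dvd_mul hp).1 hd with h | h
      · have := Nat.le_of_dvd (by omega) h
        omega
      · obtain ⟨r, hr, hpr⟩ := (Prime.dvd_finsetProd_iff hp.prime _).1 h
        rw [Finset.mem_erase, Finset.mem_filter, Finset.mem_Icc] at hr
        exact hr.1 ((Nat.prime_dvd_prime_iff_eq hp hr.2.2).1 hpr).symm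
  · have h1 : QQ F Z p0 ≤ F * 4 ^ Z :=
      Nat.mul_le_mul_left _ ((Nat.le_of_dvd (primorial_pos Z) hsub).trans
        (primorial_le_four_pow Z))
    exact_mod_cast h1

end LWaux

open LWaux

theorem stmt_LW (hE : Stmt_EXF) (hP : Stmt_PNF) : Stmt_LW := by
  classical
  intro κ hκ hκ1 F K hF
  obtain ⟨z1, hz1⟩ := hE F hF (κ / 2) (by linarith) (max K F)
  obtain ⟨z2, hz2⟩ := hP F hF κ 3 1 hκ one_pos le_rfl (max K F)
  obtain ⟨Y0, hY0⟩ := Pool.Agent.Work.MP_b0c12c_nt_helper6.GPnt.gaussPnt 1 one_pos (1 / 10)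
    (by norm_num)
  obtain ⟨Y1, hY1⟩ := gauss_lower
  obtain ⟨C, hC⟩ := psi_sub_theta_le_mul_sqrt
  have hcast : Tendsto (fun Z : ℕ => (Z : ℝ)) atTop atTop := tendsto_natCast_atTop_atTop
  have hl4 : Real.log 4 < 1.4 := by
    have h1 : Real.log 4 = 2 * Real.log 2 := by
      rw [show (4 : ℝ) = 2 ^ 2 by norm_num, Real.log_pow]; norm_num
    have := Real.log_two_lt_d9
    rw [h1]; linarith
  have ev : ∀ᶠ Z : ℕ in atTop, ((100 : ℝ) ≤ Z ∧ 2 * max Y0 Y1 ≤ Z) ∧ (4 : ℝ) ≤ (Z : ℝ) ^ κ ∧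
      (F : ℝ) ≤ Real.exp (1 / 10 * Z) ∧ |C| * Real.exp (-(1 / 2 * Z)) ≤ Real.exp (-5) / 10 := by
    have e3 : Tendsto (fun Z : ℕ => Real.exp (1 / 10 * (Z : ℝ))) atTop atTop :=
      Real.tendsto_exp_atTop.comp (Tendsto.const_mul_atTop (by norm_num) hcast)
    have e4 : Tendsto (fun Z : ℕ => |C| * Real.exp (-(1 / 2 * (Z : ℝ)))) atTop (nhds (|C| * 0)) := by
      apply Tendsto.const_mul
      exact Real.tendsto_exp_neg_atTop_nhds_zero.comp (Tendsto.const_mul_atTop (by norm_num) hcast)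
    rw [mul_zero] at e4
    filter_upwards [hcast.eventually_ge_atTop 100, hcast.eventually_ge_atTop (2 * max Y0 Y1),
      ((tendsto_rpow_atTop hκ).comp hcast).eventually_ge_atTop 4, e3.eventually_ge_atTop (F : ℝ),
      e4.eventually_le_const (show (0 : ℝ) < Real.exp (-5) / 10 by positivity)]
      with Z a1 a2 a3 a4 a5
    exact ⟨⟨a1, a2⟩, a3, a4, a5⟩
  obtain ⟨z3, hz3⟩ := eventually_atTop.1 ev
  refine ⟨Real.exp (-5) / 10, by positivity, max z1 (max z2 z3), fun Z hZ => ?_⟩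
  obtain ⟨⟨hZ100, hZY⟩, hZκ, hZF, hZC⟩ := hz3 Z ((le_max_right _ _).trans ((le_max_right _ _).trans hZ))
  obtain ⟨p0, hG⟩ := hz1 Z ((le_max_left _ _).trans hZ)
  have hz2' := hz2 Z ((le_max_left _ _).trans ((le_max_right _ _).trans hZ)) p0 hG
  have hp0F : p0 = 0 ∨ (p0.Prime ∧ F < p0) :=
    hG.1.imp_right fun h => ⟨h.1, (le_max_right _ _).trans_lt h.2⟩
  refine ⟨p0, hG.1.imp_right fun h => ⟨h.1, (le_max_left _ _).trans_lt h.2⟩, fun x hx1 hx2 => ?_⟩
  obtain ⟨hQ1, hQA, hQp, hQle⟩ := Q_facts (Z := Z) hF hp0F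
  set Q := QQ F Z p0 with hQdef
  have hZ0 : (0 : ℝ) < Z := by linarith
  have hQexp : (Q : ℝ) ≤ Real.exp (3 / 2 * Z) := by
    refine hQle.trans ?_
    have h1 : (4 : ℝ) ^ Z = Real.exp (Real.log 4 * Z) := by
      rw [mul_comm, Real.exp_nat_mul, Real.exp_log (by norm_num)]
    rw [h1]
    calc (F : ℝ) * Real.exp (Real.log 4 * Z) ≤ Real.exp (1 / 10 * Z) * Real.exp (Real.log 4 * Z) := by
          gcongr
      _ = Real.exp ((1 / 10 + Real.log 4) * Z) := by rw [← Real.exp_add]; ring_nf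
      _ ≤ Real.exp (3 / 2 * Z) := by
          apply Real.exp_le_exp.2
          apply mul_le_mul_of_nonneg_right _ hZ0.le
          linarith
  have hZpow : (Z : ℝ) ^ (1 + κ) = Z * (Z : ℝ) ^ κ := by rw [Real.rpow_add hZ0, Real.rpow_one]
  have hlogx : 4 * (Z : ℝ) ≤ Real.log x := by
    refine le_trans ?_ hx1
    rw [hZpow]
    nlinarith
  have hx0 : x ≠ 0 := by
    rintro rfl
    rw [Nat.cast_zero, Real.log_zero] at hlogx
    linarith
  have hx1' : 1 ≤ x := Nat.one_le_iff_ne_zero.2 hx0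
  have hxp : (0 : ℝ) < x := by exact_mod_cast hx1'
  have hexpl : Real.exp (Real.log x) = x := Real.exp_log hxp
  obtain ⟨c, hc⟩ : ∃ c, Q = c + 1 := ⟨Q - 1, by omega⟩
  have hcop : c.Coprime Q := by rw [hc]; simp
  have hup3 : Real.log x ≤ 2 * (Z : ℝ) ^ (3 : ℝ) := by
    refine hx2.trans ?_
    have h1 : (Z : ℝ) ^ (1 + 2 * κ) ≤ (Z : ℝ) ^ (3 : ℝ) :=
      Real.rpow_le_rpow_of_exponent_le (by linarith) (by linarith)
    have h2 : 0 < (Z : ℝ) ^ (3 : ℝ) := Real.rpow_pos_of_pos hZ0 _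
    linarith
  have hphi : (0 : ℝ) < Q.totient := by exact_mod_cast Nat.totient_pos.2 (by omega)
  have hphiQ : (Q.totient : ℝ) ≤ Q := by exact_mod_cast Nat.totient_le Q
  have hhalf : (Z : ℝ) ^ (1 + κ) / 2 ≤ Real.log x - 5 := by
    have h1 : 400 ≤ (Z : ℝ) ^ (1 + κ) := by rw [hZpow]; nlinarith
    linarith
  obtain ⟨hs1, hA⟩ := hz2' Q hQ1 hQA hQexp hQp c hcop (Real.log x - 5) hhalf (by linarith)
  obtain ⟨hs2, hB⟩ := hz2' Q hQ1 hQA hQexp hQp c hcop (Real.log x) (by linarith) hup3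
  set l := Real.log x - 5 with hl
  have hel : Real.exp (Real.log x) = Real.exp 5 * Real.exp l := by
    rw [← Real.exp_add, hl]; congr 1; ring
  have hl1 : 2 * (Z : ℝ) ≤ l := by rw [hl]; linarith
  have hEl : max Y0 Y1 ≤ Real.exp l := by
    have := Real.add_one_le_exp l
    linarith
  have hElx : max Y0 Y1 ≤ Real.exp (Real.log x) := by
    refine hEl.trans (Real.exp_le_exp.2 ?_)
    rw [hl]; linarith
  have hlow := hY1 (Real.exp l) ((le_max_right _ _).trans hEl) hs1
  have hupp := (hY0 (Real.exp (Real.log x)) ((le_max_left _ _).trans hElx)).2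
  have hupp' : ∑' n : ℕ, Λ n * wt 1 (Real.exp (Real.log x)) n ≤ 4.9 * Real.exp (Real.log x) := by
    refine le_trans hupp ?_
    exact mul_le_mul_of_nonneg_right gauss_const (Real.exp_pos _).le
  have hZinv : (Z : ℝ)⁻¹ ≤ 1 / 100 := by
    rw [inv_le_comm₀ hZ0 (by norm_num)]
    norm_num
    exact_mod_cast hZ100
  set f : ℕ → ℝ := fun n => if n ≡ c [MOD Q] then Λ n * wt 1 (Real.exp l) n else 0 with hf
  set g : ℕ → ℝ := fun n => if n ≡ c [MOD Q] then Λ n * wt 1 (Real.exp (Real.log x)) n else 0 with hg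
  have hfs : Summable f := by
    refine Summable.of_nonneg_of_le (fun n => ?_) (fun n => ?_) hs1
    · simp only [hf]; split_ifs
      · exact term_nonneg _ _ n
      · exact le_rfl
    · simp only [hf]; split_ifs
      · exact le_rfl
      · exact term_nonneg _ _ n
  have hgs : Summable g := by
    refine Summable.of_nonneg_of_le (fun n => ?_) (fun n => ?_) hs2
    · simp only [hg]; split_ifs
      · exact term_nonneg _ _ n
      · exact le_rfl
    · simp only [hg]; split_ifs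
      · exact le_rfl
      · exact term_nonneg _ _ n
  have hA1 : (29 / 100) * Real.exp l / Q.totient ≤ ∑' n, f n := by
    have h1 := (abs_le.1 hA).1
    have h2 : 3 / 10 * Real.exp l / Q.totient ≤
        (∑' n : ℕ, Λ n * wt 1 (Real.exp l) n) / Q.totient := by gcongr
    have h3 : (Z : ℝ)⁻¹ * Real.exp l / Q.totient ≤ 1 / 100 * Real.exp l / Q.totient := by gcongr
    have h4 : (29 / 100) * Real.exp l / Q.totient =
        3 / 10 * Real.exp l / Q.totient - 1 / 100 * Real.exp l / Q.totient := by ring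
    rw [h4]
    linarith
  have hB1 : ∑' n, g n ≤ 5 * Real.exp 5 * Real.exp l / Q.totient := by
    have h1 := (abs_le.1 hB).2
    have h2 : (∑' n : ℕ, Λ n * wt 1 (Real.exp (Real.log x)) n) / Q.totient ≤
      4.9 * Real.exp (Real.log x) / Q.totient := by gcongr
    have h3 : (Z : ℝ)⁻¹ * Real.exp (Real.log x) / Q.totient ≤
      0.1 * Real.exp (Real.log x) / Q.totient := by gcongr; linarith
    have h4 : 5 * Real.exp 5 * Real.exp l / Q.totient =
      4.9 * Real.exp (Real.log x) / Q.totient + 0.1 * Real.exp (Real.log x) / Q.totient := by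
      rw [hel]; ring
    rw [h4]
    linarith
  -- pointwise bound
  set S := (Ioc 0 x).filter (fun n => n ≡ c [MOD Q]) with hS
  have hpt : ∀ n, f n ≤ (if n ∈ S then Λ n else 0) + Real.exp (-(25 / 2)) * g n := by
    intro n
    have hg0 : 0 ≤ g n := by
      simp only [hg]; split_ifs
      · exact term_nonneg _ _ n
      · exact le_rfl
    have hi0 : (0 : ℝ) ≤ if n ∈ S then Λ n else 0 := by
      split_ifs
      · exact vonMangoldt_nonneg
      · exact le_rfl
    by_cases hnc : n ≡ c [MOD Q]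
    swap
    · have : f n = 0 := by simp only [hf]; rw [if_neg hnc]
      rw [this]
      have := mul_nonneg (Real.exp_pos (-(25 / 2))).le hg0
      linarith
    by_cases hnx : n ≤ x
    · rcases Nat.eq_zero_or_pos n with hn | hn
      · have : f n = 0 := by
          simp only [hf]; rw [if_pos hnc, hn]; simp
        rw [this]
        have := mul_nonneg (Real.exp_pos (-(25 / 2))).le hg0
        linarith
      · have hnS : n ∈ S := by
          rw [hS, Finset.mem_filter, Finset.mem_Ioc]; exact ⟨⟨hn, hnx⟩, hnc⟩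
        rw [if_pos hnS]
        have h1 : f n ≤ Λ n := by
          simp only [hf]; rw [if_pos hnc]
          calc Λ n * wt 1 (Real.exp l) n ≤ Λ n * 1 :=
                mul_le_mul_of_nonneg_left (wt_le_one _ _) vonMangoldt_nonneg
            _ = Λ n := mul_one _
        have := mul_nonneg (Real.exp_pos (-(25 / 2))).le hg0
        linarith
    · push Not at hnx
      have h1 : f n ≤ Real.exp (-(25 / 2)) * g n := by
        simp only [hf, hg]; rw [if_pos hnc, if_pos hnc]
        calc Λ n * wt 1 (Real.exp l) n ≤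
            Λ n * (Real.exp (-(25 / 2)) * wt 1 (Real.exp (Real.log x)) n) :=
              mul_le_mul_of_nonneg_left (wt_tail hx1' hnx) vonMangoldt_nonneg
          _ = _ := by ring
      linarith
  have hSs : Summable fun n => if n ∈ S then Λ n else (0 : ℝ) := by
    apply summable_of_ne_finset_zero (s := S)
    intro n hn
    rw [if_neg hn]
  have hsum := hfs.tsum_le_tsum hpt (hSs.add (hgs.mul_left _))
  rw [hSs.tsum_add (hgs.mul_left _), tsum_mul_left] at hsum
  have hSt : ∑' n : ℕ, (if n ∈ S then Λ n else (0 : ℝ)) = ∑ n ∈ S, Λ n := by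
    rw [tsum_eq_sum (s := S)]
    · exact Finset.sum_congr rfl fun n hn => if_pos hn
    · intro n hn
      rw [if_neg hn]
  rw [hSt] at hsum
  have htail : Real.exp (-(25 / 2)) * ∑' n, g n ≤ 1 / 100 * Real.exp l / Q.totient := by
    calc Real.exp (-(25 / 2)) * ∑' n, g n
        ≤ Real.exp (-(25 / 2)) * (5 * Real.exp 5 * Real.exp l / Q.totient) :=
          mul_le_mul_of_nonneg_left hB1 (Real.exp_pos _).le
      _ = Real.exp (-(25 / 2)) * (5 * Real.exp 5) * Real.exp l / Q.totient := by ring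
      _ ≤ 1 / 100 * Real.exp l / Q.totient := by
          have := exp_small
          gcongr
  have hmain : 2 / 10 * Real.exp l / Q.totient ≤ ∑ n ∈ S, Λ n := by
    have h1 : 2 / 10 * Real.exp l / Q.totient ≤
        29 / 100 * Real.exp l / Q.totient - 1 / 100 * Real.exp l / Q.totient := by
      have h2 : 29 / 100 * Real.exp l / Q.totient - 1 / 100 * Real.exp l / Q.totient -
        2 / 10 * Real.exp l / Q.totient = 8 / 100 * Real.exp l / Q.totient := by ring
      have h3 : 0 ≤ 8 / 100 * Real.exp l / Q.totient := by positivity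
      linarith
    linarith
  have hcl := class_le (x := x) (Q := Q) hc
  have hpt2 := hC x
  have hElx2 : Real.exp l = Real.exp (-5) * x := by
    have h1 : Real.exp l = Real.exp (-5) * Real.exp (Real.log x) := by
      rw [← Real.exp_add, hl]
      congr 1
      ring
    rw [h1, hexpl]
  -- the square root
  have hsq : C * Real.sqrt x ≤ Real.exp (-5) / 10 * x / Q.totient := by
    have h1 : Real.sqrt x = Real.exp (Real.log x / 2) := by
      rw [Real.sqrt_eq_rpow, Real.rpow_def_of_pos hxp]; ring_nf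
    have h2 : (x : ℝ) = Real.exp (Real.log x / 2) * Real.exp (Real.log x / 2) := by
      rw [← Real.exp_add, add_halves, hexpl]
    have h3 : Real.exp (2 * Z) ≤ Real.exp (Real.log x / 2) := Real.exp_le_exp.2 (by linarith)
    rw [le_div_iff₀ hphi]
    calc C * Real.sqrt x * Q.totient ≤ |C| * Real.sqrt x * Real.exp (3 / 2 * Z) := by
          have h4 : C ≤ |C| := le_abs_self C
          have h5 : (Q.totient : ℝ) ≤ Real.exp (3 / 2 * Z) := hphiQ.trans hQexp
          have h6 := Real.sqrt_nonneg (x : ℝ)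
          calc C * Real.sqrt x * Q.totient ≤ |C| * Real.sqrt x * Q.totient := by gcongr
            _ ≤ _ := by gcongr
      _ = (|C| * Real.exp (-(1 / 2 * Z))) * (Real.sqrt x * Real.exp (2 * Z)) := by
          have : Real.exp (3 / 2 * (Z : ℝ)) = Real.exp (-(1 / 2 * (Z : ℝ))) * Real.exp (2 * Z) := by
            rw [← Real.exp_add]; congr 1; ring
          rw [this]; ring
      _ ≤ (Real.exp (-5) / 10) * (Real.sqrt x * Real.exp (2 * Z)) := by gcongr
      _ ≤ (Real.exp (-5) / 10) * x := by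
          apply mul_le_mul_of_nonneg_left _ (by positivity)
          rw [h1]
          calc Real.exp (Real.log x / 2) * Real.exp (2 * Z) ≤
              Real.exp (Real.log x / 2) * Real.exp (Real.log x / 2) := by gcongr
            _ = x := h2.symm
  have hfin : 2 / 10 * Real.exp l / Q.totient = Real.exp (-5) / 10 * x / Q.totient +
      Real.exp (-5) / 10 * x / Q.totient := by
    rw [hElx2]; ring
  rw [hfin] at hmain
  linarith

end Pool.Agent.Work.MP_495a89_nm
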