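import Pool.Agent.Work.MP_495a89_nm.Interface
import Pool.Agent.Work.MP_1ea053_nt.MER

/-!
# Block M3: lower bound in the third theorem of Mertens
-/

set_option autoImplicit false

namespace Pool.Agent.Work.MP_495a89_nm

open Finset Filter
open scoped Topology
open Pool.Agent.Work.MP_b0c12c_nt (Vz pp_one_eq)
open Pool.Agent.GapTwoMER (tendsto_Vz)

theorem stmt_M3 : Stmt_M3 := by
  intro ε hε
  have hE : 0 < Real.exp (-Real.eulerMascheroniConstant) := Real.exp_pos _
  have hlt : Real.exp (-Real.eulerMascheroniConstant) <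
      Real.exp (-Real.eulerMascheroniConstant) * (1 + ε) := by nlinarith
  have h1 : ∀ᶠ z : ℕ in atTop, Vz z * Real.log z <
      Real.exp (-Real.eulerMascheroniConstant) * (1 + ε) := by
    have h2 := tendsto_Vz
    rw [pp_one_eq] at h2
    exact (tendsto_order.mp h2).2 _ hlt
  obtain ⟨Z0, hZ0⟩ := eventually_atTop.mp h1
  refine ⟨max Z0 1, fun Z hZ => ?_⟩
  have h2 := hZ0 Z (le_trans (le_max_left _ _) hZ)
  have hZ1 : 1 ≤ Z := le_trans (le_max_right _ _) hZ
  have hl : 0 ≤ Real.log Z := Real.log_nonneg (by exact_mod_cast hZ1)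
  have hV : 0 < Vz Z := by
    unfold Vz
    apply Finset.prod_pos
    intro p hp
    have hp2 := (mem_filter.mp hp).2.two_le
    have hp3 : (2 : ℝ) ≤ p := by exact_mod_cast hp2
    rw [sub_pos, div_lt_one (by linarith)]
    linarith
  have e1 : ∏ p ∈ (Icc 1 Z).filter Nat.Prime, (1 - 1 / (p : ℝ))⁻¹ = (Vz Z)⁻¹ := by
    rw [Finset.prod_inv_distrib]
    rfl
  rw [e1, ← one_div, le_div_iff₀ hV]
  have e2 : Real.exp Real.eulerMascheroniConstant * Real.exp (-Real.eulerMascheroniConstant) = 1 := by
    rw [← Real.exp_add]; simp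
  have hE2 : 0 < Real.exp Real.eulerMascheroniConstant := Real.exp_pos _
  by_cases hε1 : 1 ≤ ε
  · have : (1 - ε) * Real.exp Real.eulerMascheroniConstant * Real.log Z * Vz Z ≤ 0 := by
      have h3 : 0 ≤ Real.exp Real.eulerMascheroniConstant * Real.log Z * Vz Z := by positivity
      have h4 : 1 - ε ≤ 0 := by linarith
      calc (1 - ε) * Real.exp Real.eulerMascheroniConstant * Real.log Z * Vz Z
          = (1 - ε) * (Real.exp Real.eulerMascheroniConstant * Real.log Z * Vz Z) := by ring
        _ ≤ 0 := mul_nonpos_of_nonpos_of_nonneg h4 h3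
    linarith
  · have h5 : (1 - ε) * Real.exp Real.eulerMascheroniConstant * Real.log Z * Vz Z =
        (1 - ε) * Real.exp Real.eulerMascheroniConstant * (Vz Z * Real.log Z) := by ring
    rw [h5]
    have h6 : 0 ≤ (1 - ε) * Real.exp Real.eulerMascheroniConstant :=
      mul_nonneg (by linarith) hE2.le
    calc (1 - ε) * Real.exp Real.eulerMascheroniConstant * (Vz Z * Real.log Z)
        ≤ (1 - ε) * Real.exp Real.eulerMascheroniConstant *
          (Real.exp (-Real.eulerMascheroniConstant) * (1 + ε)) :=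
          mul_le_mul_of_nonneg_left h2.le h6
      _ = (1 - ε) * (1 + ε) * (Real.exp Real.eulerMascheroniConstant *
          Real.exp (-Real.eulerMascheroniConstant)) := by ring
      _ = 1 - ε ^ 2 := by rw [e2]; ring
      _ ≤ 1 := by nlinarith

end Pool.Agent.Work.MP_495a89_nm
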