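import Pool.Agent.Work.MP_495a89_nm.Interface

/-!
# Block MS: few primes have a light tree
-/

set_option autoImplicit false

namespace Pool.Agent.Work.MP_495a89_nm

open Finset

namespace MS

theorem mass_nonneg (z : ℕ) : ∀ L q : ℕ, 0 ≤ mass z L q
  | 0, q => by
    unfold mass
    exact Real.log_natCast_nonneg q
  | L + 1, q => by
    unfold mass
    exact add_nonneg (Real.log_natCast_nonneg q) (sum_nonneg fun p _ => mass_nonneg z L p)

theorem exists_log_le {a c : ℝ} (ha : 0 < a) (hc : 0 < c) :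
    ∃ x0 : ℕ, ∀ x : ℕ, x0 ≤ x → Real.log x ≤ c * (x : ℝ) ^ a := by
  have h1 := (isLittleO_log_rpow_atTop ha).def hc
  have h2 := tendsto_natCast_atTop_atTop (R := ℝ) |>.eventually h1
  obtain ⟨x0, hx0⟩ := Filter.eventually_atTop.1 h2
  refine ⟨x0, fun x hx => ?_⟩
  have h3 := hx0 x hx
  rw [Real.norm_eq_abs, Real.norm_eq_abs, abs_of_nonneg (Real.log_natCast_nonneg x),
    abs_of_nonneg (Real.rpow_nonneg (Nat.cast_nonneg x) a)] at h3
  exact h3

theorem exists_pow_ge {a : ℝ} (ha : 0 < a) (M : ℝ) :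
    ∃ x0 : ℕ, ∀ x : ℕ, x0 ≤ x → M ≤ (x : ℝ) ^ a := by
  have h1 := (tendsto_rpow_atTop ha).eventually_ge_atTop M
  have h2 := tendsto_natCast_atTop_atTop (R := ℝ) |>.eventually h1
  obtain ⟨x0, hx0⟩ := Filter.eventually_atTop.1 h2
  exact ⟨x0, hx0⟩

open Classical in
theorem small_card (x Q : ℕ) {y : ℝ} (hy : 0 ≤ y) :
    (((PA x Q).filter fun q : ℕ => (q : ℝ) < y).card : ℝ) ≤ y := by
  have h1 : ((PA x Q).filter fun q : ℕ => (q : ℝ) < y) ⊆ Icc 1 ⌊y⌋₊ := by
    intro q hq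
    rw [mem_filter] at hq
    have h2 := hq.1
    unfold PA at h2
    rw [mem_filter, mem_Icc] at h2
    exact mem_Icc.2 ⟨h2.1.1, Nat.le_floor hq.2.le⟩
  have h2 := card_le_card h1
  rw [Nat.card_Icc, Nat.add_sub_cancel] at h2
  calc (((PA x Q).filter fun q : ℕ => (q : ℝ) < y).card : ℝ) ≤ (⌊y⌋₊ : ℝ) := by exact_mod_cast h2
    _ ≤ y := Nat.floor_le hy

open Classical in
/-- the small `q` -/
theorem small_part {a ε : ℝ} (ha : 0 < a) (hε : 0 < ε) :
    ∃ x0 : ℕ, ∀ x : ℕ, x0 ≤ x → ∀ Q : ℕ, 1 ≤ Q → (Q : ℝ) ≤ (x : ℝ) ^ (a / 2) →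
      (((PA x Q).filter fun q : ℕ => (q : ℝ) < (x : ℝ) ^ (1 - a)).card : ℝ) * Real.log x ≤
        ε * x / Q.totient := by
  obtain ⟨x0, hx0⟩ := exists_log_le (half_pos ha) hε
  refine ⟨max x0 1, fun x hx Q hQ hQx => ?_⟩
  have hx1 : 1 ≤ x := (le_max_right _ _).trans hx
  have hxR : (0 : ℝ) < x := by exact_mod_cast hx1
  have h1 := hx0 x ((le_max_left _ _).trans hx)
  have h2 := small_card x Q (y := (x : ℝ) ^ (1 - a)) (Real.rpow_nonneg hxR.le _)
  have hφ : (0 : ℝ) < Q.totient := by exact_mod_cast Nat.totient_pos.2 hQ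
  have hφ2 : (Q.totient : ℝ) ≤ (x : ℝ) ^ (a / 2) :=
    le_trans (by exact_mod_cast Nat.totient_le Q) hQx
  rw [le_div_iff₀ hφ]
  have hlog : 0 ≤ Real.log x := Real.log_natCast_nonneg x
  have hp : (x : ℝ) ^ (1 - a) * ((x : ℝ) ^ (a / 2) * (x : ℝ) ^ (a / 2)) = x := by
    rw [← Real.rpow_add hxR, ← Real.rpow_add hxR, show 1 - a + (a / 2 + a / 2) = 1 by ring,
      Real.rpow_one]
  have h0 : 0 ≤ (x : ℝ) ^ (1 - a) := Real.rpow_nonneg hxR.le _
  have h0' : 0 ≤ (x : ℝ) ^ (a / 2) := Real.rpow_nonneg hxR.le _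
  calc (((PA x Q).filter fun q : ℕ => (q : ℝ) < (x : ℝ) ^ (1 - a)).card : ℝ) * Real.log x *
        Q.totient ≤ (x : ℝ) ^ (1 - a) * (ε * (x : ℝ) ^ (a / 2)) * (x : ℝ) ^ (a / 2) := by
        refine mul_le_mul (mul_le_mul h2 h1 hlog h0) hφ2 hφ.le ?_
        exact mul_nonneg h0 (mul_nonneg hε.le h0')
    _ = ε * ((x : ℝ) ^ (1 - a) * ((x : ℝ) ^ (a / 2) * (x : ℝ) ^ (a / 2))) := by ring
    _ = ε * x := by rw [hp]

open Classical in
/-- the lost mass is nonnegative -/
theorem lost_nonneg {x Q z1 q : ℕ} {E : Set ℕ} (hQ : 1 ≤ Q)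
    (hQz : ∀ p : ℕ, p.Prime → p ∣ Q → p ≤ z1) (hq : q ∈ PA x Q) : 0 ≤ lost Q z1 E q := by
  unfold PA at hq
  rw [mem_filter, mem_Icc] at hq
  unfold lost
  set S := (q + 1).primeFactors.filter (fun p => z1 < p ∧ p ∉ E) with hS
  have hd1 : ∏ p ∈ S, p ∣ q + 1 :=
    (prod_dvd_prod_of_subset _ _ _ (filter_subset _ _)).trans (Nat.prod_primeFactors_dvd (q + 1))
  have hcop : Nat.Coprime (∏ p ∈ S, p) Q := by
    refine Nat.Coprime.prod_left fun p hp => ?_
    rw [hS, mem_filter] at hp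
    have hpp := Nat.prime_of_mem_primeFactors hp.1
    rw [hpp.coprime_iff_not_dvd]
    intro h
    have := hQz p hpp h
    omega
  have hd2 : (∏ p ∈ S, p) * Q ∣ q + 1 := hcop.mul_dvd_of_dvd_of_dvd hd1 hq.2.2
  have hle : (∏ p ∈ S, p) * Q ≤ q + 1 := Nat.le_of_dvd (Nat.succ_pos q) hd2
  have hpos : 0 < ∏ p ∈ S, p := prod_pos fun p hp => by
    rw [hS, mem_filter] at hp
    exact (Nat.prime_of_mem_primeFactors hp.1).pos
  have h1 : Real.log (((∏ p ∈ S, p : ℕ) : ℝ) * Q) ≤ Real.log ((q : ℝ) + 1) := by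
    refine Real.log_le_log ?_ ?_
    · have : (0 : ℝ) < ((∏ p ∈ S, p : ℕ) : ℝ) := by exact_mod_cast hpos
      have : (0 : ℝ) < Q := by exact_mod_cast hQ
      positivity
    · exact_mod_cast hle
  have hp0 : (((∏ p ∈ S, p : ℕ)) : ℝ) ≠ 0 := by exact_mod_cast hpos.ne'
  have hQ0 : (Q : ℝ) ≠ 0 := by
    have : (0 : ℝ) < Q := by exact_mod_cast hQ
    exact this.ne'
  rw [Real.log_mul hp0 hQ0] at h1
  have h2 : Real.log ((∏ p ∈ S, p : ℕ) : ℝ) = ∑ p ∈ S, Real.log p := by
    rw [Nat.cast_prod, Real.log_prod]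
    intro p hp
    rw [hS, mem_filter] at hp
    have := (Nat.prime_of_mem_primeFactors hp.1).pos
    exact_mod_cast this.ne'
  rw [h2] at h1
  linarith

open Classical in
/-- mass of one more level -/
theorem mass_succ_ge {L z z1 Q q : ℕ} {a : ℝ} (hz : z ≤ z1) :
    Real.log q + a * (Real.log (q + 1) - Real.log Q -
      lost Q z1 {p | mass z L p < a * Real.log p} q) ≤ mass z (L + 1) q := by
  unfold lost
  rw [sub_sub_cancel]
  have h0 : mass z (L + 1) q = Real.log q + ∑ p ∈ ch z q, mass z L p := rfl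
  rw [h0, mul_sum]
  refine add_le_add le_rfl ?_
  set S := (q + 1).primeFactors.filter (fun p => z1 < p ∧ p ∉ {p | mass z L p < a * Real.log p})
    with hS
  have hsub : S ⊆ ch z q := by
    intro p hp
    rw [hS, mem_filter] at hp
    unfold ch
    exact mem_filter.2 ⟨hp.1, by omega⟩
  calc ∑ p ∈ S, a * Real.log p ≤ ∑ p ∈ S, mass z L p := by
        refine sum_le_sum fun p hp => ?_
        rw [hS, mem_filter] at hp
        exact not_lt.1 hp.2.2
    _ ≤ _ := sum_le_sum_of_subset_of_nonneg hsub fun p _ _ => mass_nonneg z L p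

/-- Markov -/
theorem markov {ι : Type*} (s : Finset ι) (f : ι → ℝ) {c A : ℝ}
    (hf : ∀ i ∈ s, 0 ≤ f i) (hs : ∑ i ∈ s, f i ≤ A) (p : ι → Prop) [DecidablePred p]
    (hp : ∀ i ∈ s, p i → c ≤ f i) : ((s.filter p).card : ℝ) * c ≤ A := by
  calc ((s.filter p).card : ℝ) * c = ∑ i ∈ s.filter p, c := by
        rw [sum_const, nsmul_eq_mul]
    _ ≤ ∑ i ∈ s.filter p, f i := sum_le_sum fun i hi => by
        rw [mem_filter] at hi
        exact hp i hi.1 hi.2
    _ ≤ ∑ i ∈ s, f i := sum_le_sum_of_subset_of_nonneg (filter_subset _ _)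
        fun i hi _ => hf i hi
    _ ≤ A := hs

end MS

open MS

open Classical in
theorem stmt_MS (hLO : Stmt_LO) : Stmt_MS := by
  intro L
  induction L with
  | zero =>
    intro κ ε hκ hε
    set a : ℝ := min κ (1 / 2) with ha
    have ha0 : 0 < a := lt_min hκ (by norm_num)
    obtain ⟨x0, hx0⟩ := small_part ha0 hε
    refine ⟨a / 2, half_pos ha0, max x0 2, fun x hx z Q hQ hQx _ _ => ?_⟩
    have hx2 : 2 ≤ x := (le_max_right _ _).trans hx
    have hxR : (0 : ℝ) < x := by exact_mod_cast (by omega : 0 < x)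
    refine le_trans ?_ (hx0 x ((le_max_left _ _).trans hx) Q hQ hQx)
    refine mul_le_mul_of_nonneg_right ?_ (Real.log_natCast_nonneg x)
    have hsub : (PA x Q).filter (fun q => mass z 0 q < (((0 : ℕ) : ℝ) + 1 - κ) * Real.log x) ⊆
        (PA x Q).filter (fun q : ℕ => (q : ℝ) < (x : ℝ) ^ (1 - a)) := by
      intro q hq
      rw [mem_filter] at hq ⊢
      refine ⟨hq.1, ?_⟩
      have hq1 := hq.1
      unfold PA at hq1
      rw [mem_filter, mem_Icc] at hq1
      have hqR : (0 : ℝ) < q := by exact_mod_cast hq1.1.1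
      have h2 : Real.log q < (((0 : ℕ) : ℝ) + 1 - κ) * Real.log x := hq.2
      have hlog : 0 ≤ Real.log x := Real.log_natCast_nonneg x
      have h3 : Real.log q < (1 - a) * Real.log x := by
        refine lt_of_lt_of_le h2 (mul_le_mul_of_nonneg_right ?_ hlog)
        have : a ≤ κ := min_le_left _ _
        push_cast
        linarith
      rw [← Real.log_rpow hxR] at h3
      exact (Real.log_lt_log_iff hqR (Real.rpow_pos_of_pos hxR _)).1 h3
    exact_mod_cast card_le_card hsub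
  | succ L ih =>
    intro κ ε hκ hε
    set κ0 : ℝ := min κ 1 with hκ0
    have hκ00 : 0 < κ0 := lt_min hκ one_pos
    have hκ01 : κ0 ≤ 1 := min_le_right _ _
    have hL2 : (0 : ℝ) < (L : ℝ) + 2 := by positivity
    set κ2 : ℝ := κ0 / (16 * ((L : ℝ) + 2)) with hκ2
    have hκ20 : 0 < κ2 := by positivity
    have hκ2m : κ2 * (16 * ((L : ℝ) + 2)) = κ0 := by
      rw [hκ2]
      field_simp
    have hL0 : (0 : ℝ) ≤ L := Nat.cast_nonneg L
    have hκ21 : κ2 ≤ 1 / 32 := by nlinarith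
    set κ3 : ℝ := κ2 * (ε / 2) with hκ3
    have hκ30 : 0 < κ3 := by positivity
    obtain ⟨e, he, δ1, hδ1, x1, hx1⟩ := hLO κ3 hκ30
    obtain ⟨δL, hδL, xL, hxL⟩ := ih κ2 e hκ20 he
    obtain ⟨x2, hx2⟩ := small_part hκ20 (half_pos hε)
    obtain ⟨x3, hx3⟩ := exists_pow_ge hδ1 (max ((xL : ℝ) + 1) 3)
    obtain ⟨x4, hx4⟩ := exists_pow_ge (half_pos hδ1) 2
    set δ : ℝ := min δ1 (min (κ2 / 2) (δ1 / 2 * δL)) with hδ
    have hδ0 : 0 < δ := lt_min hδ1 (lt_min (by positivity) (by positivity))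
    have hd1 : δ ≤ δ1 := min_le_left _ _
    have hd2 : δ ≤ κ2 / 2 := (min_le_right _ _).trans (min_le_left _ _)
    have hd3 : δ ≤ δ1 / 2 * δL := (min_le_right _ _).trans (min_le_right _ _)
    refine ⟨δ, hδ0, max (max x1 x2) (max (max x3 x4) 2), fun x hx z Q hQ hQx hzx hQz => ?_⟩
    have g1 : x1 ≤ x := ((le_max_left _ _).trans (le_max_left _ _)).trans hx
    have g2 : x2 ≤ x := ((le_max_right _ _).trans (le_max_left _ _)).trans hx
    have g3 : x3 ≤ x := (((le_max_left _ _).trans (le_max_left _ _)).trans (le_max_right _ _)).trans hx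
    have g4 : x4 ≤ x := (((le_max_right _ _).trans (le_max_left _ _)).trans (le_max_right _ _)).trans hx
    have g5 : 2 ≤ x := ((le_max_right _ _).trans (le_max_right _ _)).trans hx
    have hxR : (0 : ℝ) < x := by exact_mod_cast (by omega : 0 < x)
    have hxR1 : (1 : ℝ) ≤ x := by exact_mod_cast (by omega : 1 ≤ x)
    have hlog : 0 < Real.log x := Real.log_pos (by exact_mod_cast (by omega : 1 < x))
    have hmono : ∀ {a b : ℝ}, a ≤ b → (x : ℝ) ^ a ≤ (x : ℝ) ^ b := fun h =>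
      Real.rpow_le_rpow_of_exponent_le hxR1 h
    set z1 : ℕ := ⌊(x : ℝ) ^ δ1⌋₊ with hz1
    have hX3 := hx3 x g3
    have hX4 := hx4 x g4
    have hz1le : (z1 : ℝ) ≤ (x : ℝ) ^ δ1 := Nat.floor_le (Real.rpow_nonneg hxR.le _)
    have hz1ge : (x : ℝ) ^ δ1 < z1 + 1 := Nat.lt_floor_add_one _
    have hzz1 : z ≤ z1 := Nat.le_floor (hzx.trans (hmono hd1))
    have hz12 : 2 ≤ z1 := by
      have : (3 : ℝ) ≤ (x : ℝ) ^ δ1 := (le_max_right _ _).trans hX3
      have h2 : (2 : ℝ) < (z1 : ℝ) + 1 := by linarith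
      have h3 : (3 : ℝ) < (z1 : ℝ) + 1 := by linarith
      have : 3 < z1 + 1 := by exact_mod_cast h3
      omega
    have hz1L : xL ≤ z1 := by
      have : (xL : ℝ) + 1 ≤ (x : ℝ) ^ δ1 := (le_max_left _ _).trans hX3
      have h3 : (xL : ℝ) + 1 < (z1 : ℝ) + 1 := by linarith
      have : xL + 1 < z1 + 1 := by exact_mod_cast h3
      omega
    have hz1half : (x : ℝ) ^ (δ1 / 2) ≤ z1 := by
      have h1 : (x : ℝ) ^ δ1 = (x : ℝ) ^ (δ1 / 2) * (x : ℝ) ^ (δ1 / 2) := by
        rw [← Real.rpow_add hxR]; congr 1; ring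
      nlinarith
    set E : Set ℕ := {p | mass z L p < ((L : ℝ) + 1 - κ2) * Real.log p} with hE
    have hEcount : ∀ t : ℕ, z1 ≤ t → t ≤ x →
        (((Icc 1 t).filter fun p => p.Prime ∧ p ∈ E).card : ℝ) * Real.log t ≤ e * t := by
      intro t ht1 ht2
      have htR : (0 : ℝ) < t := by exact_mod_cast (by omega : 0 < t)
      have hzt : (z : ℝ) ≤ (t : ℝ) ^ δL := by
        calc (z : ℝ) ≤ (x : ℝ) ^ δ := hzx
          _ ≤ (x : ℝ) ^ (δ1 / 2 * δL) := hmono hd3
          _ = ((x : ℝ) ^ (δ1 / 2)) ^ δL := Real.rpow_mul hxR.le _ _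
          _ ≤ (t : ℝ) ^ δL := by
            refine Real.rpow_le_rpow (Real.rpow_nonneg hxR.le _) ?_ hδL.le
            exact hz1half.trans (by exact_mod_cast ht1)
      have ht1' : (1 : ℝ) ≤ (t : ℝ) ^ δL :=
        Real.one_le_rpow (by exact_mod_cast (by omega : 1 ≤ t)) hδL.le
      have h1 := hxL t (hz1L.trans ht1) z 1 le_rfl (by push_cast; exact ht1') hzt
        (fun p hp hp1 => absurd (Nat.dvd_one.1 hp1) hp.one_lt.ne')
      rw [Nat.totient_one, Nat.cast_one, div_one] at h1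
      refine le_trans ?_ h1
      refine mul_le_mul_of_nonneg_right ?_ (Real.log_natCast_nonneg t)
      have hsub : (Icc 1 t).filter (fun p => p.Prime ∧ p ∈ E) ⊆
          (PA t 1).filter (fun q => mass z L q < ((L : ℝ) + 1 - κ2) * Real.log t) := by
        intro p hp
        rw [mem_filter, mem_Icc] at hp
        rw [mem_filter]
        refine ⟨?_, ?_⟩
        · unfold PA
          rw [mem_filter, mem_Icc]
          exact ⟨hp.1, hp.2.1, one_dvd _⟩
        · have h2 : mass z L p < ((L : ℝ) + 1 - κ2) * Real.log p := hp.2.2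
          refine lt_of_lt_of_le h2 (mul_le_mul_of_nonneg_left ?_ (by linarith))
          exact Real.log_le_log (by exact_mod_cast hp.1.1) (by exact_mod_cast hp.1.2)
      exact_mod_cast card_le_card hsub
    have hLOs := hx1 x g1 Q z1 E hQ hz12 (hQx.trans (hmono hd1)) hz1le
      (fun p hp hpQ => (hQz p hp hpQ).trans hzz1) hEcount
    have hM := markov (c := κ2 * Real.log x) (PA x Q) (lost Q z1 E)
      (fun q hq => lost_nonneg hQ (fun p hp hpQ => (hQz p hp hpQ).trans hzz1) hq) hLOs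
      (fun q => κ2 * Real.log x < lost Q z1 E q) (fun q _ h => h.le)
    have hS := hx2 x g2 Q hQ (hQx.trans (hmono hd2))
    -- the bad `q`
    have hsub : (PA x Q).filter
        (fun q => mass z (L + 1) q < (((L + 1 : ℕ) : ℝ) + 1 - κ) * Real.log x) ⊆
        (PA x Q).filter (fun q : ℕ => (q : ℝ) < (x : ℝ) ^ (1 - κ2)) ∪
        (PA x Q).filter (fun q => κ2 * Real.log x < lost Q z1 E q) := by
      intro q hq
      rw [mem_filter] at hq
      rw [mem_union, mem_filter, mem_filter]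
      by_contra hcon
      rw [not_or, not_and, not_and] at hcon
      have hq2 := not_lt.1 (hcon.1 hq.1)
      have hq3 := not_lt.1 (hcon.2 hq.1)
      have hq1 := hq.1
      unfold PA at hq1
      rw [mem_filter, mem_Icc] at hq1
      have hqR : (0 : ℝ) < q := by exact_mod_cast hq1.1.1
      have h1 : (1 - κ2) * Real.log x ≤ Real.log q := by
        rw [← Real.log_rpow hxR]
        exact Real.log_le_log (Real.rpow_pos_of_pos hxR _) hq2
      have h2 : Real.log q ≤ Real.log ((q : ℝ) + 1) := Real.log_le_log hqR (by linarith)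
      have hQR : (0 : ℝ) < Q := by exact_mod_cast hQ
      have h3 : Real.log Q ≤ κ2 * Real.log x := by
        rw [← Real.log_rpow hxR]
        refine Real.log_le_log hQR (hQx.trans (hmono ?_))
        linarith
      have h4 := mass_succ_ge (L := L) (Q := Q) (q := q) (a := (L : ℝ) + 1 - κ2) hzz1
      have h5 : (1 - 3 * κ2) * Real.log x ≤ Real.log ((q : ℝ) + 1) - Real.log Q - lost Q z1 E q := by
        linarith
      have ha : 0 ≤ (L : ℝ) + 1 - κ2 := by linarith
      have h6 : ((L : ℝ) + 1 - κ2) * ((1 - 3 * κ2) * Real.log x) ≤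
          ((L : ℝ) + 1 - κ2) * (Real.log ((q : ℝ) + 1) - Real.log Q - lost Q z1 E q) :=
        mul_le_mul_of_nonneg_left h5 ha
      have h7 : ((1 - κ2) + ((L : ℝ) + 1 - κ2) * (1 - 3 * κ2)) * Real.log x ≤ mass z (L + 1) q := by
        have : ((1 - κ2) + ((L : ℝ) + 1 - κ2) * (1 - 3 * κ2)) * Real.log x =
          (1 - κ2) * Real.log x + ((L : ℝ) + 1 - κ2) * ((1 - 3 * κ2) * Real.log x) := by ring
        rw [this]
        linarith
      have h8 : ((L + 1 : ℕ) : ℝ) + 1 - κ ≤ (1 - κ2) + ((L : ℝ) + 1 - κ2) * (1 - 3 * κ2) := by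
        have : κ0 ≤ κ := min_le_left _ _
        push_cast
        nlinarith
      have h9 := mul_le_mul_of_nonneg_right h8 hlog.le
      linarith [hq.2]
    have hcard := card_le_card hsub
    have hcard2 := hcard.trans (card_union_le _ _)
    have hcR : (((PA x Q).filter
        (fun q => mass z (L + 1) q < (((L + 1 : ℕ) : ℝ) + 1 - κ) * Real.log x)).card : ℝ) ≤
        ((PA x Q).filter (fun q : ℕ => (q : ℝ) < (x : ℝ) ^ (1 - κ2))).card +
        ((PA x Q).filter (fun q => κ2 * Real.log x < lost Q z1 E q)).card := by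
      exact_mod_cast hcard2
    have hM2 : (((PA x Q).filter (fun q => κ2 * Real.log x < lost Q z1 E q)).card : ℝ) *
        Real.log x ≤ ε / 2 * x / Q.totient := by
      have h1 : κ2 * ((((PA x Q).filter (fun q => κ2 * Real.log x < lost Q z1 E q)).card : ℝ) *
          Real.log x) ≤ κ2 * (ε / 2 * x / Q.totient) := by
        calc _ = (((PA x Q).filter (fun q => κ2 * Real.log x < lost Q z1 E q)).card : ℝ) *
            (κ2 * Real.log x) := by ring
          _ ≤ κ3 * x / Q.totient := hM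
          _ = _ := by rw [hκ3]; ring
      exact le_of_mul_le_mul_left h1 hκ20
    calc _ ≤ ((((PA x Q).filter (fun q : ℕ => (q : ℝ) < (x : ℝ) ^ (1 - κ2))).card : ℝ) +
        ((PA x Q).filter (fun q => κ2 * Real.log x < lost Q z1 E q)).card) * Real.log x :=
          mul_le_mul_of_nonneg_right hcR hlog.le
      _ ≤ ε / 2 * x / Q.totient + ε / 2 * x / Q.totient := by
          rw [add_mul]
          exact add_le_add hS hM2
      _ = _ := by ring

end Pool.Agent.Work.MP_495a89_nm
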