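import Pool.Agent.Work.MP_495a89_nm.Interface
import Pool.Agent.Work.BV.PHI

/-! Block PHI: the sum of `1 / φ` (from the Bombieri–Vinogradov library). -/

set_option autoImplicit false

namespace Pool.Agent.Work.MP_495a89_nm

open Finset

theorem stmt_PHI : Stmt_PHI := by
  obtain ⟨C, hC, h⟩ := Pool.Agent.BV.stmt_PHI
  refine ⟨C + 1, by linarith, fun M hM => ?_⟩
  have hset : Icc 1 M = Ioc 0 M := by
    ext m
    simp [mem_Icc, mem_Ioc, Nat.succ_le_iff]
  rcases Nat.lt_or_ge M 2 with h2 | h2
  · have hM1 : M = 1 := by omega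
    subst hM1
    have : (Icc 1 1 : Finset ℕ) = {1} := rfl
    rw [this, sum_singleton, Nat.totient_one, Nat.cast_one, Real.log_one]
    linarith
  · rw [hset]
    have h3 := h M h2
    have h4 : 0 ≤ Real.log M := Real.log_natCast_nonneg M
    nlinarith

end Pool.Agent.Work.MP_495a89_nm
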