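import Pool.Agent.Work.MP_495a89_nm.InterfaceW
import Pool.Agent.Work.MP_b0c12c_nt_shift.PN

/-!
Block PNF: the prime number theorem for one residue class, Gaussian weight, modulus a divisor of
`F` times a squarefree number (the same proof as `MP_b0c12c_nt_shift.stmt_PN`).
-/

set_option autoImplicit false

namespace Pool.Agent.Work.MP_495a89_nm

open Filter Finset ArithmeticFunction
open scoped Topology
open Pool.Agent.Work.MP_b0c12c_nt.Itf2
open Pool.Agent.Work.MP_b0c12c_nt.Assem (wt wt_pos term_nonneg)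
open Pool.Agent.Work.MP_b0c12c_nt_shift (stmt_CS)
open Pool.Agent.Work.MP_b0c12c_nt_shift

theorem stmt_PNF : Stmt_PNF := by
  intro F _ κ B τ hκ hτ hτ1 K
  obtain ⟨z1, hz1⟩ := stmt_CS κ (κ / 2) B τ (by linarith) (by linarith) hτ hτ1
  obtain ⟨Y0, hY0⟩ := Pool.Agent.Work.MP_b0c12c_nt_helper6.GPnt.gaussPnt τ hτ 1 one_pos
  have ev : ∀ᶠ z : ℕ in atTop, max Y0 200 ≤ (z : ℝ) ∧ (16 : ℝ) ≤ (z : ℝ) ^ κ :=
    (tendsto_natCast_atTop_atTop.eventually_ge_atTop _).and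
      (((tendsto_rpow_atTop hκ).comp tendsto_natCast_atTop_atTop).eventually_ge_atTop _)
  obtain ⟨z3, hz3⟩ := eventually_atTop.1 ev
  refine ⟨max z1 z3, fun z hz p0 hG Q hQ1 hQ hQz hp0 c hc l hl1 hl2 => ?_⟩
  obtain ⟨f1, f2⟩ := hz3 z ((le_max_right _ _).trans hz)
  have hz1' := hz1 z ((le_max_left _ _).trans hz)
  have hzY : Y0 ≤ (z : ℝ) := (le_max_left _ _).trans f1
  have hz200 : (200 : ℝ) ≤ (z : ℝ) := (le_max_right _ _).trans f1
  have hz0 : (0 : ℝ) < z := by linarith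
  have hQ0 : Q ≠ 0 := by omega
  have : NeZero Q := ⟨hQ0⟩
  have hl8 : 8 * (z : ℝ) ≤ l := by
    have h1 : (z : ℝ) ^ (1 + κ) = z * (z : ℝ) ^ κ := by
      rw [Real.rpow_add hz0, Real.rpow_one]
    have h2 : (z : ℝ) * 16 ≤ z * (z : ℝ) ^ κ := by gcongr
    linarith
  have hl0 : 0 < l := by linarith
  have hYl : Y0 ≤ Real.exp l := by
    have := Real.add_one_le_exp l
    linarith
  have hs : Summable fun n : ℕ => Λ n * wt τ (Real.exp l) n := (hY0 (Real.exp l) hYl).1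
  refine ⟨hs, ?_⟩
  have hZ := hG.2 Q hQ hQz hp0
  have hch := hz1' Q hQz hZ l hl1 hl2
  have hcs := PNaux.class_sum2 hs hc
  have hnc := PNaux.noncoprime_le hτ hτ1 (by linarith) hs hQ0
  have hφ : (0 : ℝ) < Q.totient := by
    exact_mod_cast Nat.totient_pos.mpr (Nat.pos_of_ne_zero hQ0)
  -- numerical bounds
  have hzinv : (z : ℝ) ^ (-2 : ℝ) ≤ (z : ℝ)⁻¹ / 2 := by
    have h1 : (z : ℝ) ^ (-2 : ℝ) = (z : ℝ)⁻¹ * (z : ℝ)⁻¹ := by
      rw [show (-2 : ℝ) = -1 + -1 by norm_num, Real.rpow_add hz0, Real.rpow_neg_one]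
    have h2 : (z : ℝ)⁻¹ ≤ 1 / 2 := by
      rw [inv_le_comm₀ hz0 (by norm_num)]
      linarith
    have h3 : 0 < (z : ℝ)⁻¹ := by positivity
    rw [h1]
    nlinarith
  have hsmall : (Q : ℝ) * (4 * l + 1) * (2 * l) + 2 ≤ (z : ℝ)⁻¹ / 2 * Real.exp l := by
    have hE : Real.exp l = Real.exp (l / 4) * Real.exp (l / 8) * Real.exp (l / 8) *
        Real.exp (l / 2) := by
      rw [← Real.exp_add, ← Real.exp_add, ← Real.exp_add]
      ring_nf
    have h1 : (Q : ℝ) ≤ Real.exp (l / 4) := by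
      refine hQz.trans (Real.exp_le_exp.2 ?_)
      linarith
    have h2 : (z : ℝ) ≤ Real.exp (l / 8) := by
      have := Real.add_one_le_exp (l / 8)
      linarith
    have h3 : (8 : ℝ) ≤ Real.exp (l / 8) := by linarith
    have h5 : (l / 2) ^ 2 * (1 / 2) ≤ Real.exp (l / 2) := by
      have := Real.quadratic_le_exp_of_nonneg (show (0 : ℝ) ≤ l / 2 by positivity)
      nlinarith
    have h6 : (80 : ℝ) ≤ Real.exp (l / 8) := by linarith
    have h7 : (4 * l + 1) * (2 * l) + 2 ≤ Real.exp (l / 8) * Real.exp (l / 2) := by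
      have h8 : 80 * ((l / 2) ^ 2 * (1 / 2)) ≤ Real.exp (l / 8) * Real.exp (l / 2) := by
        apply mul_le_mul h6 h5 (by positivity) (by positivity)
      nlinarith
    have hz2 : 1 ≤ (z : ℝ)⁻¹ / 2 * Real.exp (l / 8) := by
      have h9 : (z : ℝ) ^ 2 / 2 ≤ Real.exp (l / 8) := by
        have h10 := Real.quadratic_le_exp_of_nonneg (show (0 : ℝ) ≤ z by positivity)
        have h11 : Real.exp (z : ℝ) ≤ Real.exp (l / 8) := Real.exp_le_exp.2 (by linarith)
        nlinarith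
      have h12 : 2 * (z : ℝ) ≤ Real.exp (l / 8) := by nlinarith
      calc (1 : ℝ) = (z : ℝ)⁻¹ / 2 * (2 * z) := by field_simp
        _ ≤ _ := by gcongr
    have hexp4 : 1 ≤ Real.exp (l / 4) := Real.one_le_exp (by positivity)
    have hpos : 0 ≤ (4 * l + 1) * (2 * l) := by positivity
    calc (Q : ℝ) * (4 * l + 1) * (2 * l) + 2
        ≤ Real.exp (l / 4) * ((4 * l + 1) * (2 * l) + 2) := by nlinarith
      _ ≤ Real.exp (l / 4) * (Real.exp (l / 8) * Real.exp (l / 2)) := by gcongr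
      _ = 1 * (Real.exp (l / 4) * (Real.exp (l / 8) * Real.exp (l / 2))) := by rw [one_mul]
      _ ≤ ((z : ℝ)⁻¹ / 2 * Real.exp (l / 8)) *
          (Real.exp (l / 4) * (Real.exp (l / 8) * Real.exp (l / 2))) := by gcongr
      _ = (z : ℝ)⁻¹ / 2 * Real.exp l := by
          rw [hE]
          ring
  have hmain : |(Q.totient : ℝ) * ∑' n : ℕ, (if n ≡ c [MOD Q] then Λ n * wt τ (Real.exp l) n else 0)
      - ∑' n : ℕ, Λ n * wt τ (Real.exp l) n| ≤ (z : ℝ)⁻¹ * Real.exp l := by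
    refine hcs.trans ?_
    have h1 : (z : ℝ) ^ (-2 : ℝ) * Real.exp l ≤ (z : ℝ)⁻¹ / 2 * Real.exp l :=
      mul_le_mul_of_nonneg_right hzinv (Real.exp_pos _).le
    linarith
  have hfin : (∑' n : ℕ, (if n ≡ c [MOD Q] then Λ n * wt τ (Real.exp l) n else 0) -
      (∑' n : ℕ, Λ n * wt τ (Real.exp l) n) / Q.totient) = ((Q.totient : ℝ) * ∑' n : ℕ,
      (if n ≡ c [MOD Q] then Λ n * wt τ (Real.exp l) n else 0)
      - ∑' n : ℕ, Λ n * wt τ (Real.exp l) n) / Q.totient := by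
    field_simp
  rw [hfin, abs_div, abs_of_pos hφ]
  gcongr

end Pool.Agent.Work.MP_495a89_nm
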