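import Pool.Agent.Work.MP_495a89_nm.Interface

/-!
# Block QS: the abundancy of the modulus
-/

set_option autoImplicit false

namespace Pool.Agent.Work.MP_495a89_nm

open Finset

namespace QSaux

/-- Bernoulli for products -/
theorem one_sub_sum_le_prod {ι : Type*} (s : Finset ι) (δ : ι → ℝ) (h0 : ∀ i ∈ s, 0 ≤ δ i)
    (h1 : ∀ i ∈ s, δ i ≤ 1) : 1 - ∑ i ∈ s, δ i ≤ ∏ i ∈ s, (1 - δ i) := by
  classical
  induction s using Finset.induction_on with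
  | empty => simp
  | insert a s ha ih =>
    rw [sum_insert ha, prod_insert ha]
    have ih' := ih (fun i hi => h0 i (mem_insert_of_mem hi)) (fun i hi => h1 i (mem_insert_of_mem hi))
    have ha0 := h0 a (mem_insert_self _ _)
    have ha1 := h1 a (mem_insert_self _ _)
    have hp : ∏ i ∈ s, (1 - δ i) ≤ 1 := by
      refine prod_le_one (fun i hi => ?_) fun i hi => ?_
      · linarith [h1 i (mem_insert_of_mem hi)]
      · linarith [h0 i (mem_insert_of_mem hi)]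
    have h2 : δ a * ∏ i ∈ s, (1 - δ i) ≤ δ a * 1 := mul_le_mul_of_nonneg_left hp ha0
    have h3 : (1 - δ a) * ∏ i ∈ s, (1 - δ i) = ∏ i ∈ s, (1 - δ i) - δ a * ∏ i ∈ s, (1 - δ i) := by
      ring
    rw [h3]
    linarith

/-- the sum of the divisors of a prime power -/
theorem sigma_pow {p : ℕ} (hp : p.Prime) (a : ℕ) :
    ∑ d ∈ (p ^ a).divisors, (d : ℝ) =
      (p : ℝ) ^ a * ((1 - 1 / (p : ℝ))⁻¹ * (1 - ((p : ℝ) ^ (a + 1))⁻¹)) := by
  have hp2 : (2 : ℝ) ≤ p := by exact_mod_cast hp.two_le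
  have hp0 : (p : ℝ) ≠ 0 := by linarith
  have hp1 : (p : ℝ) - 1 ≠ 0 := by linarith
  rw [Nat.sum_divisors_prime_pow (f := fun d : ℕ => (d : ℝ)) hp]
  have h1 : ∑ x ∈ range (a + 1), ((p ^ x : ℕ) : ℝ) = ((p : ℝ) ^ (a + 1) - 1) / (p - 1) := by
    push_cast
    exact geom_sum_eq (by linarith) (a + 1)
  rw [h1]
  have h2 : 1 - 1 / (p : ℝ) = (p - 1) / p := by
    field_simp
  rw [h2, inv_div, pow_succ]
  field_simp

/-- the exponents -/
def ex (w A p : ℕ) : ℕ := if p ≤ w then A + 1 else 1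

/-- the fixed factor -/
def FF (w A : ℕ) : ℕ := ∏ l ∈ (Icc 1 w).filter Nat.Prime, l ^ A

theorem QQ_eq {w A Z p0 : ℕ} (hw : w ≤ Z) (hp : p0 = 0 ∨ (p0.Prime ∧ w < p0)) :
    QQ (FF w A) Z p0 = ∏ p ∈ ((Icc 1 Z).filter Nat.Prime).erase p0, p ^ ex w A p := by
  unfold QQ FF
  have h1 : ∏ l ∈ (Icc 1 w).filter Nat.Prime, l ^ A =
      ∏ p ∈ ((Icc 1 Z).filter Nat.Prime).erase p0, (if p ≤ w then p ^ A else 1) := by
    rw [← prod_filter]
    refine prod_congr ?_ fun _ _ => rfl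
    ext l
    simp only [mem_filter, mem_Icc, mem_erase]
    constructor
    · rintro ⟨⟨h2, h3⟩, h4⟩
      refine ⟨⟨?_, ⟨h2, h3.trans hw⟩, h4⟩, h3⟩
      rintro rfl
      rcases hp with hp | ⟨_, hp⟩ <;> omega
    · rintro ⟨⟨_, ⟨h2, _⟩, h4⟩, h3⟩
      exact ⟨⟨h2, h3⟩, h4⟩
  rw [h1, ← prod_mul_distrib]
  refine prod_congr rfl fun p _ => ?_
  unfold ex
  split_ifs
  · rw [pow_succ]
  · rw [one_mul, pow_one]

theorem sigma_QQ {w A Z p0 : ℕ} (hw : w ≤ Z) (hp : p0 = 0 ∨ (p0.Prime ∧ w < p0)) :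
    ∑ d ∈ (QQ (FF w A) Z p0).divisors, (d : ℝ) =
      (QQ (FF w A) Z p0 : ℕ) *
        ((∏ p ∈ ((Icc 1 Z).filter Nat.Prime).erase p0, (1 - 1 / (p : ℝ))⁻¹) *
          ∏ p ∈ ((Icc 1 Z).filter Nat.Prime).erase p0, (1 - ((p : ℝ) ^ (ex w A p + 1))⁻¹)) := by
  set S := ((Icc 1 Z).filter Nat.Prime).erase p0 with hS
  have hprime : ∀ p ∈ S, p.Prime := fun p hp => (mem_filter.1 (mem_erase.1 hp).2).2
  have h1 : ∑ d ∈ (QQ (FF w A) Z p0).divisors, (d : ℝ) =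
      ∏ p ∈ S, ∑ d ∈ (p ^ ex w A p).divisors, (d : ℝ) := by
    rw [QQ_eq hw hp, ← hS]
    have h2 : ∀ n : ℕ, ∑ d ∈ n.divisors, (d : ℝ) = ((ArithmeticFunction.sigma 1 n : ℕ) : ℝ) := by
      intro n
      rw [ArithmeticFunction.sigma_one_apply]
      push_cast
      rfl
    simp only [h2]
    have h3 := ArithmeticFunction.IsMultiplicative.map_prod (fun p => p ^ ex w A p)
      (f := ArithmeticFunction.sigma 1) ArithmeticFunction.isMultiplicative_sigma S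
      (fun p hp q hq hne =>
        Nat.Coprime.pow _ _ ((Nat.coprime_primes (hprime p hp) (hprime q hq)).2 hne))
    rw [h3]
    push_cast
    rfl
  rw [h1, prod_congr rfl fun p hp => sigma_pow (hprime p hp) (ex w A p), prod_mul_distrib,
    prod_mul_distrib, QQ_eq hw hp, ← hS]
  push_cast
  ring

theorem sq_le_pow (w : ℕ) : w ^ 2 ≤ 2 ^ (w + 2) := by
  induction w with
  | zero => norm_num
  | succ n ih =>
    have h1 : (n + 1) ^ 2 = n ^ 2 + 2 * n + 1 := by ring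
    have h2 : n < 2 ^ n := Nat.lt_two_pow_self
    have h3 : 2 ^ (n + 1 + 2) = 2 ^ (n + 2) + 4 * 2 ^ n := by ring
    omega

theorem sum_delta {w Z : ℕ} (hw1 : 1 ≤ w) (hw : w ≤ Z) (p0 : ℕ) :
    ∑ p ∈ ((Icc 1 Z).filter Nat.Prime).erase p0, ((p : ℝ) ^ (ex w w p + 1))⁻¹ ≤ 2 / w := by
  have hw0 : (0 : ℝ) < w := by exact_mod_cast hw1
  have h1 : ∑ p ∈ ((Icc 1 Z).filter Nat.Prime).erase p0, ((p : ℝ) ^ (ex w w p + 1))⁻¹ ≤
      ∑ p ∈ (Icc 2 Z), ((p : ℝ) ^ (ex w w p + 1))⁻¹ := by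
    refine sum_le_sum_of_subset_of_nonneg ?_ fun p _ _ => by positivity
    intro p hp
    obtain ⟨_, h2⟩ := mem_erase.1 hp
    obtain ⟨h3, h4⟩ := mem_filter.1 h2
    exact mem_Icc.2 ⟨h4.two_le, (mem_Icc.1 h3).2⟩
  have h2 : ∑ p ∈ (Icc 2 Z), ((p : ℝ) ^ (ex w w p + 1))⁻¹ ≤
      ∑ p ∈ Icc 1 w, ((2 : ℝ) ^ (w + 2))⁻¹ + ∑ p ∈ Ioc w Z, ((p : ℝ) ^ 2)⁻¹ := by
    rw [← sum_filter_add_sum_filter_not (Icc 2 Z) (fun p => p ≤ w)]
    refine add_le_add ?_ ?_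
    · calc ∑ p ∈ (Icc 2 Z).filter (fun p => p ≤ w), ((p : ℝ) ^ (ex w w p + 1))⁻¹ ≤
          ∑ p ∈ (Icc 2 Z).filter (fun p => p ≤ w), ((2 : ℝ) ^ (w + 2))⁻¹ := by
            refine sum_le_sum fun p hp => ?_
            obtain ⟨h3, h4⟩ := mem_filter.1 hp
            unfold ex
            rw [if_pos h4]
            have h5 : (2 : ℝ) ≤ p := by exact_mod_cast (mem_Icc.1 h3).1
            exact inv_anti₀ (by positivity) (pow_le_pow_left₀ (by norm_num) h5 _)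
        _ ≤ _ := by
            refine sum_le_sum_of_subset_of_nonneg ?_ fun p _ _ => by positivity
            intro p hp
            obtain ⟨h3, h4⟩ := mem_filter.1 hp
            exact mem_Icc.2 ⟨by linarith [(mem_Icc.1 h3).1], h4⟩
    · refine le_trans (le_of_eq (sum_congr rfl fun p hp => ?_))
        (sum_le_sum_of_subset_of_nonneg (s := (Icc 2 Z).filter fun p => ¬ p ≤ w) ?_
          fun p _ _ => by positivity)
      · unfold ex
        rw [if_neg (mem_filter.1 hp).2]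
      · intro p hp
        obtain ⟨h3, h4⟩ := mem_filter.1 hp
        exact mem_Ioc.2 ⟨not_le.1 h4, (mem_Icc.1 h3).2⟩
  have h3 : ∑ p ∈ Icc 1 w, ((2 : ℝ) ^ (w + 2))⁻¹ ≤ 1 / w := by
    rw [sum_const, Nat.card_Icc, nsmul_eq_mul, show w + 1 - 1 = w by omega]
    have h4 : ((w : ℝ)) ^ 2 ≤ 2 ^ (w + 2) := by exact_mod_cast sq_le_pow w
    rw [← div_eq_mul_inv, div_le_div_iff₀ (by positivity) hw0]
    linarith
  have h4 : ∑ p ∈ Ioc w Z, ((p : ℝ) ^ 2)⁻¹ ≤ 1 / w := by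
    have h5 := sum_Ioc_inv_sq_le_sub (α := ℝ) (k := w) (n := Z) (by omega) hw
    have h6 : (0 : ℝ) ≤ (Z : ℝ)⁻¹ := by positivity
    rw [one_div]
    linarith
  have h5 : (2 : ℝ) / w = 1 / w + 1 / w := by ring
  linarith

end QSaux

open QSaux

theorem stmt_QS (hM3 : Stmt_M3) : Stmt_QS := by
  intro ε hε
  obtain ⟨Z1, hZ1⟩ := hM3 (ε / 2) (by positivity)
  obtain ⟨w, hw⟩ := exists_nat_gt (max 3 (6 / ε))
  have hw3 : (3 : ℝ) < w := (le_max_left _ _).trans_lt hw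
  have hwε : 6 / ε < w := (le_max_right _ _).trans_lt hw
  have hw0 : (0 : ℝ) < w := by linarith
  have hw1 : 1 ≤ w := by
    have : (0 : ℝ) < w := hw0
    exact_mod_cast this
  refine ⟨FF w w, w, max Z1 (max w 1), ?_, ?_⟩
  · unfold FF
    exact Nat.one_le_iff_ne_zero.2 (prod_ne_zero_iff.2 fun l hl =>
      pow_ne_zero _ (mem_filter.1 hl).2.ne_zero)
  intro Z p0 hZ hp0
  have hZZ1 : Z1 ≤ Z := (le_max_left _ _).trans hZ
  have hZw : w ≤ Z := (le_max_left _ _).trans ((le_max_right _ _).trans hZ)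
  have hZ1' : 1 ≤ Z := (le_max_right _ _).trans ((le_max_right _ _).trans hZ)
  have hM := hZ1 Z hZZ1
  rw [sigma_QQ hZw hp0]
  set P := (Icc 1 Z).filter Nat.Prime with hP
  have hpr : ∀ p ∈ P, (2 : ℝ) ≤ p := fun p hp => by exact_mod_cast (mem_filter.1 hp).2.two_le
  have hfac : ∀ p ∈ P, 0 < (1 - 1 / (p : ℝ))⁻¹ := by
    intro p hp
    have h1 := hpr p hp
    have h2 : 1 / (p : ℝ) < 1 := by
      rw [div_lt_one (by linarith)]
      linarith
    exact inv_pos.2 (by linarith)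
  have h1 : 1 - 2 / (w : ℝ) ≤ ∏ p ∈ P.erase p0, (1 - ((p : ℝ) ^ (ex w w p + 1))⁻¹) := by
    have h2 := one_sub_sum_le_prod (P.erase p0) (fun p : ℕ => ((p : ℝ) ^ (ex w w p + 1))⁻¹)
      (fun p _ => by positivity) (fun p hp => by
        have h3 := hpr p (mem_of_mem_erase hp)
        exact inv_le_one_of_one_le₀ (one_le_pow₀ (by linarith)))
    have h3 := sum_delta hw1 hZw p0
    linarith
  have hall : 0 < ∏ p ∈ P, (1 - 1 / (p : ℝ))⁻¹ := prod_pos hfac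
  have h2 : (1 - 1 / (w : ℝ)) * ∏ p ∈ P, (1 - 1 / (p : ℝ))⁻¹ ≤
      ∏ p ∈ P.erase p0, (1 - 1 / (p : ℝ))⁻¹ := by
    by_cases h3 : p0 ∈ P
    · rcases hp0 with h4 | ⟨h4, h5⟩
      · exfalso
        rw [h4] at h3
        exact absurd (mem_Icc.1 (mem_filter.1 h3).1).1 (by norm_num)
      · rw [← mul_prod_erase P _ h3, ← mul_assoc]
        have h6 : (w : ℝ) < p0 := by exact_mod_cast h5
        have h7 : 0 < 1 - 1 / (p0 : ℝ) := inv_pos.1 (hfac p0 h3)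
        have h8 : (1 - 1 / (w : ℝ)) * (1 - 1 / (p0 : ℝ))⁻¹ ≤ 1 := by
          rw [← div_eq_mul_inv, div_le_one h7]
          have h9 : 1 / (p0 : ℝ) ≤ 1 / w := one_div_le_one_div_of_le hw0 h6.le
          linarith
        exact mul_le_of_le_one_left
          (prod_pos fun p hp => hfac p (mem_of_mem_erase hp)).le h8
    · rw [erase_eq_of_notMem h3]
      have h4 : (0 : ℝ) ≤ 1 / w := by positivity
      exact mul_le_of_le_one_left hall.le (by linarith)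
  have h3w : 3 / (w : ℝ) ≤ ε / 2 := by
    rw [div_le_iff₀ hw0]
    rw [div_lt_iff₀ hε] at hwε
    linarith
  have h1w : (1 : ℝ) / w = 1 * (1 / w) := by ring
  have hw1' : 1 / (w : ℝ) < 1 / 3 := one_div_lt_one_div_of_lt (by norm_num) hw3
  have e2w : (2 : ℝ) / w = 2 * (1 / w) := by ring
  have e3w : (3 : ℝ) / w = 3 * (1 / w) := by ring
  have h0w : (0 : ℝ) < 1 / w := by positivity
  obtain ⟨v, hv⟩ : ∃ v : ℝ, v = 1 / w := ⟨_, rfl⟩
  rw [e2w, ← hv] at h1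
  rw [← hv] at h2 hw1' h0w
  rw [e3w, ← hv] at h3w
  obtain ⟨PA', hPA⟩ : ∃ a, a = ∏ p ∈ P, (1 - 1 / (p : ℝ))⁻¹ := ⟨_, rfl⟩
  obtain ⟨PB, hPB⟩ : ∃ a, a = ∏ p ∈ P.erase p0, (1 - 1 / (p : ℝ))⁻¹ := ⟨_, rfl⟩
  obtain ⟨PC, hPC⟩ : ∃ a, a = ∏ p ∈ P.erase p0, (1 - ((p : ℝ) ^ (ex w w p + 1))⁻¹) := ⟨_, rfl⟩
  obtain ⟨L, hL⟩ : ∃ a, a = Real.exp Real.eulerMascheroniConstant * Real.log Z := ⟨_, rfl⟩
  rw [← hPA] at hM hall h2
  rw [← hPB] at h2
  rw [← hPC] at h1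
  rw [← hPB, ← hPC]
  have hL0 : 0 ≤ L := by
    rw [hL]
    exact mul_nonneg (Real.exp_pos _).le (Real.log_nonneg (by exact_mod_cast hZ1'))
  rw [mul_assoc, ← hL] at hM
  have h5 : (1 - 3 * v) * PA' ≤ PB * PC := by
    have h6 : 0 ≤ (1 - v) * PA' := mul_nonneg (by linarith) hall.le
    calc (1 - 3 * v) * PA' ≤ (1 - v) * PA' * (1 - 2 * v) := by
          have h7 : 0 ≤ v ^ 2 * PA' := mul_nonneg (sq_nonneg _) hall.le
          have h8 : (1 - v) * PA' * (1 - 2 * v) = (1 - 3 * v) * PA' + 2 * (v ^ 2 * PA') := by ring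
          rw [h8]
          linarith
      _ ≤ (1 - v) * PA' * PC := mul_le_mul_of_nonneg_left h1 h6
      _ ≤ PB * PC := mul_le_mul_of_nonneg_right h2 (by linarith)
  have h6 : (1 - ε) * L ≤ PB * PC := by
    refine le_trans ?_ h5
    have h7 : (1 - 3 * v) * ((1 - ε / 2) * L) ≤ (1 - 3 * v) * PA' :=
      mul_le_mul_of_nonneg_left hM (by linarith)
    refine le_trans ?_ h7
    have h8 : (1 - 3 * v) * (1 - ε / 2) = 1 - ε / 2 - 3 * v + 3 * v * (ε / 2) := by ring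
    rw [← mul_assoc, h8]
    refine mul_le_mul_of_nonneg_right ?_ hL0
    have h9 : 0 ≤ 3 * v * (ε / 2) := by positivity
    linarith
  have h7 : (1 - ε) * Real.exp Real.eulerMascheroniConstant * Real.log Z *
      ((QQ (FF w w) Z p0 : ℕ) : ℝ) = ((QQ (FF w w) Z p0 : ℕ) : ℝ) * ((1 - ε) * L) := by
    rw [hL]
    ring
  rw [h7]
  exact mul_le_mul_of_nonneg_left h6 (Nat.cast_nonneg _)

end Pool.Agent.Work.MP_495a89_nm
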