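import Mathlib
import Pool.Agent.Work.MP_495a89_nm.Interface
import Pool.Agent.Work.MP_495a89_nt.SV
import Pool.Agent.Work.MP_b0c12c_nt_helper41.Mert

/-!
# Block S2: sieve of dimension two for `p`, `k p - 1`
-/

set_option autoImplicit false

open Finset
open Pool.Agent.Work.MP_b0c12c_nt_helper41 (FF FF_le mertens2)

namespace Pool.Agent.Work.MP_495a89_nm

namespace S2aux

def PP (Y : ℕ) : Finset ℕ := (Ioc 4 Y).filter Nat.Prime

def BB (k q : ℕ) : Finset ℕ := (range q).filter (fun c => c = 0 ∨ k * c % q = 1)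

theorem card_dvd {k q : ℕ} (hq : q.Prime) (h : q ∣ k) : (BB k q).card = 1 := by
  have e : BB k q = {0} := by
    ext c
    rw [BB, mem_filter, mem_range, mem_singleton]
    constructor
    · rintro ⟨h1, h2 | h2⟩
      · exact h2
      · rw [Nat.mod_eq_zero_of_dvd (h.mul_right c)] at h2
        omega
    · rintro rfl
      exact ⟨hq.pos, Or.inl rfl⟩
  rw [e, card_singleton]

theorem card_not_dvd {k q : ℕ} (hq : q.Prime) (h : ¬ q ∣ k) : (BB k q).card = 2 := by
  have hcop : Nat.Coprime k q := ((Nat.Prime.coprime_iff_not_dvd hq).2 h).symm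
  obtain ⟨c0, h0, h1⟩ := Nat.exists_mul_mod_eq_one_of_coprime hcop hq.one_lt
  have hne : c0 ≠ 0 := by
    rintro rfl
    simp at h1
  have e : BB k q = {0, c0} := by
    ext c
    rw [BB, mem_filter, mem_range, mem_insert, mem_singleton]
    constructor
    · rintro ⟨h2, h3 | h3⟩
      · exact Or.inl h3
      · right
        have h4 : k * c ≡ k * c0 [MOD q] := by
          rw [Nat.ModEq, h3, h1]
        have h5 : c ≡ c0 [MOD q] := Nat.ModEq.cancel_left_of_coprime hcop.symm h4
        exact Nat.ModEq.eq_of_lt_of_lt h5 h2 h0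
    · rintro (rfl | rfl)
      · exact ⟨hq.pos, Or.inl rfl⟩
      · exact ⟨h0, Or.inr h1⟩
  rw [e, card_pair (Ne.symm hne)]

theorem card_le {k q : ℕ} (hq : q.Prime) : (BB k q).card ≤ 2 := by
  by_cases h : q ∣ k
  · rw [card_dvd hq h]; norm_num
  · rw [card_not_dvd hq h]

theorem sum_log {k Y : ℕ} (hY : 3 ≤ Y) :
    ∑ q ∈ PP Y, ((BB k q).card : ℝ) / q * Real.log q ≤ 14 * Real.log Y := by
  have hl : 1 ≤ Real.log Y := Pool.Agent.Work.MP_495a89_nt.SVW.one_le_log hY
  calc ∑ q ∈ PP Y, ((BB k q).card : ℝ) / q * Real.log q ≤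
      ∑ q ∈ PP Y, 2 * (Real.log q / q) := by
        apply sum_le_sum
        intro q hq
        rw [PP, mem_filter] at hq
        have h1 : ((BB k q).card : ℝ) ≤ 2 := by exact_mod_cast card_le hq.2
        have h2 : 0 ≤ Real.log q / q := by
          have := Real.log_natCast_nonneg q
          positivity
        calc ((BB k q).card : ℝ) / q * Real.log q = ((BB k q).card : ℝ) * (Real.log q / q) := by
              ring
          _ ≤ _ := mul_le_mul_of_nonneg_right h1 h2
    _ = 2 * ∑ q ∈ PP Y, Real.log q / q := by rw [mul_sum]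
    _ ≤ 2 * FF Y := by
        apply mul_le_mul_of_nonneg_left _ (by norm_num)
        unfold FF PP
        apply sum_le_sum_of_subset_of_nonneg
        · intro q hq
          rw [mem_filter, mem_Ioc] at hq
          rw [mem_filter, mem_Icc]
          exact ⟨⟨hq.2.pos, hq.1.2⟩, hq.2⟩
        · intro q _ _
          have := Real.log_natCast_nonneg q
          positivity
    _ ≤ 2 * (Real.log Y + 6) := by
        apply mul_le_mul_of_nonneg_left _ (by norm_num)
        exact FF_le (by omega)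
    _ ≤ _ := by linarith

theorem one_sub_inv_pos {p : ℕ} (hp : p.Prime) : (0 : ℝ) < 1 - (p : ℝ)⁻¹ := by
  have : (2 : ℝ) ≤ p := by exact_mod_cast hp.two_le
  have h : (p : ℝ)⁻¹ ≤ 2⁻¹ := inv_anti₀ (by norm_num) this
  linarith

/-- `exp (∑ 1 / q) ≤ k / φ(k)` -/
theorem exp_sum_le {k : ℕ} (hk : 1 ≤ k) :
    Real.exp (∑ q ∈ k.primeFactors, 1 / (q : ℝ)) ≤ k / k.totient := by
  have h1 : (k.totient : ℝ) = k * ∏ p ∈ k.primeFactors, (1 - (p : ℝ)⁻¹) := by
    have h := congrArg (fun x : ℚ => (x : ℝ)) (Nat.totient_eq_mul_prod_factors k)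
    push_cast at h
    exact h
  have hpos : 0 < ∏ p ∈ k.primeFactors, (1 - (p : ℝ)⁻¹) :=
    prod_pos fun p hp => one_sub_inv_pos (Nat.prime_of_mem_primeFactors hp)
  have hk0 : (0 : ℝ) < k := by exact_mod_cast hk
  have h2 : (k : ℝ) / k.totient = ∏ p ∈ k.primeFactors, (1 - (p : ℝ)⁻¹)⁻¹ := by
    rw [h1, prod_inv_distrib]
    field_simp
  rw [h2, Real.exp_sum]
  apply prod_le_prod
  · intro p _
    exact (Real.exp_pos _).le
  · intro p hp
    have h3 := one_sub_inv_pos (Nat.prime_of_mem_primeFactors hp)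
    rw [le_inv_comm₀ (Real.exp_pos _) h3, ← Real.exp_neg, one_div]
    have := Real.add_one_le_exp (-(p : ℝ)⁻¹)
    linarith

theorem prod_le : ∃ C : ℝ, 0 < C ∧ ∀ k Y : ℕ, 1 ≤ k → 4 ≤ Y →
    ∏ q ∈ PP Y, (1 - ((BB k q).card : ℝ) / q) ≤ C / Real.log Y ^ 2 * (k / k.totient) := by
  obtain ⟨C0, hC0, hm⟩ := mertens2
  obtain ⟨C', hC'⟩ : ∃ C' : ℝ, ∀ Y : ℕ, 4 ≤ Y →
      Real.log (Real.log Y) - C' ≤ ∑ q ∈ PP Y, 1 / (q : ℝ) := by
    refine ⟨C0 / Real.log ((4 : ℕ) : ℝ) + Real.log (Real.log ((4 : ℕ) : ℝ)), fun Y hY => ?_⟩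
    have h1 := (abs_le.1 (hm 4 Y (by norm_num) hY)).1
    change _ ≤ ∑ p ∈ (Ioc 4 Y).filter Nat.Prime, 1 / (p : ℝ)
    generalize Real.log (Real.log ((4 : ℕ) : ℝ)) = t1 at h1 ⊢
    generalize C0 / Real.log ((4 : ℕ) : ℝ) = t2 at h1 ⊢
    linarith
  refine ⟨Real.exp (2 * C'), Real.exp_pos _, fun k Y hk hY => ?_⟩
  have hlY : 1 ≤ Real.log Y := Pool.Agent.Work.MP_495a89_nt.SVW.one_le_log (by omega)
  have h2 := hC' Y hY
  have h4 : 2 * ∑ q ∈ PP Y, 1 / (q : ℝ) - ∑ q ∈ k.primeFactors, 1 / (q : ℝ) ≤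
      ∑ q ∈ PP Y, ((BB k q).card : ℝ) / q := by
    have h5 : ∑ q ∈ PP Y, (2 * (1 / (q : ℝ)) - if q ∣ k then 1 / (q : ℝ) else 0) ≤
        ∑ q ∈ PP Y, ((BB k q).card : ℝ) / q := by
      apply sum_le_sum
      intro q hq
      rw [PP, mem_filter] at hq
      split_ifs with h
      · rw [card_dvd hq.2 h]
        push_cast
        linarith
      · rw [card_not_dvd hq.2 h]
        apply le_of_eq
        push_cast
        ring
    rw [sum_sub_distrib, ← mul_sum, ← sum_filter] at h5
    have h6 : ∑ q ∈ (PP Y).filter (fun q => q ∣ k), 1 / (q : ℝ) ≤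
        ∑ q ∈ k.primeFactors, 1 / (q : ℝ) := by
      apply sum_le_sum_of_subset_of_nonneg
      · intro q hq
        rw [mem_filter, PP, mem_filter] at hq
        rw [Nat.mem_primeFactors]
        exact ⟨hq.1.2, hq.2, by omega⟩
      · intro q _ _
        positivity
    linarith
  calc ∏ q ∈ PP Y, (1 - ((BB k q).card : ℝ) / q) ≤
      ∏ q ∈ PP Y, Real.exp (-(((BB k q).card : ℝ) / q)) := by
        apply prod_le_prod
        · intro q hq
          rw [PP, mem_filter, mem_Ioc] at hq
          have hc : ((BB k q).card : ℝ) ≤ 2 := by exact_mod_cast card_le hq.2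
          have hq5 : (5 : ℝ) ≤ q := by exact_mod_cast hq.1.1
          have : ((BB k q).card : ℝ) / q ≤ 1 := by
            rw [div_le_one (by linarith)]
            linarith
          linarith
        · intro q _
          have := Real.add_one_le_exp (-(((BB k q).card : ℝ) / q))
          linarith
    _ = Real.exp (-∑ q ∈ PP Y, ((BB k q).card : ℝ) / q) := by
        rw [← Real.exp_sum, sum_neg_distrib]
    _ ≤ Real.exp (2 * C' + -(2 * Real.log (Real.log Y)) +
          ∑ q ∈ k.primeFactors, 1 / (q : ℝ)) := by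
        rw [Real.exp_le_exp]
        linarith
    _ = Real.exp (2 * C') / Real.log Y ^ 2 *
          Real.exp (∑ q ∈ k.primeFactors, 1 / (q : ℝ)) := by
        rw [Real.exp_add, Real.exp_add, Real.exp_neg]
        have : Real.exp (2 * Real.log (Real.log Y)) = Real.log Y ^ 2 := by
          rw [two_mul, Real.exp_add, Real.exp_log (by linarith)]
          ring
        rw [this]
        rfl
    _ ≤ _ := by
        apply mul_le_mul_of_nonneg_left (exp_sum_le hk)
        positivity

theorem sub_set {k X Y : ℕ} (hk : 1 ≤ k) :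
    (Icc 1 X).filter (fun p => p.Prime ∧ (k * p - 1).Prime) ⊆
      Icc 1 (Y + 1) ∪ (Ioc 0 (0 + X)).filter (fun m => ∀ q ∈ PP Y, m % q ∉ BB k q) := by
  intro p hp
  rw [mem_filter, mem_Icc] at hp
  obtain ⟨⟨hp1, hp2⟩, hp3, hp4⟩ := hp
  rw [mem_union, mem_Icc, mem_filter, mem_Ioc]
  by_cases hY : p ≤ Y + 1
  · exact Or.inl ⟨hp1, hY⟩
  · right
    refine ⟨⟨hp1, by omega⟩, ?_⟩
    intro q hq hB
    rw [PP, mem_filter, mem_Ioc] at hq
    rw [BB, mem_filter] at hB
    rcases hB.2 with h | h
    · have hd : q ∣ p := Nat.dvd_of_mod_eq_zero h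
      have := (Nat.prime_dvd_prime_iff_eq hq.2 hp3).1 hd
      omega
    · have h2 : k * p % q = 1 := by
        rw [← h, Nat.mul_mod, Nat.mul_mod k (p % q), Nat.mod_mod]
      have hd : q ∣ k * p - 1 := by
        have := Nat.dvd_sub_mod (n := q) (k * p)
        rwa [h2] at this
      have h3 := (Nat.prime_dvd_prime_iff_eq hq.2 hp4).1 hd
      have h4 : p ≤ k * p := Nat.le_mul_of_pos_left p hk
      omega

theorem log_sq_le {X : ℝ} (hX : 1 ≤ X) : Real.log X ^ 2 ≤ 16 * √X := by
  have h1 : Real.log X = 4 * Real.log (√(√X)) := by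
    rw [Real.log_sqrt (by positivity), Real.log_sqrt (by linarith)]
    ring
  have h2 : Real.log (√(√X)) ≤ √(√X) := by
    have := Real.log_le_sub_one_of_pos (x := √(√X)) (by positivity)
    linarith
  have h3 : 0 ≤ Real.log (√(√X)) := by
    apply Real.log_nonneg
    rw [Real.one_le_sqrt, Real.one_le_sqrt]
    exact hX
  have h4 : √(√X) ^ 2 = √X := Real.sq_sqrt (by positivity)
  rw [h1]
  nlinarith

end S2aux

open S2aux in
/-- Block S2. -/
theorem stmt_S2 : Stmt_S2 := by
  obtain ⟨C0, hC0, hprod⟩ := prod_le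
  obtain ⟨D0, hSV⟩ := Pool.Agent.Work.MP_495a89_nt.stmt_SV 14 (by norm_num)
  set D := max D0 2 with hD
  have hD2 : 2 ≤ D := le_max_right _ _
  have hD0 : D0 ≤ D := le_max_left _ _
  have hDr : (2 : ℝ) ≤ D := by exact_mod_cast hD2
  refine ⟨12 * C0 * D ^ 2 + 32 + 4 * D ^ 2, by positivity, ?_⟩
  intro k X hk hX
  have hX1 : (1 : ℝ) ≤ X := by exact_mod_cast hX
  have hk0 : (0 : ℝ) < k := by exact_mod_cast hk
  have htp : 0 < k.totient := Nat.totient_pos.2 hk
  have ht0 : (0 : ℝ) < k.totient := by exact_mod_cast htp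
  have hkt : 1 ≤ (k : ℝ) / k.totient := by
    rw [one_le_div ht0]
    exact_mod_cast Nat.totient_le k
  have hlX : 0 ≤ Real.log X := Real.log_nonneg hX1
  set N2 := ((Icc 1 X).filter fun p => p.Prime ∧ (k * p - 1).Prime) with hN2
  by_cases hsm : X < 4 ^ D
  · have h1 : (N2.card : ℝ) ≤ X := by
      have : N2.card ≤ X := by
        refine (Finset.card_le_card (filter_subset _ _)).trans ?_
        simp
      exact_mod_cast this
    have h2 : Real.log X ≤ D * Real.log 4 := by
      rw [← Real.log_pow]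
      apply Real.log_le_log (by linarith)
      exact_mod_cast hsm.le
    have h3 : Real.log 4 ≤ 2 := by
      have e : (4 : ℝ) = 2 ^ 2 := by norm_num
      rw [e, Real.log_pow]
      have := Real.log_two_lt_d9
      push_cast
      linarith
    have h4 : Real.log X ≤ 2 * D := by nlinarith
    have h5 : Real.log X ^ 2 ≤ 4 * D ^ 2 := by nlinarith
    calc (N2.card : ℝ) * Real.log X ^ 2 ≤ (X : ℝ) * (4 * (D : ℝ) ^ 2) :=
          mul_le_mul h1 h5 (by positivity) (by positivity)
      _ = 4 * (D : ℝ) ^ 2 * (X : ℝ) * 1 := by ring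
      _ ≤ (12 * C0 * D ^ 2 + 32 + 4 * D ^ 2) * X * (k / k.totient) := by
          apply mul_le_mul _ hkt (by norm_num) (by positivity)
          apply mul_le_mul_of_nonneg_right _ (by positivity)
          have : 0 ≤ 12 * C0 * (D : ℝ) ^ 2 := by positivity
          linarith
  · push Not at hsm
    set Y := Nat.findGreatest (fun y => y ^ D ≤ X) X with hY
    have h4X : 4 ≤ X := by
      refine le_trans ?_ hsm
      calc 4 = 4 ^ 1 := rfl
        _ ≤ 4 ^ D := Nat.pow_le_pow_right (by norm_num) (by omega)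
    have hY4 : 4 ≤ Y := Nat.le_findGreatest h4X hsm
    have hYX : Y ^ D ≤ X := Nat.findGreatest_spec (P := fun y => y ^ D ≤ X) h4X hsm
    have hYX' : X < (Y + 1) ^ D := by
      by_cases h : Y + 1 ≤ X
      · have := Nat.findGreatest_is_greatest (P := fun y => y ^ D ≤ X) (n := X) (k := Y + 1)
          (Nat.lt_succ_self _) h
        omega
      · calc X < Y + 1 := by omega
          _ = (Y + 1) ^ 1 := (pow_one _).symm
          _ ≤ (Y + 1) ^ D := Nat.pow_le_pow_right (by omega) (by omega)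
    have hlY : 1 ≤ Real.log Y := Pool.Agent.Work.MP_495a89_nt.SVW.one_le_log (by omega)
    have hY0 : (0 : ℝ) < Y := by
      have : 0 < Y := by omega
      exact_mod_cast this
    have hlXY : Real.log X ≤ 2 * D * Real.log Y := by
      have h1 : Real.log X ≤ D * Real.log ((Y + 1 : ℕ) : ℝ) := by
        rw [← Real.log_pow]
        apply Real.log_le_log (by linarith)
        exact_mod_cast hYX'.le
      have h2 : Real.log ((Y + 1 : ℕ) : ℝ) ≤ 2 * Real.log Y := by
        have e : 2 * Real.log Y = Real.log ((Y : ℝ) ^ 2) := by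
          rw [Real.log_pow]; push_cast; ring
        rw [e]
        apply Real.log_le_log (by positivity)
        have : Y + 1 ≤ Y ^ 2 := by nlinarith
        exact_mod_cast this
      nlinarith
    have hsq : Real.log X ^ 2 ≤ 4 * D ^ 2 * Real.log Y ^ 2 := by
      have := pow_le_pow_left₀ hlX hlXY 2
      nlinarith
    have hS := hSV Y X 0 (PP Y) (BB k) (by omega) (fun q hq => by
        rw [PP, mem_filter, mem_Ioc] at hq
        refine ⟨hq.2, hq.1.2, filter_subset _ _, ?_⟩
        have := card_le (k := k) hq.2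
        omega) (sum_log (by omega))
        ((Nat.pow_le_pow_right (by omega) hD0).trans hYX)
    have hp := hprod k Y hk hY4
    have hcard : (N2.card : ℝ) ≤ (Y + 1) + 3 * X * (C0 / Real.log Y ^ 2 * (k / k.totient)) := by
      have h1 := (Finset.card_le_card (sub_set (X := X) (Y := Y) hk)).trans (card_union_le _ _)
      have h2 : (N2.card : ℝ) ≤ ((Icc 1 (Y + 1)).card : ℝ) +
          (((Ioc 0 (0 + X)).filter (fun m => ∀ q ∈ PP Y, m % q ∉ BB k q)).card : ℝ) := by
        exact_mod_cast h1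
      have h3 : ((Icc 1 (Y + 1)).card : ℝ) = Y + 1 := by simp
      rw [h3] at h2
      refine h2.trans ?_
      gcongr
      refine hS.trans ?_
      gcongr
    -- the two parts
    have hsqrt : (Y : ℝ) + 1 ≤ 2 * √X := by
      have h1 : Y ^ 2 ≤ X := (Nat.pow_le_pow_right (by omega) hD2).trans hYX
      have h2 : (Y : ℝ) ≤ √X := by
        apply Real.le_sqrt_of_sq_le
        exact_mod_cast h1
      have h3 : (1 : ℝ) ≤ Y := by
        have : 1 ≤ Y := by omega
        exact_mod_cast this
      linarith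
    have hpart1 : ((Y : ℝ) + 1) * Real.log X ^ 2 ≤ 32 * X := by
      have h1 := log_sq_le hX1
      have h2 : √(X : ℝ) * √X = X := Real.mul_self_sqrt (by positivity)
      calc ((Y : ℝ) + 1) * Real.log X ^ 2 ≤ (2 * √X) * (16 * √X) :=
            mul_le_mul hsqrt h1 (by positivity) (by positivity)
        _ = 32 * (√X * √X) := by ring
        _ = _ := by rw [h2]
    have hpart2 : 3 * X * (C0 / Real.log Y ^ 2 * (k / k.totient)) * Real.log X ^ 2 ≤
        12 * C0 * D ^ 2 * X * (k / k.totient) := by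
      have hl2 : 0 < Real.log Y ^ 2 := by positivity
      calc 3 * X * (C0 / Real.log Y ^ 2 * (k / k.totient)) * Real.log X ^ 2 ≤
          3 * X * (C0 / Real.log Y ^ 2 * (k / k.totient)) * (4 * D ^ 2 * Real.log Y ^ 2) := by
            gcongr
        _ = _ := by
            field_simp
            ring
    calc (N2.card : ℝ) * Real.log X ^ 2 ≤
        ((Y + 1) + 3 * X * (C0 / Real.log Y ^ 2 * (k / k.totient))) * Real.log X ^ 2 := by
          gcongr
      _ = (Y + 1) * Real.log X ^ 2 +
          3 * X * (C0 / Real.log Y ^ 2 * (k / k.totient)) * Real.log X ^ 2 := by ring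
      _ ≤ 32 * X * (k / k.totient) + 12 * C0 * D ^ 2 * X * (k / k.totient) := by
          refine _root_.add_le_add (hpart1.trans ?_) hpart2
          exact le_mul_of_one_le_right (by positivity) hkt
      _ ≤ _ := by
          have : 0 ≤ 4 * (D : ℝ) ^ 2 * X * (k / k.totient) := by positivity
          linarith

end Pool.Agent.Work.MP_495a89_nm
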