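import Pool.Agent.Work.MP_495a89_nm.BT
import Pool.Agent.Work.MP_495a89_nm.S2
import Pool.Agent.Work.MP_495a89_nm.PHI
import Pool.Agent.Work.MP_495a89_nm.LA
import Pool.Agent.Work.MP_495a89_nm.LB
import Pool.Agent.Work.MP_495a89_nm.LC
import Pool.Agent.Work.MP_495a89_nm.LD
import Pool.Agent.Work.MP_495a89_nm.LO
import Pool.Agent.Work.MP_495a89_nm.MS
import Pool.Agent.Work.MP_495a89_nm.HB
import Pool.Agent.Work.MP_495a89_nm.CO
import Pool.Agent.Work.MP_495a89_nm.TR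
import Pool.Agent.Work.MP_495a89_nm.DV
import Pool.Agent.Work.MP_495a89_nm.M3
import Pool.Agent.Work.MP_495a89_nm.QS
import Pool.Agent.Work.MP_495a89_nm.EXF
import Pool.Agent.Work.MP_495a89_nm.PNF
import Pool.Agent.Work.MP_495a89_nm.LW
import Pool.Agent.Work.MP_495a89_nm.FN

/-!
Near multiperfect numbers: assembly.
-/

set_option autoImplicit false

namespace Pool.Agent.Work.MP_495a89_nm

theorem main : Stmt_FN :=
  stmt_FN (stmt_MS (stmt_LO (stmt_LA stmt_BT) (stmt_LB stmt_BT) (stmt_LC stmt_BT)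
    (stmt_LD stmt_S2 stmt_PHI))) (stmt_CO stmt_HB) stmt_TR stmt_DV (stmt_QS stmt_M3)
    (stmt_LW stmt_EXF stmt_PNF)

end Pool.Agent.Work.MP_495a89_nm
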