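import Mathlib
import Pool.Agent.Work.MP_b0c12c_nt_shift.WSap
import Pool.Agent.Work.MP_b0c12c_nt_shift.WS
import Pool.Agent.Work.MP_495a89_nm.Interface

/-!
# Common lemmas for the sieve blocks BT and S2
-/

set_option autoImplicit false

namespace Pool.Agent.Work.MP_495a89_nm.Sv

open Finset

/-- integral part of the root -/
theorem root (D N : ℕ) (hD : 1 ≤ D) : ∃ W : ℕ, W ^ D ≤ N ∧ N < (W + 1) ^ D := by
  classical
  refine ⟨Nat.findGreatest (fun w => w ^ D ≤ N) N, ?_, ?_⟩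
  · exact Nat.findGreatest_spec (P := fun w => w ^ D ≤ N) (m := 0) (Nat.zero_le _)
      (by simp [Nat.zero_pow (by omega : 0 < D)])
  · by_contra h
    rw [not_lt] at h
    have h1 : Nat.findGreatest (fun w => w ^ D ≤ N) N + 1 ≤ N :=
      le_trans (Nat.le_self_pow (by omega) _) h
    have h2 := Nat.le_findGreatest (P := fun w => w ^ D ≤ N) h1 h
    omega

/-- the primes in `(z, W]` not dividing `k` -/
def PP (z W k : ℕ) : Finset ℕ := (Ioc z W).filter fun p => p.Prime ∧ ¬ p ∣ k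

/-- the primes in `(z, W]` dividing `k` -/
def PD (z W k : ℕ) : Finset ℕ := (Ioc z W).filter fun p => p.Prime ∧ p ∣ k

theorem phi_le (z W k : ℕ) (hk : 1 ≤ k) :
    (k.totient : ℝ) / k ≤ ∏ p ∈ PD z W k, (1 - 1 / (p : ℝ)) := by
  have hk0 : (0 : ℝ) < k := by exact_mod_cast hk
  have h1 : (k.totient : ℝ) = k * ∏ p ∈ k.primeFactors, (1 - 1 / (p : ℝ)) := by
    have := Nat.totient_eq_mul_prod_factors k
    have h2 : ((k.totient : ℚ) : ℝ) = ((k * ∏ p ∈ k.primeFactors, (1 - (p : ℚ)⁻¹) : ℚ) : ℝ) := by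
      rw [this]
    push_cast at h2
    rw [h2]
    congr 1
    apply prod_congr rfl
    intro p _
    rw [one_div]
  rw [h1, mul_div_assoc, mul_comm, div_mul_cancel₀ _ hk0.ne']
  have hsub : PD z W k ⊆ k.primeFactors := by
    intro p hp
    rw [PD, mem_filter] at hp
    exact Nat.mem_primeFactors.2 ⟨hp.2.1, hp.2.2, by omega⟩
  rw [← prod_sdiff hsub]
  have h01 : ∀ p ∈ k.primeFactors, 0 ≤ 1 - 1 / (p : ℝ) ∧ 1 - 1 / (p : ℝ) ≤ 1 := by
    intro p hp
    have hp1 : (1 : ℝ) ≤ p := by exact_mod_cast (Nat.prime_of_mem_primeFactors hp).one_lt.le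
    have h3 : 1 / (p : ℝ) ≤ 1 := by rw [div_le_one (by linarith)]; exact hp1
    have h4 : 0 ≤ 1 / (p : ℝ) := by positivity
    constructor <;> linarith
  have h2 : ∏ p ∈ k.primeFactors \ PD z W k, (1 - 1 / (p : ℝ)) ≤ 1 :=
    prod_le_one (fun p hp => (h01 p (mem_sdiff.1 hp).1).1) (fun p hp => (h01 p (mem_sdiff.1 hp).1).2)
  have h3 : 0 ≤ ∏ p ∈ PD z W k, (1 - 1 / (p : ℝ)) :=
    prod_nonneg fun p hp => (h01 p (hsub hp)).1
  calc _ ≤ 1 * ∏ p ∈ PD z W k, (1 - 1 / (p : ℝ)) := mul_le_mul_of_nonneg_right h2 h3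
    _ = _ := one_mul _

theorem mert : ∃ C : ℝ, 0 < C ∧ ∀ z W : ℕ, 2 ≤ z → z ≤ W →
    (∏ p ∈ (Ioc z W).filter Nat.Prime, (1 - 1 / (p : ℝ))) ≤ C * (Real.log z / Real.log W) := by
  obtain ⟨C, hC, h⟩ := Pool.Agent.Work.MP_b0c12c_nt_shift.WSap.mertens_prod
  refine ⟨C, hC, fun z W hz hzW => ?_⟩
  have h1 := h z W 0 hz hzW
  rwa [erase_eq_of_notMem (by
    intro h0
    exact Nat.not_prime_zero (mem_filter.1 h0).2)] at h1

theorem split (z W k : ℕ) :
    (∏ p ∈ PP z W k, (1 - 1 / (p : ℝ))) * ∏ p ∈ PD z W k, (1 - 1 / (p : ℝ)) =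
      ∏ p ∈ (Ioc z W).filter Nat.Prime, (1 - 1 / (p : ℝ)) := by
  classical
  have e1 : PP z W k = ((Ioc z W).filter Nat.Prime).filter (fun p => ¬ p ∣ k) := by
    rw [PP, filter_filter]
  have e2 : PD z W k = ((Ioc z W).filter Nat.Prime).filter (fun p => p ∣ k) := by
    rw [PD, filter_filter]
  rw [e1, e2, mul_comm]
  exact prod_filter_mul_prod_filter_not _ _ _

theorem PP_nonneg (z W k : ℕ) : 0 ≤ ∏ p ∈ PP z W k, (1 - 1 / (p : ℝ)) := by
  apply prod_nonneg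
  intro p hp
  rw [PP, mem_filter] at hp
  have hp1 : (1 : ℝ) ≤ p := by exact_mod_cast hp.2.1.one_lt.le
  have h3 : 1 / (p : ℝ) ≤ 1 := by rw [div_le_one (by linarith)]; exact hp1
  linarith

/-- the product over the primes `2 < p ≤ W` not dividing `k` -/
theorem PP_le : ∃ C : ℝ, 0 < C ∧ ∀ W k : ℕ, 2 ≤ W → 1 ≤ k →
    (∏ p ∈ PP 2 W k, (1 - 1 / (p : ℝ))) ≤ C / Real.log W * (k / k.totient) := by
  obtain ⟨C, hC, h⟩ := mert
  have hl2 : 0 < Real.log 2 := Real.log_pos (by norm_num)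
  refine ⟨C * Real.log 2, by positivity, fun W k hW hk => ?_⟩
  have h1 := h 2 W le_rfl hW
  rw [← split 2 W k] at h1
  have hk0 : (0 : ℝ) < k := by exact_mod_cast hk
  have hphi : (0 : ℝ) < k.totient := by exact_mod_cast Nat.totient_pos.2 (by omega)
  have h2 := mul_le_mul_of_nonneg_left (phi_le 2 W k hk) (PP_nonneg 2 W k)
  have h3 := h2.trans h1
  have h4 : (∏ p ∈ PP 2 W k, (1 - 1 / (p : ℝ))) =
      ((∏ p ∈ PP 2 W k, (1 - 1 / (p : ℝ))) * (k.totient / k)) * (k / k.totient) := by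
    field_simp
  rw [h4]
  have h5 : 0 ≤ (k : ℝ) / k.totient := by positivity
  calc _ ≤ (C * (Real.log (2 : ℕ) / Real.log W)) * (k / k.totient) :=
        mul_le_mul_of_nonneg_right h3 h5
    _ = _ := by push_cast; ring

/-- a residue class `k c ≡ 1` modulo `p` -/
theorem exists_class {p k : ℕ} (hp : p.Prime) (hk : ¬ p ∣ k) :
    ∃ c0 < p, ∀ c < p, (k * c ≡ 1 [MOD p] ↔ c = c0) := by
  have hcop : Nat.Coprime k p := ((Nat.Prime.coprime_iff_not_dvd hp).2 hk).symm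
  obtain ⟨m, _, hm⟩ := Nat.exists_mul_mod_eq_one_of_coprime hcop hp.one_lt
  refine ⟨m % p, Nat.mod_lt _ hp.pos, fun c hc => ?_⟩
  have h1 : k * (m % p) ≡ 1 [MOD p] := by
    have h2 : k * (m % p) ≡ k * m [MOD p] := (Nat.mod_modEq m p).mul_left k
    have h3 : k * m ≡ 1 [MOD p] := by
      unfold Nat.ModEq
      rw [hm, Nat.mod_eq_of_lt hp.one_lt]
    exact h2.trans h3
  constructor
  · intro h
    have h2 : k * c ≡ k * (m % p) [MOD p] := h.trans h1.symm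
    have h3 : c ≡ m % p [MOD p] := Nat.ModEq.cancel_left_of_coprime hcop.symm h2
    exact h3.eq_of_lt_of_lt hc (Nat.mod_lt _ hp.pos)
  · intro h
    rw [h]
    exact h1

end Pool.Agent.Work.MP_495a89_nm.Sv
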