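import Mathlib
import Pool.Agent.Work.MP_495a89_nm.Sv

/-!
# Block BT: Brun–Titchmarsh for the class `-1`
-/

set_option autoImplicit false

namespace Pool.Agent.Work.MP_495a89_nm

open Finset

namespace BTaux

open Sv

theorem PA_mem {x k q : ℕ} : q ∈ PA x k ↔ (1 ≤ q ∧ q ≤ x) ∧ q.Prime ∧ k ∣ q + 1 := by
  rw [PA, mem_filter, mem_Icc]

/-- the elements of `PA` above `W` are counted by the sieve -/
theorem big_le {x k W : ℕ} (hk : 1 ≤ k) :
    (((PA x k).filter fun q => W < q).card : ℝ) ≤
      ∑ j ∈ Ioc 0 (0 + (x + 1) / k), ∏ p ∈ PP 2 W k,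
        (if k * (j % p) ≡ 1 [MOD p] then (0 : ℝ) else 1) := by
  classical
  have h1 : ∀ j ∈ ((PA x k).filter fun q => W < q).image (fun q => (q + 1) / k),
      j ∈ Ioc 0 (0 + (x + 1) / k) ∧
      ∏ p ∈ PP 2 W k, (if k * (j % p) ≡ 1 [MOD p] then (0 : ℝ) else 1) = 1 := by
    intro j hj
    rw [mem_image] at hj
    obtain ⟨q, hq, rfl⟩ := hj
    rw [mem_filter, PA_mem] at hq
    obtain ⟨⟨⟨hq1, hqx⟩, hqp, hkq⟩, hWq⟩ := hq
    constructor
    · rw [mem_Ioc, zero_add]
      exact ⟨Nat.div_pos (Nat.le_of_dvd (by omega) hkq) (by omega),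
        Nat.div_le_div_right (by omega)⟩
    · apply prod_eq_one
      intro p hp
      rw [PP, mem_filter, mem_Ioc] at hp
      rw [if_neg]
      intro h
      have h2 : k * ((q + 1) / k % p) ≡ k * ((q + 1) / k) [MOD p] :=
        (Nat.mod_modEq _ p).mul_left k
      rw [Nat.mul_div_cancel' hkq] at h2
      have h3 : q + 1 ≡ 0 + 1 [MOD p] := h2.symm.trans h
      have h4 : q ≡ 0 [MOD p] := Nat.ModEq.add_right_cancel' 1 h3
      have h5 : p ∣ q := (Nat.modEq_zero_iff_dvd).1 h4
      rcases (Nat.dvd_prime hqp).1 h5 with h6 | h6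
      · exact hp.2.1.one_lt.ne' h6
      · omega
  have hinj : Set.InjOn (fun q => (q + 1) / k) ((PA x k).filter fun q => W < q : Set ℕ) := by
    intro q hq q' hq' h
    rw [mem_coe, mem_filter, PA_mem] at hq hq'
    have e1 := Nat.div_mul_cancel hq.1.2.2
    have e2 := Nat.div_mul_cancel hq'.1.2.2
    simp only at h
    rw [h] at e1
    omega
  have h0 : ∀ j, (0 : ℝ) ≤ ∏ p ∈ PP 2 W k, (if k * (j % p) ≡ 1 [MOD p] then (0 : ℝ) else 1) :=
    fun j => prod_nonneg fun p _ => by split_ifs <;> norm_num
  rw [← card_image_of_injOn hinj]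
  calc ((((PA x k).filter fun q => W < q).image (fun q => (q + 1) / k)).card : ℝ) =
      ∑ j ∈ ((PA x k).filter fun q => W < q).image (fun q => (q + 1) / k), (1 : ℝ) := by simp
    _ = ∑ j ∈ ((PA x k).filter fun q => W < q).image (fun q => (q + 1) / k),
        ∏ p ∈ PP 2 W k, (if k * (j % p) ≡ 1 [MOD p] then (0 : ℝ) else 1) :=
        sum_congr rfl fun j hj => (h1 j hj).2.symm
    _ ≤ _ := sum_le_sum_of_subset_of_nonneg (fun j hj => (h1 j hj).1) fun j _ _ => h0 j

theorem small_le (x k W : ℕ) : (((PA x k).filter fun q => ¬ W < q).card : ℝ) ≤ W := by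
  have h : (PA x k).filter (fun q => ¬ W < q) ⊆ Icc 1 W := by
    intro q hq
    rw [mem_filter, PA_mem] at hq
    rw [mem_Icc]
    omega
  have := card_le_card h
  rw [Nat.card_Icc] at this
  exact_mod_cast (by omega : ((PA x k).filter fun q => ¬ W < q).card ≤ W)

theorem card_le_N {x k : ℕ} (hk : 1 ≤ k) : ((PA x k).card : ℝ) ≤ ((x + 1) / k : ℕ) := by
  classical
  have hinj : Set.InjOn (fun q => (q + 1) / k) (PA x k : Set ℕ) := by
    intro q hq q' hq' h
    rw [mem_coe, PA_mem] at hq hq'
    have e1 := Nat.div_mul_cancel hq.2.2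
    have e2 := Nat.div_mul_cancel hq'.2.2
    simp only at h
    rw [h] at e1
    omega
  have h2 : (PA x k).image (fun q => (q + 1) / k) ⊆ Icc 1 ((x + 1) / k) := by
    intro j hj
    rw [mem_image] at hj
    obtain ⟨q, hq, rfl⟩ := hj
    rw [PA_mem] at hq
    rw [mem_Icc]
    exact ⟨Nat.div_pos (Nat.le_of_dvd (by omega) hq.2.2) (by omega),
        Nat.div_le_div_right (by omega)⟩
  have h3 := card_le_card h2
  rw [card_image_of_injOn hinj, Nat.card_Icc, Nat.add_sub_cancel] at h3
  exact_mod_cast h3

end BTaux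

open BTaux Sv

/-- Block BT. -/
theorem stmt_BT : Stmt_BT := by
  obtain ⟨C0, hC0, D, hWS⟩ :=
    Pool.Agent.Work.MP_b0c12c_nt_shift.stmt_WS 1 one_pos
  obtain ⟨C1, hC1, hPP⟩ := PP_le
  obtain ⟨D', hD'⟩ : ∃ D', D' = max D 2 := ⟨_, rfl⟩
  have hD2 : 2 ≤ D' := by rw [hD']; exact le_max_right _ _
  have hDD : D ≤ D' := by rw [hD']; exact le_max_left _ _
  have hD0 : (0 : ℝ) < D' := by positivity
  have hl3 : 0 ≤ Real.log 3 := Real.log_nonneg (by norm_num)
  have hl2 : 0 ≤ Real.log 2 := Real.log_nonneg (by norm_num)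
  refine ⟨2 * (Real.log 2 + D' * Real.log 3) + (8 * D' * C0 * C1 + 8), by positivity,
    fun k x hk hkx => ?_⟩
  obtain ⟨N, hN⟩ : ∃ N, N = (x + 1) / k := ⟨_, rfl⟩
  have hk0 : (0 : ℝ) < k := by exact_mod_cast hk
  have hx0 : (0 : ℝ) < x := by exact_mod_cast (by omega : 0 < x)
  have hphi0 : 0 < k.totient := Nat.totient_pos.2 (by omega)
  have hphi : (0 : ℝ) < k.totient := by exact_mod_cast hphi0
  have hphik : (k.totient : ℝ) ≤ k := by exact_mod_cast Nat.totient_le k
  have hN2 : 2 ≤ N := by
    rw [hN, Nat.le_div_iff_mul_le (by omega)]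
    omega
  have hN2' : (2 : ℝ) ≤ N := by exact_mod_cast hN2
  have hNk : (N : ℝ) * k ≤ 2 * x := by
    have h1 : N * k ≤ x + 1 := by rw [hN]; exact Nat.div_mul_le_self _ _
    have h2 : N * k ≤ 2 * x := by omega
    exact_mod_cast h2
  have hxN : (x : ℝ) / k ≤ 2 * N := by
    have h1 : x < k * (N + 1) := by
      have := Nat.lt_mul_div_succ (x + 1) (by omega : 0 < k)
      rw [← hN] at this
      omega
    rw [div_le_iff₀ hk0]
    have h2 : (x : ℝ) < k * (N + 1) := by exact_mod_cast h1
    nlinarith
  have hlog0 : 0 ≤ Real.log (x / k) := by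
    apply Real.log_nonneg
    rw [le_div_iff₀ hk0]
    have : (2 * k : ℝ) ≤ x := by exact_mod_cast hkx
    linarith
  have hlogN : Real.log (x / k) ≤ Real.log 2 + Real.log N := by
    rw [← Real.log_mul (by norm_num) (by linarith)]
    exact Real.log_le_log (by positivity) hxN
  have hNx : (N : ℝ) ≤ 2 * (x / k.totient) := by
    have h1 : (N : ℝ) ≤ 2 * x / k := by rw [le_div_iff₀ hk0]; exact hNk
    have h2 : (2 : ℝ) * x / k ≤ 2 * x / k.totient :=
      div_le_div_of_nonneg_left (by positivity) hphi hphik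
    calc (N : ℝ) ≤ 2 * x / k.totient := h1.trans h2
      _ = _ := by ring
  have hq0 : (0 : ℝ) ≤ x / k.totient := by positivity
  have hcard := card_le_N (x := x) hk
  rw [← hN] at hcard
  rw [mul_div_assoc]
  obtain ⟨W, hW1, hW2⟩ := root D' N (by omega)
  rcases Nat.lt_or_ge W 3 with hW | hW
  · -- small `N`
    have h1 : N ≤ 3 ^ D' := hW2.le.trans (Nat.pow_le_pow_left (by omega) _)
    have h2 : Real.log N ≤ D' * Real.log 3 := by
      rw [← Real.log_pow]
      apply Real.log_le_log (by linarith)
      exact_mod_cast h1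
    calc ((PA x k).card : ℝ) * Real.log (x / k) ≤ N * (Real.log 2 + D' * Real.log 3) := by
          apply mul_le_mul hcard (by linarith) hlog0 (by linarith)
      _ ≤ (2 * (x / k.totient)) * (Real.log 2 + D' * Real.log 3) := by
          apply mul_le_mul_of_nonneg_right hNx (by positivity)
      _ = (2 * (Real.log 2 + D' * Real.log 3)) * (x / k.totient) := by ring
      _ ≤ _ := by
          apply mul_le_mul_of_nonneg_right _ hq0
          have : 0 ≤ 8 * D' * C0 * C1 + 8 := by positivity
          linarith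
  · -- large `N`
    have hW3 : (3 : ℝ) ≤ W := by exact_mod_cast hW
    have hlW : 0 < Real.log W := Real.log_pos (by linarith)
    have hlN : Real.log N ≤ 2 * D' * Real.log W := by
      have h1 : (N : ℝ) ≤ ((W : ℝ) ^ 2) ^ D' := by
        have h2 : N ≤ (W ^ 2) ^ D' := hW2.le.trans (Nat.pow_le_pow_left (by nlinarith) _)
        exact_mod_cast h2
      have h3 := Real.log_le_log (by linarith) h1
      rw [Real.log_pow, Real.log_pow] at h3
      push_cast at h3
      linarith
    have hlN0 : Real.log 2 ≤ Real.log N := Real.log_le_log (by norm_num) hN2'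
    have hs := hWS W N 0 (PP 2 W k)
      (fun p c => if k * c ≡ 1 [MOD p] then 0 else 1) hW
      (by
        intro p hp
        rw [PP, mem_filter, mem_Ioc] at hp
        exact ⟨hp.2.1, by omega, hp.1.2⟩)
      ((Nat.pow_le_pow_right (by omega) hDD).trans hW1)
      (by
        intro p _ c _
        split_ifs <;> norm_num)
      (by
        intro p hp
        rw [PP, mem_filter, mem_Ioc] at hp
        obtain ⟨c0, _, hc0⟩ := exists_class hp.2.1 hp.2.2
        have hsub : ((range p).filter fun c =>
            (if k * c ≡ 1 [MOD p] then (0 : ℝ) else 1) ≠ 1) ⊆ {c0} := by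
          intro c hc
          rw [mem_filter, mem_range] at hc
          rw [mem_singleton]
          by_contra hne
          apply hc.2
          rw [if_neg]
          intro h
          exact hne ((hc0 c hc.1).1 h)
        exact (card_le_card hsub).trans (by simp))
    have hprod : ∏ p ∈ PP 2 W k, ((∑ c ∈ range p, (if k * c ≡ 1 [MOD p] then (0 : ℝ) else 1)) / p) =
        ∏ p ∈ PP 2 W k, (1 - 1 / (p : ℝ)) := by
      apply prod_congr rfl
      intro p hp
      rw [PP, mem_filter, mem_Ioc] at hp
      obtain ⟨c0, hc0p, hc0⟩ := exists_class hp.2.1 hp.2.2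
      have h1 : ∑ c ∈ range p, (if k * c ≡ 1 [MOD p] then (0 : ℝ) else 1) =
          ∑ c ∈ range p, ((1 : ℝ) - if c = c0 then 1 else 0) := by
        apply sum_congr rfl
        intro c hc
        rw [mem_range] at hc
        by_cases h : c = c0
        · rw [if_pos h, if_pos ((hc0 c hc).2 h)]
          norm_num
        · rw [if_neg h, if_neg fun h' => h ((hc0 c hc).1 h')]
          norm_num
      rw [h1, sum_sub_distrib, sum_ite_eq' (range p) c0, if_pos (mem_range.2 hc0p)]
      have hp0 : (p : ℝ) ≠ 0 := by exact_mod_cast hp.2.1.ne_zero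
      simp only [sum_const, card_range, nsmul_eq_mul, mul_one]
      rw [sub_div, div_self hp0]
    rw [hprod] at hs
    have hb := big_le (x := x) (W := W) hk
    rw [← hN] at hb
    have hsp : ((PA x k).card : ℝ) = (((PA x k).filter fun q => W < q).card : ℝ) +
        (((PA x k).filter fun q => ¬ W < q).card : ℝ) := by
      have := card_filter_add_card_filter_not (s := PA x k) (fun q => W < q)
      exact_mod_cast this.symm
    have hP := hPP W k (by omega) hk
    have hWN : (W : ℝ) * Real.log N ≤ 2 * N := by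
      have h1 : (W : ℝ) ^ 2 ≤ N := by
        have h2 : W ^ 2 ≤ N := (Nat.pow_le_pow_right (by omega) hD2).trans hW1
        exact_mod_cast h2
      have h3 : (W : ℝ) ≤ Real.sqrt N := Real.le_sqrt_of_sq_le h1
      have h4 : Real.log N = 2 * Real.log (Real.sqrt N) := by
        rw [Real.log_sqrt (by linarith)]
        ring
      have hs0 : 0 < Real.sqrt N := Real.sqrt_pos.2 (by linarith)
      have h5 : Real.log (Real.sqrt N) ≤ Real.sqrt N := by
        have := Real.log_le_sub_one_of_pos hs0
        linarith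
      have h6 : Real.sqrt N * Real.sqrt N = N := Real.mul_self_sqrt (by linarith)
      have h7 : 0 ≤ Real.log (Real.sqrt N) := by
        have : 0 ≤ Real.log N := by linarith
        linarith
      rw [h4]
      calc (W : ℝ) * (2 * Real.log (Real.sqrt N)) ≤ Real.sqrt N * (2 * Real.sqrt N) := by
            apply mul_le_mul h3 (by linarith) (by linarith) hs0.le
        _ = 2 * N := by nlinarith
    have hbig : (((PA x k).filter fun q => W < q).card : ℝ) ≤
        C0 * N * (C1 / Real.log W * (k / k.totient)) :=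
      hb.trans (hs.trans (mul_le_mul_of_nonneg_left hP (by positivity)))
    have hlog2 : Real.log (x / k) ≤ 2 * Real.log N := by linarith
    have hsm := small_le x k W
    have h1 : (((PA x k).filter fun q => W < q).card : ℝ) * Real.log (x / k) ≤
        8 * D' * C0 * C1 * (x / k.totient) := by
      calc _ ≤ C0 * N * (C1 / Real.log W * (k / k.totient)) * (2 * (2 * D' * Real.log W)) := by
            apply mul_le_mul hbig (by linarith) hlog0 (by positivity)
        _ = 4 * D' * C0 * C1 * ((N * k) / k.totient) := by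
            field_simp
            ring
        _ ≤ 4 * D' * C0 * C1 * ((2 * x) / k.totient) := by
            apply mul_le_mul_of_nonneg_left _ (by positivity)
            exact div_le_div_of_nonneg_right hNk hphi.le
        _ = _ := by ring
    have h2 : (((PA x k).filter fun q => ¬ W < q).card : ℝ) * Real.log (x / k) ≤
        8 * (x / k.totient) := by
      calc _ ≤ (W : ℝ) * (2 * Real.log N) := by
            apply mul_le_mul hsm hlog2 hlog0 (by linarith)
        _ = 2 * ((W : ℝ) * Real.log N) := by ring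
        _ ≤ 2 * (2 * N) := by linarith
        _ ≤ _ := by linarith
    rw [hsp, add_mul]
    have h3 : 0 ≤ 2 * (Real.log 2 + D' * Real.log 3) * (x / k.totient) := by positivity
    calc _ ≤ 8 * D' * C0 * C1 * (x / k.totient) + 8 * (x / k.totient) := add_le_add h1 h2
      _ ≤ _ := by
        rw [add_mul, add_mul]
        linarith

end Pool.Agent.Work.MP_495a89_nm
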