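import Pool.Agent.Work.MP_495a89_nm.Interface

set_option autoImplicit false

namespace Pool.Agent.Work.MP_495a89_nm

open Finset

namespace TRaux

theorem mem_ch {z q r : ℕ} : r ∈ ch z q ↔ (r.Prime ∧ r ∣ q + 1 ∧ q + 1 ≠ 0) ∧ z < r := by
  unfold ch
  rw [mem_filter, Nat.mem_primeFactors]

/-- a member of `ch z q` is at most `(q + 1) / 2` -/
theorem ch_le {z q r : ℕ} (hq : q.Prime) (hq3 : 3 ≤ q) (hr : r ∈ ch z q) : 2 * r ≤ q + 1 := by
  obtain ⟨⟨hp, hd, -⟩, -⟩ := mem_ch.1 hr
  obtain ⟨k, hk⟩ := hd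
  rcases Nat.lt_or_ge k 2 with h | h
  · interval_cases k
    · omega
    · -- r = q + 1 is even and prime
      have h2 : r = q + 1 := by omega
      have hodd : q % 2 = 1 := by
        rcases hq.eq_two_or_odd with h3 | h3
        · omega
        · exact h3
      have h4 : 2 ∣ r := by omega
      have h5 := (Nat.prime_dvd_prime_iff_eq Nat.prime_two hp).1 h4
      omega
  · calc 2 * r ≤ k * r := Nat.mul_le_mul_right r h
      _ = q + 1 := by rw [hk]; ring

theorem self_mem (z L q : ℕ) : q ∈ Desc z L q := by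
  cases L with
  | zero => simp [Desc]
  | succ L => simp [Desc]

theorem desc_succ {z L q r : ℕ} : r ∈ Desc z (L + 1) q ↔ r = q ∨ ∃ p ∈ ch z q, r ∈ Desc z L p := by
  simp [Desc]

theorem mono_succ {z : ℕ} : ∀ (L : ℕ) (q r : ℕ), r ∈ Desc z L q → r ∈ Desc z (L + 1) q
  | 0, q, r, h => by
    have : r = q := by simpa [Desc] using h
    exact desc_succ.2 (Or.inl this)
  | L + 1, q, r, h => by
    rcases desc_succ.1 h with h | ⟨p, hp, h⟩
    · exact desc_succ.2 (Or.inl h)
    · exact desc_succ.2 (Or.inr ⟨p, hp, mono_succ L p r h⟩)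

theorem mono {z j L : ℕ} (h : j ≤ L) (q r : ℕ) (hr : r ∈ Desc z j q) : r ∈ Desc z L q := by
  induction h with
  | refl => exact hr
  | step _ ih => exact mono_succ _ _ _ ih

theorem desc_le {z : ℕ} (hz : 3 ≤ z) : ∀ (j : ℕ) (q r : ℕ), q.Prime → z < q → r ∈ Desc z j q → r ≤ q
  | 0, q, r, _, _, h => by
    have : r = q := by simpa [Desc] using h
    exact this.le
  | j + 1, q, r, hq, hzq, h => by
    rcases desc_succ.1 h with h | ⟨p, hp, h⟩
    · exact h.le
    · have h1 := ch_le hq (by omega) hp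
      obtain ⟨⟨hpp, -, -⟩, hzp⟩ := mem_ch.1 hp
      have h2 := desc_le hz j p r hpp hzp h
      omega

theorem main {z L : ℕ} (hz : 3 ≤ z) : ∀ (j : ℕ), j ≤ L → ∀ q : ℕ, q.Prime → z < q →
    (∀ p ∈ Desc z j q, ¬ bad z L p) → mass z j q ≤ ∑ p ∈ Desc z j q, Real.log p
  | 0, _, q, _, _, _ => by simp [mass, Desc]
  | j + 1, hj, q, hq, hzq, hb => by
    have ih := main (L := L) hz j (by omega)
    have hnb : ¬ bad z L q := hb q (self_mem z (j + 1) q)
    have hdisj : (↑(ch z q) : Set ℕ).PairwiseDisjoint (Desc z j) := by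
      intro u hu v hv huv
      rw [Function.onFun, Finset.disjoint_left]
      intro r hr1 hr2
      exact hnb ⟨u, mem_coe.1 hu, v, mem_coe.1 hv, huv, r, mono (by omega) _ _ hr1,
        mono (by omega) _ _ hr2⟩
    have hnot : q ∉ (ch z q).biUnion (Desc z j) := by
      intro h
      obtain ⟨u, hu, h⟩ := mem_biUnion.1 h
      have h1 := ch_le hq (by omega) hu
      obtain ⟨⟨hpp, -, -⟩, hzp⟩ := mem_ch.1 hu
      have h2 := desc_le hz j u q hpp hzp h
      omega
    have e : Desc z (j + 1) q = insert q ((ch z q).biUnion (Desc z j)) := rfl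
    rw [e, sum_insert hnot, sum_biUnion hdisj]
    change Real.log q + ∑ p ∈ ch z q, mass z j p ≤ _
    gcongr with p hp
    obtain ⟨⟨hpp, -, -⟩, hzp⟩ := mem_ch.1 hp
    exact ih p hpp hzp fun r hr => hb r (desc_succ.2 (Or.inr ⟨p, hp, hr⟩))

end TRaux

/-- Block TR. -/
theorem stmt_TR : Stmt_TR := fun _ L q hz hq hzq hb => TRaux.main hz L le_rfl q hq hzq hb

end Pool.Agent.Work.MP_495a89_nm
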